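import Mathlib

/-!
# Conditions, truth values, and retractions
-/

set_option autoImplicit false
set_option linter.all false

namespace Pool.Agent.R602.IU

/-- The index set of the Cohen reals: the component, the side, and the number. -/
abbrev I : Type := ℕ × Bool × ℕ

/-- Finite partial functions. -/
def C : Type := {f : I → ℕ → Option Bool // {x : I × ℕ | f x.1 x.2 ≠ none}.Finite}

instance : PartialOrder C where
  le q p := ∀ i k b, p.1 i k = some b → q.1 i k = some b
  le_refl _ _ _ _ h := h
  le_trans _ _ _ h h' i k b hb := h i k b (h' i k b hb)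
  le_antisymm p q h h' := by
    refine Subtype.ext (funext fun i => funext fun k => ?_)
    cases hp : p.1 i k with
    | none =>
      cases hq : q.1 i k with
      | none => rfl
      | some b => rw [h i k b hq] at hp; cases hp
    | some b => rw [h' i k b hp]

instance : OrderTop C where
  top := ⟨fun _ _ => none, by simp⟩
  le_top _ _ _ _ h := by cases h

theorem C.le_def {q p : C} : q ≤ p ↔ ∀ i k b, p.1 i k = some b → q.1 i k = some b := Iff.rfl

/-- The part of the condition with indices in `E`. -/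
def cut (E : Finset I) (p : C) : C := ⟨fun i k => if i ∈ E then p.1 i k else none,
  p.2.subset (by
    intro x hx
    simp only [Set.mem_setOf_eq] at hx ⊢
    intro h
    rw [h] at hx
    simp at hx)⟩

/-- Permutations of the indices act on the conditions. -/
def mvC (g : Equiv.Perm I) (p : C) : C := ⟨fun i => p.1 (g⁻¹ i), by
  have h : {x : I × ℕ | p.1 (g⁻¹ x.1) x.2 ≠ none} = (fun x : I × ℕ => (g⁻¹ x.1, x.2)) ⁻¹'
      {x : I × ℕ | p.1 x.1 x.2 ≠ none} := rfl
  rw [h]
  refine p.2.preimage (Set.injOn_of_injective ?_)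
  rintro ⟨a, b⟩ ⟨c, d⟩ hh
  simp only [Prod.mk.injEq, EmbeddingLike.apply_eq_iff_eq] at hh
  exact Prod.ext hh.1 hh.2⟩

theorem mvC_mul (g h : Equiv.Perm I) (p : C) : mvC (g * h) p = mvC g (mvC h p) := by
  refine Subtype.ext (funext fun i => ?_)
  change p.1 ((g * h)⁻¹ i) = p.1 (h⁻¹ (g⁻¹ i))
  rw [mul_inv_rev]
  rfl

theorem mvC_one (p : C) : mvC 1 p = p := rfl

theorem mvC_le {g : Equiv.Perm I} {p q : C} (h : q ≤ p) : mvC g q ≤ mvC g p :=
  fun i k b hb => h _ _ _ hb

/-- The action on the conditions. -/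
def acC : Equiv.Perm I →* (C ≃o C) where
  toFun g :=
    { toFun := mvC g
      invFun := mvC g⁻¹
      left_inv := fun p => by rw [← mvC_mul, inv_mul_cancel, mvC_one]
      right_inv := fun p => by rw [← mvC_mul, mul_inv_cancel, mvC_one]
      map_rel_iff' := by
        intro p q
        refine ⟨fun h => ?_, mvC_le⟩
        have h1 := mvC_le (g := g⁻¹) h
        change mvC g⁻¹ (mvC g p) ≤ mvC g⁻¹ (mvC g q) at h1
        rwa [← mvC_mul, ← mvC_mul, inv_mul_cancel, mvC_one, mvC_one] at h1 }
  map_one' := by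
    ext p
    rfl
  map_mul' := by
    intro g h
    ext p
    exact mvC_mul g h p

/-- The truth values: the regular lower sets of conditions. -/
abbrev Om : Type := Heyting.Regular (LowerSet C)

/-- The condition forces the truth value. -/
def In (p : C) (b : Om) : Prop := p ∈ (b : LowerSet C)

/-- The truth value depends only on the indices in `E`. -/
def Dep (E : Finset I) (b : Om) : Prop := ∀ p, In p b ↔ In (cut E p) b

/-- The truth values that depend only on the indices in `E`. -/
abbrev BE (E : Finset I) : Type := {b : Om // Dep E b}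

/-- Order isomorphisms act on the regular elements. -/
def regMap {α β : Type} [HeytingAlgebra α] [HeytingAlgebra β] (f : α ≃o β) :
    Heyting.Regular α ≃o Heyting.Regular β where
  toFun a := ⟨f a, by
    have h := a.2
    unfold Heyting.IsRegular at h ⊢
    rw [← map_compl f, ← map_compl f]
    exact congrArg f h⟩
  invFun a := ⟨f.symm a, by
    have h := a.2
    unfold Heyting.IsRegular at h ⊢
    rw [← map_compl f.symm, ← map_compl f.symm]
    exact congrArg f.symm h⟩
  left_inv a := Heyting.Regular.coe_injective (f.symm_apply_apply a)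
  right_inv a := Heyting.Regular.coe_injective (f.apply_symm_apply a)
  map_rel_iff' := by
    intro a b
    exact f.le_iff_le

/-- The action on the truth values. -/
def acO (g : Equiv.Perm I) : Om ≃o Om := regMap (LowerSet.map (acC g))

theorem in_acO {g : Equiv.Perm I} {p : C} {b : Om} : In p (acO g b) ↔ In (mvC g⁻¹ p) b :=
  LowerSet.mem_map

theorem Om.ext {a b : Om} (h : ∀ p, In p a ↔ In p b) : a = b :=
  Heyting.Regular.coe_injective (SetLike.ext h)

theorem acO_mul (g h : Equiv.Perm I) (b : Om) : acO (g * h) b = acO g (acO h b) := by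
  refine Om.ext fun p => ?_
  rw [in_acO, in_acO, in_acO, mul_inv_rev, mvC_mul]

theorem acO_one (b : Om) : acO 1 b = b := Om.ext fun p => in_acO

/-- `u` gives an idempotent ultrafilter in the extension with the Cohen reals with indices in `E`. -/
structure IdRet (E : Finset I) (u : (ℕ+ → Om) → Om) : Prop where
  dep : ∀ t, (∀ n, Dep E (t n)) → Dep E (u t)
  inf : ∀ s t, (∀ n, Dep E (s n)) → (∀ n, Dep E (t n)) → u (fun n => s n ⊓ t n) = u s ⊓ u t
  cst : ∀ b, Dep E b → u (fun _ => b) = b
  cpl : ∀ t, (∀ n, Dep E (t n)) → u (fun n => (t n)ᶜ) = (u t)ᶜ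
  idm : ∀ t, (∀ n, Dep E (t n)) → u (fun n => u fun m => t (m + n)) = u t

theorem cut_mvC (g : Equiv.Perm I) (E : Finset I) (p : C) :
    cut (E.map g.toEmbedding) (mvC g p) = mvC g (cut E p) := by
  refine Subtype.ext (funext fun i => funext fun k => ?_)
  change (if i ∈ E.map g.toEmbedding then p.1 (g⁻¹ i) k else none) =
    if g⁻¹ i ∈ E then p.1 (g⁻¹ i) k else none
  have h : i ∈ E.map g.toEmbedding ↔ g⁻¹ i ∈ E := by
    rw [Finset.mem_map_equiv]
    rfl
  simp only [h]

theorem dep_acO {g : Equiv.Perm I} {E : Finset I} {b : Om} (h : Dep E b) :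
    Dep (E.map g.toEmbedding) (acO g b) := by
  intro p
  rw [in_acO, in_acO, h (mvC g⁻¹ p)]
  have h1 : mvC g⁻¹ (cut (E.map g.toEmbedding) p) = cut E (mvC g⁻¹ p) := by
    have h2 := cut_mvC g E (mvC g⁻¹ p)
    rw [← mvC_mul, mul_inv_cancel, mvC_one] at h2
    rw [h2, ← mvC_mul, inv_mul_cancel, mvC_one]
  rw [h1]

/-- The action on the functions. -/
def mvU (g : Equiv.Perm I) (u : (ℕ+ → Om) → Om) : (ℕ+ → Om) → Om :=
  fun t => acO g (u fun n => acO g⁻¹ (t n))

theorem mvU_mul (g h : Equiv.Perm I) (u : (ℕ+ → Om) → Om) : mvU (g * h) u = mvU g (mvU h u) := by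
  funext t
  simp only [mvU, acO_mul, mul_inv_rev]

theorem mvU_one (u : (ℕ+ → Om) → Om) : mvU 1 u = u := by
  funext t
  simp only [mvU, acO_one, inv_one]

theorem map_map_inv (g : Equiv.Perm I) (E : Finset I) :
    (E.map g.toEmbedding).map g⁻¹.toEmbedding = E := by
  ext i
  rw [Finset.mem_map_equiv, Finset.mem_map_equiv]
  have h : g.symm ((g⁻¹).symm i) = i := g.symm_apply_apply i
  rw [h]

theorem acO_inv_acO (g : Equiv.Perm I) (b : Om) : acO g⁻¹ (acO g b) = b := by
  rw [← acO_mul, inv_mul_cancel, acO_one]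

theorem acO_acO_inv (g : Equiv.Perm I) (b : Om) : acO g (acO g⁻¹ b) = b := by
  rw [← acO_mul, mul_inv_cancel, acO_one]

theorem dep_acO_inv {g : Equiv.Perm I} {E : Finset I} {b : Om}
    (h : Dep (E.map g.toEmbedding) b) : Dep E (acO g⁻¹ b) := by
  have h1 := dep_acO (g := g⁻¹) h
  rwa [map_map_inv] at h1

theorem IdRet.mv {E : Finset I} {u : (ℕ+ → Om) → Om} (h : IdRet E u) (g : Equiv.Perm I) :
    IdRet (E.map g.toEmbedding) (mvU g u) where
  dep t ht := dep_acO (h.dep _ fun n => dep_acO_inv (ht n))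
  inf s t hs ht := by
    have h1 := h.inf _ _ (fun n => dep_acO_inv (hs n)) (fun n => dep_acO_inv (ht n))
    have h2 : (fun n => acO g⁻¹ (s n ⊓ t n)) = fun n => acO g⁻¹ (s n) ⊓ acO g⁻¹ (t n) :=
      funext fun n => OrderIso.map_inf _ _ _
    simp only [mvU]
    rw [h2, h1]
    exact OrderIso.map_inf _ _ _
  cst b hb := by
    have h1 := h.cst _ (dep_acO_inv hb)
    simp only [mvU, h1, acO_acO_inv]
  cpl t ht := by
    have h1 := h.cpl _ (fun n => dep_acO_inv (ht n))
    have h2 : (fun n => acO g⁻¹ (t n)ᶜ) = fun n => (acO g⁻¹ (t n))ᶜ :=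
      funext fun n => map_compl _ _
    simp only [mvU]
    rw [h2, h1, map_compl]
  idm t ht := by
    have h1 := h.idm _ (fun n => dep_acO_inv (ht n))
    simp only [mvU, acO_inv_acO]
    rw [h1]

end Pool.Agent.R602.IU
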