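import Mathlib

set_option autoImplicit false
set_option linter.all false

namespace Pool.Agent.R602.IU.AmaA

theorem ama_abs {B S₁ S₂ : Type} [CompleteBooleanAlgebra B] (a₁ : S₁ → ℕ+ → B)
    (a₂ : S₂ → ℕ+ → B) (v₁ : S₁ → B) (v₂ : S₂ → B)
    (inf₁ : ∀ s s' : S₁, ∃ s'' : S₁, (∀ n, a₁ s'' n = a₁ s n ⊓ a₁ s' n) ∧ v₁ s'' = v₁ s ⊓ v₁ s')
    (inf₂ : ∀ s s' : S₂, ∃ s'' : S₂, (∀ n, a₂ s'' n = a₂ s n ⊓ a₂ s' n) ∧ v₂ s'' = v₂ s ⊓ v₂ s')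
    (top₁ : ∃ s, (∀ n, a₁ s n = ⊤) ∧ v₁ s = ⊤)
    (top₂ : ∃ s, (∀ n, a₂ s n = ⊤) ∧ v₂ s = ⊤)
    (sh₁ : ∀ s, ∃ (s' : S₁) (sn : ℕ+ → S₁), v₁ s' = v₁ s ∧ (∀ n, a₁ s' n = v₁ (sn n)) ∧
      ∀ n m, a₁ (sn n) m = a₁ s (m + n))
    (sh₂ : ∀ s, ∃ (s' : S₂) (sn : ℕ+ → S₂), v₂ s' = v₂ s ∧ (∀ n, a₂ s' n = v₂ (sn n)) ∧
      ∀ n m, a₂ (sn n) m = a₂ s (m + n))
    (con : ∀ s t (b : B), (∀ n, a₁ s n ⊓ a₂ t n ⊓ b = ⊥) → v₁ s ⊓ v₂ t ⊓ b = ⊥) :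
    ∃ φ : (ℕ+ → B) → B, (∀ s t, φ (fun n => s n ⊓ t n) = φ s ⊓ φ t) ∧ (∀ b, φ (fun _ => b) = b) ∧
      (∀ t, φ t ≤ φ fun n => φ fun m => t (m + n)) ∧ (∀ s, v₁ s ≤ φ (a₁ s)) ∧
      ∀ t, v₂ t ≤ φ (a₂ t) := by
  obtain ⟨φ, hφ⟩ : ∃ φ : (ℕ+ → B) → B, ∀ r, φ r = ⨆ p : S₁ × S₂, v₁ p.1 ⊓ v₂ p.2 ⊓
      ⨅ n, (a₁ p.1 n ⊓ a₂ p.2 n) ⇨ r n := ⟨_, fun _ => rfl⟩
  have hle : ∀ r s t, v₁ s ⊓ v₂ t ⊓ (⨅ n, (a₁ s n ⊓ a₂ t n) ⇨ r n) ≤ φ r := by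
    intro r s t
    rw [hφ]
    exact le_iSup (fun p : S₁ × S₂ => v₁ p.1 ⊓ v₂ p.2 ⊓ ⨅ n, (a₁ p.1 n ⊓ a₂ p.2 n) ⇨ r n) (s, t)
  have hmono : ∀ r r' : ℕ+ → B, (∀ n, r n ≤ r' n) → φ r ≤ φ r' := by
    intro r r' h
    rw [hφ, hφ]
    exact iSup_mono fun p => inf_le_inf_left _ (iInf_mono fun n => himp_le_himp_left (h n))
  obtain ⟨T₁, hT₁, hT₁'⟩ := top₁
  obtain ⟨T₂, hT₂, hT₂'⟩ := top₂
  refine ⟨φ, fun r r' => le_antisymm (le_inf (hmono _ _ fun n => inf_le_left)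
    (hmono _ _ fun n => inf_le_right)) ?_, fun b => le_antisymm ?_ ?_, fun r => ?_, fun s => ?_,
    fun t => ?_⟩
  · rw [hφ r, hφ r', iSup_inf_iSup]
    refine iSup_le fun pq => ?_
    obtain ⟨⟨s, t⟩, ⟨s', t'⟩⟩ := pq
    obtain ⟨s'', hs, hs'⟩ := inf₁ s s'
    obtain ⟨t'', ht, ht'⟩ := inf₂ t t'
    refine le_trans ?_ (hle _ s'' t'')
    rw [hs', ht']
    simp only
    refine le_inf (le_inf (le_inf ?_ ?_) (le_inf ?_ ?_)) (le_iInf fun n => ?_)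
    · exact inf_le_left.trans (inf_le_left.trans inf_le_left)
    · exact inf_le_right.trans (inf_le_left.trans inf_le_left)
    · exact inf_le_left.trans (inf_le_left.trans inf_le_right)
    · exact inf_le_right.trans (inf_le_left.trans inf_le_right)
    · rw [hs, ht, le_himp_iff]
      refine le_inf ?_ ?_
      · have h1 : (⨅ n, (a₁ s n ⊓ a₂ t n) ⇨ r n) ⊓ (a₁ s n ⊓ a₂ t n) ≤ r n :=
          le_himp_iff.1 (iInf_le _ n)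
        refine le_trans (le_inf ?_ ?_) h1
        · exact inf_le_left.trans (inf_le_left.trans inf_le_right)
        · exact inf_le_right.trans (inf_le_inf inf_le_left inf_le_left)
      · have h1 : (⨅ n, (a₁ s' n ⊓ a₂ t' n) ⇨ r' n) ⊓ (a₁ s' n ⊓ a₂ t' n) ≤ r' n :=
          le_himp_iff.1 (iInf_le _ n)
        refine le_trans (le_inf ?_ ?_) h1
        · exact inf_le_left.trans (inf_le_right.trans inf_le_right)
        · exact inf_le_right.trans (inf_le_inf inf_le_right inf_le_right)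
  · rw [hφ]
    refine iSup_le fun p => ?_
    obtain ⟨s, t⟩ := p
    simp only
    have h1 := con s t ((⨅ n : ℕ+, (a₁ s n ⊓ a₂ t n) ⇨ b) ⊓ bᶜ) (fun n => by
      rw [eq_bot_iff]
      have h2 : (⨅ n : ℕ+, (a₁ s n ⊓ a₂ t n) ⇨ b) ⊓ (a₁ s n ⊓ a₂ t n) ≤ b :=
        le_himp_iff.1 (iInf_le _ n)
      calc a₁ s n ⊓ a₂ t n ⊓ ((⨅ n : ℕ+, (a₁ s n ⊓ a₂ t n) ⇨ b) ⊓ bᶜ)
          ≤ b ⊓ bᶜ := le_inf (le_trans (le_inf (inf_le_right.trans inf_le_left) inf_le_left) h2)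
            (inf_le_right.trans inf_le_right)
        _ ≤ ⊥ := by rw [inf_compl_eq_bot])
    rw [← inf_assoc] at h1
    exact disjoint_compl_right_iff.1 (disjoint_iff.2 h1)
  · refine le_trans ?_ (hle _ T₁ T₂)
    rw [hT₁', hT₂', top_inf_eq, top_inf_eq]
    refine le_iInf fun n => ?_
    rw [hT₁, hT₂, top_inf_eq, top_himp]
  · rw [hφ r]
    refine iSup_le fun p => ?_
    obtain ⟨s, t⟩ := p
    simp only
    obtain ⟨s', sn, hs1, hs2, hs3⟩ := sh₁ s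
    obtain ⟨t', tn, ht1, ht2, ht3⟩ := sh₂ t
    refine le_trans ?_ (hle _ s' t')
    rw [hs1, ht1]
    refine inf_le_inf_left _ (le_iInf fun n => ?_)
    rw [le_himp_iff, hs2, ht2]
    refine le_trans ?_ (hle _ (sn n) (tn n))
    refine le_inf inf_le_right (inf_le_left.trans (le_iInf fun m => ?_))
    rw [hs3, ht3]
    exact iInf_le (fun n => (a₁ s n ⊓ a₂ t n) ⇨ r n) (m + n)
  · refine le_trans ?_ (hle _ s T₂)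
    rw [hT₂', inf_top_eq]
    refine le_inf le_rfl (le_iInf fun n => ?_)
    rw [hT₂, inf_top_eq, himp_self]
    exact le_top
  · refine le_trans ?_ (hle _ T₁ t)
    rw [hT₁', top_inf_eq]
    refine le_inf le_rfl (le_iInf fun n => ?_)
    rw [hT₁, top_inf_eq, himp_self]
    exact le_top

end Pool.Agent.R602.IU.AmaA
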