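import Pool.Agent.R602.IU.Defs
import Pool.Agent.R602.IU.AmaAbs

set_option autoImplicit false
set_option linter.all false

namespace Pool.Agent.R602.IU

/-- a Boolean algebra isomorphic to the algebra of the `E`-dependent values -/
structure AmaA.Rep (E : Finset I) (B : Type) [CompleteBooleanAlgebra B] (val : B → Om) : Prop where
  inj : ∀ a b, val a = val b → a = b
  dep : ∀ b, Dep E (val b)
  sur : ∀ a, Dep E a → ∃ b, val b = a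
  le : ∀ a b, a ≤ b ↔ val a ≤ val b
  inf : ∀ a b, val (a ⊓ b) = val a ⊓ val b
  cpl : ∀ a, val aᶜ = (val a)ᶜ

/-- the total function of a homomorphism on the `E`-dependent functions -/
theorem AmaA.mk_u (E : Finset I) (hinf : ∀ a b, Dep E a → Dep E b → Dep E (a ⊓ b))
    (hcpl : ∀ a, Dep E a → Dep E aᶜ) {B : Type} [CompleteBooleanAlgebra B] {val : B → Om}
    (h : AmaA.Rep E B val) (u0 : (ℕ+ → B) → B)
    (hu1 : ∀ s t, u0 (fun n => s n ⊓ t n) = u0 s ⊓ u0 t)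
    (hu2 : ∀ b, u0 (fun _ => b) = b) (hu3 : ∀ t, u0 (fun n => (t n)ᶜ) = (u0 t)ᶜ)
    (hu4 : ∀ t, u0 (fun n => u0 fun m => t (m + n)) = u0 t) :
    ∃ u, IdRet E u ∧ ∀ t : ℕ+ → B, u (fun n => val (t n)) = val (u0 t) := by
  classical
  obtain ⟨u, hu⟩ : ∃ u : (ℕ+ → Om) → Om, ∀ t : ℕ+ → B, u (fun n => val (t n)) = val (u0 t) := by
    refine ⟨fun r => if h' : ∃ t : ℕ+ → B, (fun n => val (t n)) = r then val (u0 h'.choose) else r 1,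
      fun t => ?_⟩
    have h' : ∃ t' : ℕ+ → B, (fun n => val (t' n)) = fun n => val (t n) := ⟨t, rfl⟩
    simp only [dif_pos h']
    have h2 : h'.choose = t := funext fun n => h.inj _ _ (congrFun h'.choose_spec n)
    rw [h2]
  have lift : ∀ t : ℕ+ → Om, (∀ n, Dep E (t n)) → ∃ s : ℕ+ → B, t = fun n => val (s n) := by
    intro t ht
    choose s hs using fun n => h.sur _ (ht n)
    exact ⟨s, funext fun n => (hs n).symm⟩
  refine ⟨u, ⟨?_, ?_, ?_, ?_, ?_⟩, hu⟩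
  · intro t ht
    obtain ⟨s, rfl⟩ := lift t ht
    rw [hu]
    exact h.dep _
  · intro s t hs ht
    obtain ⟨s, rfl⟩ := lift s hs
    obtain ⟨t, rfl⟩ := lift t ht
    rw [hu, hu, ← h.inf, ← hu1, ← hu]
    simp only [h.inf]
  · intro b hb
    obtain ⟨b, rfl⟩ := h.sur b hb
    have := hu (fun _ => b)
    rw [this, hu2]
  · intro t ht
    obtain ⟨t, rfl⟩ := lift t ht
    rw [hu, ← h.cpl, ← hu3, ← hu]
    simp only [h.cpl]
  · intro t ht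
    obtain ⟨t, rfl⟩ := lift t ht
    have h1 : ∀ n : ℕ+, u (fun m => val (t (m + n))) = val (u0 fun m => t (m + n)) :=
      fun n => hu fun m => t (m + n)
    simp only [h1]
    rw [hu, hu, hu4]

/-- the main step -/
theorem AmaA.gen (hE : S_ELL) (E E₁ E₂ : Finset I) (u₁ u₂ : (ℕ+ → Om) → Om)
    (hu₁ : IdRet E₁ u₁) (hu₂ : IdRet E₂ u₂) (hE₁ : E₁ ⊆ E) (hE₂ : E₂ ⊆ E)
    (hC : ∀ s t : ℕ+ → Om, (∀ n, Dep E₁ (s n)) → (∀ n, Dep E₂ (t n)) → ∀ b : Om,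
      (∀ n, s n ⊓ t n ⊓ b = ⊥) → u₁ s ⊓ u₂ t ⊓ b = ⊥)
    (htop : Dep E ⊤) (hbot : Dep E ⊥)
    (hinf : ∀ a b, Dep E a → Dep E b → Dep E (a ⊓ b)) (hcpl : ∀ a, Dep E a → Dep E aᶜ)
    (htop₁ : Dep E₁ ⊤) (hinf₁ : ∀ a b, Dep E₁ a → Dep E₁ b → Dep E₁ (a ⊓ b))
    (hcpl₁ : ∀ a, Dep E₁ a → Dep E₁ aᶜ)
    (htop₂ : Dep E₂ ⊤) (hinf₂ : ∀ a b, Dep E₂ a → Dep E₂ b → Dep E₂ (a ⊓ b))
    (hcpl₂ : ∀ a, Dep E₂ a → Dep E₂ aᶜ)
    {B : Type} [CompleteBooleanAlgebra B] {val : B → Om} (h : AmaA.Rep E B val) :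
    ∃ u, IdRet E u ∧ (∀ t : ℕ+ → Om, (∀ n, Dep E₁ (t n)) → u t = u₁ t) ∧
      ∀ t : ℕ+ → Om, (∀ n, Dep E₂ (t n)) → u t = u₂ t := by
  classical
  have htopv : val ⊤ = ⊤ := by
    obtain ⟨b, hb⟩ := h.sur _ htop
    rw [← hb]
    exact (congrArg val (eq_top_iff.2 (le_of_eq_of_le rfl ((h.le _ _).2 (by
      rw [hb]; exact le_top))))).symm ▸ rfl
  have hbotv : val ⊥ = ⊥ := by
    obtain ⟨b, hb⟩ := h.sur _ hbot
    have h1 : val ⊥ ≤ val b := (h.le _ _).1 bot_le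
    rw [hb] at h1
    exact le_antisymm h1 bot_le
  have key : ∀ (E' : Finset I) (hE' : E' ⊆ E) (w : (ℕ+ → Om) → Om) (hw : IdRet E' w)
      (htop' : Dep E' ⊤) (hinf' : ∀ a b, Dep E' a → Dep E' b → Dep E' (a ⊓ b)),
      ∃ (a : {s : ℕ+ → Om // ∀ n, Dep E' (s n)} → ℕ+ → B)
        (v : {s : ℕ+ → Om // ∀ n, Dep E' (s n)} → B),
        (∀ s n, val (a s n) = s.1 n) ∧ (∀ s, val (v s) = w s.1) ∧
        (∀ s s', ∃ s'', (∀ n, a s'' n = a s n ⊓ a s' n) ∧ v s'' = v s ⊓ v s') ∧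
        (∃ s, (∀ n, a s n = ⊤) ∧ v s = ⊤) ∧
        (∀ s, ∃ (s' : {s : ℕ+ → Om // ∀ n, Dep E' (s n)})
          (sn : ℕ+ → {s : ℕ+ → Om // ∀ n, Dep E' (s n)}), v s' = v s ∧
          (∀ n, a s' n = v (sn n)) ∧ ∀ n m, a (sn n) m = a s (m + n)) := by
    intro E' hE' w hw htop' hinf'
    choose a ha using fun (s : {s : ℕ+ → Om // ∀ n, Dep E' (s n)}) (n : ℕ+) =>
      h.sur (s.1 n) ((s.2 n).mono hE')
    choose v hv using fun (s : {s : ℕ+ → Om // ∀ n, Dep E' (s n)}) =>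
      h.sur (w s.1) ((hw.dep _ s.2).mono hE')
    refine ⟨a, v, ha, hv, ?_, ?_, ?_⟩
    · intro s s'
      refine ⟨⟨fun n => s.1 n ⊓ s'.1 n, fun n => hinf' _ _ (s.2 n) (s'.2 n)⟩, fun n => ?_, ?_⟩
      · refine h.inj _ _ ?_
        rw [h.inf, ha, ha, ha]
      · refine h.inj _ _ ?_
        rw [h.inf, hv, hv, hv]
        exact hw.inf _ _ s.2 s'.2
    · refine ⟨⟨fun _ => ⊤, fun _ => htop'⟩, fun n => h.inj _ _ ?_, h.inj _ _ ?_⟩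
      · rw [ha, htopv]
      · rw [hv, htopv]
        exact hw.cst _ htop'
    · intro s
      refine ⟨⟨fun n => w fun m => s.1 (m + n), fun n => hw.dep _ fun m => s.2 _⟩,
        fun n => ⟨fun m => s.1 (m + n), fun m => s.2 _⟩, h.inj _ _ ?_,
        fun n => h.inj _ _ ?_, fun n m => h.inj _ _ ?_⟩
      · rw [hv, hv]
        exact hw.idm _ s.2
      · rw [ha, hv]
      · rw [ha, ha]
  obtain ⟨a₁, v₁, ha₁, hv₁, hi₁, ht₁, hs₁⟩ := key E₁ hE₁ u₁ hu₁ htop₁ hinf₁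
  obtain ⟨a₂, v₂, ha₂, hv₂, hi₂, ht₂, hs₂⟩ := key E₂ hE₂ u₂ hu₂ htop₂ hinf₂
  obtain ⟨φ, hφ1, hφ2, hφ3, hφ4, hφ5⟩ := AmaA.ama_abs a₁ a₂ v₁ v₂ hi₁ hi₂ ht₁ ht₂ hs₁ hs₂
    (fun s t b hb => by
      refine h.inj _ _ ?_
      rw [h.inf, h.inf, hbotv, hv₁, hv₂]
      refine hC s.1 t.1 s.2 t.2 (val b) fun n => ?_
      have h4 := congrArg val (hb n)
      rw [h.inf, h.inf, hbotv, ha₁, ha₂] at h4
      exact h4)
  obtain ⟨u0, hua, hub, huc, hud, hue⟩ := hE B φ hφ1 hφ2 hφ3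
  obtain ⟨u, hu, huv⟩ := AmaA.mk_u E hinf hcpl h u0 hua hub huc hud
  have fin : ∀ (E' : Finset I) (hE' : E' ⊆ E) (w : (ℕ+ → Om) → Om) (hw : IdRet E' w)
      (hcpl' : ∀ a, Dep E' a → Dep E' aᶜ)
      (hle : ∀ t (ht : ∀ n, Dep E' (t n)), w t ≤ u t) (t : ℕ+ → Om) (ht : ∀ n, Dep E' (t n)),
      u t = w t := by
    intro E' hE' w hw hcpl' hle t ht
    refine le_antisymm ?_ (hle t ht)
    have h5 := hle _ (fun n => hcpl' _ (ht n))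
    rw [hw.cpl t ht, hu.cpl t (fun n => (ht n).mono hE')] at h5
    exact compl_le_compl_iff_le.1 h5
  refine ⟨u, hu, fin E₁ hE₁ u₁ hu₁ hcpl₁ ?_, fin E₂ hE₂ u₂ hu₂ hcpl₂ ?_⟩
  · intro t ht
    have h6 := le_trans (hφ4 ⟨t, ht⟩) (hue _)
    have h7 := (h.le _ _).1 h6
    rw [hv₁, ← huv] at h7
    simp only [ha₁] at h7
    exact h7
  · intro t ht
    have h6 := le_trans (hφ5 ⟨t, ht⟩) (hue _)
    have h7 := (h.le _ _).1 h6
    rw [hv₂, ← huv] at h7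
    simp only [ha₂] at h7
    exact h7

theorem ama_main (hE : S_ELL) (hO : S_OMC) (hC : S_CON) : S_AMA := by
  classical
  have rep : ∀ E : Finset I, ∃ inst : CompleteBooleanAlgebra (BE E),
      @AmaA.Rep E (BE E) inst (fun a => a.1) := by
    intro E
    obtain ⟨hbot, htop, hinf, hcpl, inst, h1, h2, h3⟩ := hO E
    refine ⟨inst, @AmaA.Rep.mk E (BE E) inst _ (fun a b h => Subtype.ext h) (fun b => b.2)
      (fun a ha => ⟨⟨a, ha⟩, rfl⟩) h1 h2 h3⟩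
  refine ⟨fun E => ?_, fun E₁ E₂ E u₁ u₂ hu₁ hu₂ hE₁ hE₂ hag => ?_⟩
  · obtain ⟨inst, hr⟩ := rep E
    obtain ⟨hbot, htop, hinf, hcpl, -⟩ := hO E
    obtain ⟨u0, ha, hb, hc, hd, he⟩ := @hE (BE E) inst
      (fun t => @iInf _ _ inst.toInfSet t)
      (fun s t => @iInf_inf_eq _ _ inst.toCompleteLattice s t) (fun b => @iInf_const _ _ inst.toCompleteLattice b _)
      (fun t => @le_iInf _ _ inst.toCompleteLattice _ _ fun n =>
        @le_iInf _ _ inst.toCompleteLattice _ _ fun m => @iInf_le _ _ inst.toCompleteLattice _ _)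
    obtain ⟨u, hu, -⟩ := @AmaA.mk_u E hinf hcpl (BE E) inst _ hr u0 ha hb hc hd
    exact ⟨u, hu⟩
  · obtain ⟨inst, hr⟩ := rep E
    obtain ⟨hbot, htop, hinf, hcpl, -⟩ := hO E
    obtain ⟨-, htop₁, hinf₁, hcpl₁, -⟩ := hO E₁
    obtain ⟨-, htop₂, hinf₂, hcpl₂, -⟩ := hO E₂
    exact @AmaA.gen hE E E₁ E₂ u₁ u₂ hu₁ hu₂ hE₁ hE₂ (hC E₁ E₂ u₁ u₂ hu₁ hu₂ hag)
      htop hbot hinf hcpl htop₁ hinf₁ hcpl₁ htop₂ hinf₂ hcpl₂ (BE E) inst _ hr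

end Pool.Agent.R602.IU
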