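import Pool.Agent.R602.IU.Defs
import Pool.Agent.W868.Tool

/-! Filters with `F = F ⊕ F` in a transitive model of ZF (helper209). -/

set_option autoImplicit false
set_option linter.all false

namespace Pool.Agent.R602.IU

open Pool.Agent.W868
open ZFSet (pair)

namespace CLO

theorem mem_enc {a : Set ℕ+} {z : ZFSet.{0}} : z ∈ enc a ↔ ∃ n ∈ a, z = nat (n : ℕ) := by
  rw [enc, ZFSet.mem_sep]
  refine ⟨fun h => h.2, fun h => ⟨?_, h⟩⟩
  obtain ⟨n, -, rfl⟩ := h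
  exact mem_omega_iff.2 ⟨n, rfl⟩

theorem nat_mem_enc {a : Set ℕ+} {n : ℕ+} : nat (n : ℕ) ∈ enc a ↔ n ∈ a := by
  rw [mem_enc]
  constructor
  · rintro ⟨m, hm, h⟩
    have h1 : n = m := PNat.eq (nat_injective h)
    rwa [h1]
  · intro h
    exact ⟨n, h, rfl⟩

theorem enc_sub {a b : Set ℕ+} : enc a ⊆ enc b ↔ a ⊆ b := by
  constructor
  · intro h n hn
    exact nat_mem_enc.1 (h (nat_mem_enc.2 hn))
  · intro h z hz
    obtain ⟨n, hn, rfl⟩ := mem_enc.1 hz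
    exact nat_mem_enc.2 (h hn)

theorem enc_inj {a b : Set ℕ+} (h : enc a = enc b) : a = b := by
  ext n
  rw [← nat_mem_enc, h, nat_mem_enc]

theorem nat_ne (n : ℕ+) : ¬ nat (n : ℕ) = ∅ := by
  intro h
  have h1 : nat (n : ℕ) = nat 0 := h
  have h2 := nat_injective h1
  exact n.pos.ne' h2

theorem exists_enc {z : ZFSet.{0}} (h1 : ∀ w ∈ z, w ∈ ZFSet.omega ∧ ¬ w = ∅) :
    ∃ a, z = enc a := by
  refine ⟨{n | nat (n : ℕ) ∈ z}, ?_⟩
  ext w
  rw [mem_enc]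
  constructor
  · intro hw
    obtain ⟨k, rfl⟩ := mem_omega_iff.1 (h1 w hw).1
    have hk : 0 < k := by
      rcases Nat.eq_zero_or_pos k with rfl | hk
      · exact absurd rfl (h1 _ hw).2
      · exact hk
    exact ⟨⟨k, hk⟩, hw, rfl⟩
  · rintro ⟨n, hn, rfl⟩
    exact hn

/-- addition -/
def AddR (M : Set ZFSet.{0}) (m n k : ZFSet.{0}) : Prop :=
  ∃ f ∈ M, (∀ j ∈ ZFSet.omega, pair ∅ j ∈ f → j = m) ∧
    (∀ i ∈ ZFSet.omega, ∀ j ∈ ZFSet.omega, pair (insert i i) j ∈ f →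
      ∃ l ∈ ZFSet.omega, pair i l ∈ f ∧ j = insert l l) ∧ pair n k ∈ f

variable {M : Set ZFSet.{0}}

theorem exists_f (hM : IsZF M) (m : ℕ) : ∀ n : ℕ, ∃ f ∈ M,
    ∀ z, z ∈ f ↔ ∃ i ≤ n, z = pair (nat i) (nat (m + i)) := by
  intro n
  induction n with
  | zero =>
    refine ⟨{pair (nat 0) (nat (m + 0))},
      hM.single_mem (hM.pair_mem (hM.nat_mem 0) (hM.nat_mem (m + 0))), fun z => ?_⟩
    rw [ZFSet.mem_singleton]
    constructor
    · intro h
      exact ⟨0, le_rfl, h⟩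
    · rintro ⟨i, hi, h⟩
      obtain rfl : i = 0 := by omega
      exact h
  | succ n ih =>
    obtain ⟨f, hf, h⟩ := ih
    refine ⟨insert (pair (nat (n + 1)) (nat (m + (n + 1)))) f,
      hM.insert_mem (hM.pair_mem (hM.nat_mem _) (hM.nat_mem _)) hf, fun z => ?_⟩
    rw [ZFSet.mem_insert_iff, h]
    constructor
    · rintro (h1 | ⟨i, hi, h1⟩)
      · exact ⟨n + 1, le_rfl, h1⟩
      · exact ⟨i, by omega, h1⟩
    · rintro ⟨i, hi, h1⟩
      rcases Nat.lt_or_ge i (n + 1) with h2 | h2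
      · exact Or.inr ⟨i, by omega, h1⟩
      · obtain rfl : i = n + 1 := by omega
        exact Or.inl h1

theorem addR_iff (hM : IsZF M) (m n k : ℕ) :
    AddR M (nat m) (nat n) (nat k) ↔ k = m + n := by
  constructor
  · rintro ⟨f, -, h0, h1, h2⟩
    revert k
    induction n with
    | zero =>
      intro k h2
      exact nat_injective (h0 (nat k) (mem_omega_iff.2 ⟨k, rfl⟩) h2)
    | succ n ih =>
      intro k h2
      obtain ⟨l, hl, h3, h4⟩ := h1 (nat n) (mem_omega_iff.2 ⟨n, rfl⟩) (nat k)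
        (mem_omega_iff.2 ⟨k, rfl⟩) h2
      obtain ⟨l, rfl⟩ := mem_omega_iff.1 hl
      have h5 := ih l h3
      have h6 : nat k = nat (l + 1) := h4
      have h7 := nat_injective h6
      omega
  · rintro rfl
    obtain ⟨f, hf, h⟩ := exists_f hM m n
    refine ⟨f, hf, ?_, ?_, (h _).2 ⟨n, le_rfl, rfl⟩⟩
    · intro j _ hj
      obtain ⟨i, -, h1⟩ := (h _).1 hj
      obtain ⟨h2, h3⟩ := ZFSet.pair_inj.1 h1
      have h4 : nat 0 = nat i := h2
      have h5 := nat_injective h4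
      rw [h3, ← h5, Nat.add_zero]
    · intro i hi j _ hj
      obtain ⟨i, rfl⟩ := mem_omega_iff.1 hi
      obtain ⟨i', hi', h1⟩ := (h _).1 hj
      obtain ⟨h2, h3⟩ := ZFSet.pair_inj.1 h1
      have h4 : nat (i + 1) = nat i' := h2
      have h5 := nat_injective h4
      subst h5
      exact ⟨nat (m + i), mem_omega_iff.2 ⟨_, rfl⟩, (h _).2 ⟨i, by omega, rfl⟩, h3⟩

/-- `B = A - n` -/
def ShR (M : Set ZFSet.{0}) (A n B : ZFSet.{0}) : Prop :=
  (∀ z ∈ B, z ∈ ZFSet.omega) ∧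
    ∀ z ∈ ZFSet.omega, (z ∈ B ↔ ((¬ z = ∅) ∧ ∃ k ∈ A, AddR M z n k))

theorem sh_key (hM : IsZF M) (a : Set ℕ+) (n : ℕ+) (z : ZFSet.{0}) (hz : z ∈ ZFSet.omega) :
    ((¬ z = ∅) ∧ ∃ k ∈ enc a, AddR M z (nat (n : ℕ)) k) ↔ z ∈ enc {m | m + n ∈ a} := by
  obtain ⟨l, rfl⟩ := mem_omega_iff.1 hz
  constructor
  · rintro ⟨h1, k, hk, h2⟩
    obtain ⟨k, hk', rfl⟩ := mem_enc.1 hk
    have h3 := (addR_iff hM _ _ _).1 h2
    have hl : 0 < l := by
      rcases Nat.eq_zero_or_pos l with rfl | hl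
      · exact absurd rfl h1
      · exact hl
    obtain ⟨l', hl'⟩ : ∃ l' : ℕ+, (l' : ℕ) = l := ⟨⟨l, hl⟩, rfl⟩
    subst hl'
    refine mem_enc.2 ⟨l', ?_, rfl⟩
    have h4 : l' + n = k := PNat.eq (by rw [PNat.add_coe, h3])
    change l' + n ∈ a
    rwa [h4]
  · intro h
    obtain ⟨m, hm, h1⟩ := mem_enc.1 h
    rw [h1]
    refine ⟨nat_ne m, nat ((m + n : ℕ+) : ℕ), nat_mem_enc.2 hm, ?_⟩
    rw [addR_iff hM, PNat.add_coe]

theorem shR_iff (hM : IsZF M) (a : Set ℕ+) (n : ℕ+) (B : ZFSet.{0}) :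
    ShR M (enc a) (nat (n : ℕ)) B ↔ B = enc {m | m + n ∈ a} := by
  constructor
  · rintro ⟨h1, h2⟩
    ext z
    constructor
    · intro hz
      exact (sh_key hM a n z (h1 z hz)).1 ((h2 z (h1 z hz)).1 hz)
    · intro hz
      have hz' : z ∈ ZFSet.omega := by
        obtain ⟨m, -, rfl⟩ := mem_enc.1 hz
        exact mem_omega_iff.2 ⟨_, rfl⟩
      exact (h2 z hz').2 ((sh_key hM a n z hz').2 hz)
  · rintro rfl
    refine ⟨fun z hz => ?_, fun z hz => (sh_key hM a n z hz).symm⟩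
    obtain ⟨m, -, rfl⟩ := mem_enc.1 hz
    exact mem_omega_iff.2 ⟨_, rfl⟩

/-- `C = {n | A - n ∈ X}` -/
def SftR (M : Set ZFSet.{0}) (X A C : ZFSet.{0}) : Prop :=
  (∀ z ∈ C, z ∈ ZFSet.omega) ∧
    ∀ n ∈ ZFSet.omega, (n ∈ C ↔ ((¬ n = ∅) ∧ ∃ B ∈ X, ShR M A n B))

theorem sft_key (hM : IsZF M) (X : ZFSet.{0}) (a : Set ℕ+) (n : ZFSet.{0})
    (hn : n ∈ ZFSet.omega) :
    ((¬ n = ∅) ∧ ∃ B ∈ X, ShR M (enc a) n B) ↔ n ∈ enc (sft X a) := by
  obtain ⟨l, rfl⟩ := mem_omega_iff.1 hn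
  constructor
  · rintro ⟨h1, B, hB, h2⟩
    have hl : 0 < l := by
      rcases Nat.eq_zero_or_pos l with rfl | hl
      · exact absurd rfl h1
      · exact hl
    have h3 := (shR_iff hM a ⟨l, hl⟩ B).1 h2
    refine mem_enc.2 ⟨⟨l, hl⟩, ?_, rfl⟩
    change enc _ ∈ X
    rwa [← h3]
  · intro h
    obtain ⟨m, hm, h1⟩ := mem_enc.1 h
    rw [h1]
    exact ⟨nat_ne m, _, hm, (shR_iff hM a m _).2 rfl⟩

theorem sftR_iff (hM : IsZF M) (X : ZFSet.{0}) (a : Set ℕ+) (C : ZFSet.{0}) :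
    SftR M X (enc a) C ↔ C = enc (sft X a) := by
  constructor
  · rintro ⟨h1, h2⟩
    ext z
    constructor
    · intro hz
      exact (sft_key hM X a z (h1 z hz)).1 ((h2 z (h1 z hz)).1 hz)
    · intro hz
      have hz' : z ∈ ZFSet.omega := by
        obtain ⟨m, -, rfl⟩ := mem_enc.1 hz
        exact mem_omega_iff.2 ⟨_, rfl⟩
      exact (h2 z hz').2 ((sft_key hM X a z hz').2 hz)
  · rintro rfl
    refine ⟨fun z hz => ?_, fun z hz => (sft_key hM X a z hz).symm⟩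
    obtain ⟨m, -, rfl⟩ := mem_enc.1 hz
    exact mem_omega_iff.2 ⟨_, rfl⟩

theorem dAdd (hM : IsZF M) :
    Dfn M M fun w : Fin 3 → ZFSet.{0} => AddR M (w 0) (w 1) (w 2) := by
  have hB := hM.base
  have ho := hM.infinity
  have he := hM.empty_mem
  unfold AddR
  repeat' first
    | assumption
    | exact DfnF.proj _
    | exact DfnF.const (by assumption)
    | apply Dfn.not | apply Dfn.and | apply Dfn.or | apply Dfn.imp | apply Dfn.iff
    | apply (hB).bex | apply (hB).ball | apply Dfn.ex | apply Dfn.all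
    | apply Dfn.eq | apply Dfn.mem | apply (hB).pair' | apply (hB).insert'

theorem dSh (hM : IsZF M) :
    Dfn M M fun w : Fin 3 → ZFSet.{0} => ShR M (w 0) (w 1) (w 2) := by
  have hB := hM.base
  have ho := hM.infinity
  have he := hM.empty_mem
  have hA : ∀ {n : ℕ} {F G H : (Fin n → ZFSet.{0}) → ZFSet.{0}}, DfnF M M F → DfnF M M G →
      DfnF M M H → Dfn M M fun v => AddR M (F v) (G v) (H v) := fun hF hG hH =>
    Dfn.comp3 (Q := AddR M) (dAdd hM) hF hG hH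
  unfold ShR
  (repeat' first
      | assumption
      | exact DfnF.proj _
      | exact DfnF.const (by assumption)
      | apply hA
      | apply Dfn.not | apply Dfn.and | apply Dfn.or | apply Dfn.imp | apply Dfn.iff
      | apply hB.bex | apply hB.ball
      | apply Dfn.eq | apply Dfn.mem)

theorem dSft (hM : IsZF M) :
    Dfn M M fun w : Fin 3 → ZFSet.{0} => SftR M (w 0) (w 1) (w 2) := by
  have hB := hM.base
  have ho := hM.infinity
  have he := hM.empty_mem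
  have hA : ∀ {n : ℕ} {F G H : (Fin n → ZFSet.{0}) → ZFSet.{0}}, DfnF M M F → DfnF M M G →
      DfnF M M H → Dfn M M fun v => ShR M (F v) (G v) (H v) := fun hF hG hH =>
    Dfn.comp3 (Q := ShR M) (dSh hM) hF hG hH
  unfold SftR
  (repeat' first
      | assumption
      | exact DfnF.proj _
      | exact DfnF.const (by assumption)
      | apply hA
      | apply Dfn.not | apply Dfn.and | apply Dfn.or | apply Dfn.imp | apply Dfn.iff
      | apply hB.bex | apply hB.ball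
      | apply Dfn.eq | apply Dfn.mem)

/-- good sets of reals -/
def GoodR (M : Set ZFSet.{0}) (W R X : ZFSet.{0}) : Prop :=
  (∀ z ∈ W, z ∈ X) ∧ (∀ z ∈ X, z ∈ R) ∧ (∀ z ∈ X, ∀ y ∈ R, (∀ u ∈ z, u ∈ y) → y ∈ X) ∧
    ∀ A ∈ R, ∀ C ∈ X, SftR M X A C → A ∈ X

theorem dGood (hM : IsZF M) {W R : ZFSet.{0}} (hW : W ∈ M) (hR : R ∈ M) :
    Dfn M M fun w : Fin 1 → ZFSet.{0} => GoodR M W R (w 0) := by
  have hB := hM.base
  have hA : ∀ {n : ℕ} {F G H : (Fin n → ZFSet.{0}) → ZFSet.{0}}, DfnF M M F → DfnF M M G →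
      DfnF M M H → Dfn M M fun v => SftR M (F v) (G v) (H v) := fun hF hG hH =>
    Dfn.comp3 (Q := SftR M) (dSft hM) hF hG hH
  unfold GoodR
  (repeat' first
      | assumption
      | exact DfnF.proj _
      | exact DfnF.const (by assumption)
      | apply hA
      | apply Dfn.not | apply Dfn.and | apply Dfn.or | apply Dfn.imp | apply Dfn.iff
      | apply hB.bex | apply hB.ball
      | apply Dfn.eq | apply Dfn.mem)

theorem sh_mem (hM : IsZF M) {a : Set ℕ+} (ha : enc a ∈ M) (n : ℕ+) :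
    enc {m | m + n ∈ a} ∈ M := by
  have hB := hM.base
  have he := hM.empty_mem
  have hn := hM.nat_mem (n : ℕ)
  have hA : ∀ {n : ℕ} {F G H : (Fin n → ZFSet.{0}) → ZFSet.{0}}, DfnF M M F → DfnF M M G →
      DfnF M M H → Dfn M M fun v => AddR M (F v) (G v) (H v) := fun hF hG hH =>
    Dfn.comp3 (Q := AddR M) (dAdd hM) hF hG hH
  have h := hM.sep_mem (Q := fun z => (¬ z = ∅) ∧ ∃ k ∈ enc a, AddR M z (nat (n : ℕ)) k) (by
    (repeat' first
      | assumption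
      | exact DfnF.proj _
      | exact DfnF.const (by assumption)
      | apply hA
      | apply Dfn.not | apply Dfn.and | apply Dfn.or | apply Dfn.imp | apply Dfn.iff
      | apply hB.bex | apply hB.ball
      | apply Dfn.eq | apply Dfn.mem)) hM.infinity
  have h1 : ZFSet.sep (fun z => (¬ z = ∅) ∧ ∃ k ∈ enc a, AddR M z (nat (n : ℕ)) k)
      ZFSet.omega = enc {m | m + n ∈ a} := by
    ext z
    rw [ZFSet.mem_sep]
    constructor
    · rintro ⟨h2, h3⟩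
      exact (sh_key hM a n z h2).1 h3
    · intro hz
      have hz' : z ∈ ZFSet.omega := by
        obtain ⟨m, -, rfl⟩ := mem_enc.1 hz
        exact mem_omega_iff.2 ⟨_, rfl⟩
      exact ⟨hz', (sh_key hM a n z hz').2 hz⟩
  rwa [h1] at h

theorem sft_mem (hM : IsZF M) {a : Set ℕ+} (ha : enc a ∈ M) {X : ZFSet.{0}} (hX : X ∈ M) :
    enc (sft X a) ∈ M := by
  have hB := hM.base
  have he := hM.empty_mem
  have hA : ∀ {n : ℕ} {F G H : (Fin n → ZFSet.{0}) → ZFSet.{0}}, DfnF M M F → DfnF M M G →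
      DfnF M M H → Dfn M M fun v => ShR M (F v) (G v) (H v) := fun hF hG hH =>
    Dfn.comp3 (Q := ShR M) (dSh hM) hF hG hH
  have h := hM.sep_mem (Q := fun z => (¬ z = ∅) ∧ ∃ B ∈ X, ShR M (enc a) z B) (by
    (repeat' first
      | assumption
      | exact DfnF.proj _
      | exact DfnF.const (by assumption)
      | apply hA
      | apply Dfn.not | apply Dfn.and | apply Dfn.or | apply Dfn.imp | apply Dfn.iff
      | apply hB.bex | apply hB.ball
      | apply Dfn.eq | apply Dfn.mem)) hM.infinity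
  have h1 : ZFSet.sep (fun z => (¬ z = ∅) ∧ ∃ B ∈ X, ShR M (enc a) z B)
      ZFSet.omega = enc (sft X a) := by
    ext z
    rw [ZFSet.mem_sep]
    constructor
    · rintro ⟨h2, h3⟩
      exact (sft_key hM X a z h2).1 h3
    · intro hz
      have hz' : z ∈ ZFSet.omega := by
        obtain ⟨m, -, rfl⟩ := mem_enc.1 hz
        exact mem_omega_iff.2 ⟨_, rfl⟩
      exact ⟨hz', (sft_key hM X a z hz').2 hz⟩
  rwa [h1] at h

theorem inter_mem (hM : IsZF M) {a b : Set ℕ+} (ha : enc a ∈ M) (hb : enc b ∈ M) :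
    enc (a ∩ b) ∈ M := by
  have h := hM.sep_mem (Q := fun z => z ∈ enc b) (Dfn.mem (DfnF.proj _) (DfnF.const hb)) ha
  have h1 : ZFSet.sep (fun z => z ∈ enc b) (enc a) = enc (a ∩ b) := by
    ext z
    rw [ZFSet.mem_sep]
    constructor
    · rintro ⟨h2, h3⟩
      obtain ⟨n, hn, rfl⟩ := mem_enc.1 h2
      exact nat_mem_enc.2 ⟨hn, nat_mem_enc.1 h3⟩
    · intro hz
      obtain ⟨n, hn, rfl⟩ := mem_enc.1 hz
      exact ⟨nat_mem_enc.2 hn.1, nat_mem_enc.2 hn.2⟩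
  rwa [h1] at h

theorem univ_mem (hM : IsZF M) : enc Set.univ ∈ M := by
  have he := hM.empty_mem
  have h := hM.sep_mem (Q := fun z => ¬ z = ∅)
    (Dfn.not (Dfn.eq (DfnF.proj _) (DfnF.const he))) hM.infinity
  have h1 : ZFSet.sep (fun z => ¬ z = ∅) ZFSet.omega = enc Set.univ := by
    ext z
    rw [ZFSet.mem_sep]
    constructor
    · rintro ⟨h2, h3⟩
      obtain ⟨l, rfl⟩ := mem_omega_iff.1 h2
      have hl : 0 < l := by
        rcases Nat.eq_zero_or_pos l with rfl | hl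
        · exact absurd rfl h3
        · exact hl
      exact mem_enc.2 ⟨⟨l, hl⟩, trivial, rfl⟩
    · intro hz
      obtain ⟨n, hn, rfl⟩ := mem_enc.1 hz
      exact ⟨mem_omega_iff.2 ⟨_, rfl⟩, nat_ne n⟩
  rwa [h1] at h

theorem exists_R (hM : IsZF M) : ∃ R ∈ M, ∀ z, z ∈ R ↔ z ∈ M ∧ ∃ a, z = enc a := by
  obtain ⟨R, hR, h⟩ := hM.exists_pow (univ_mem hM)
  refine ⟨R, hR, fun z => ?_⟩
  rw [h]
  refine and_congr_right fun hz => ?_
  constructor
  · intro h1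
    refine exists_enc fun w hw => ?_
    obtain ⟨n, -, rfl⟩ := mem_enc.1 (h1 hw)
    exact ⟨mem_omega_iff.2 ⟨_, rfl⟩, nat_ne n⟩
  · rintro ⟨a, rfl⟩
    exact enc_sub.2 (Set.subset_univ a)

theorem sft_mono {X Y : ZFSet.{0}} {a : Set ℕ+} (h : ∀ b, enc b ∈ X → enc b ∈ Y) :
    sft X a ⊆ sft Y a := fun n hn => h _ hn

end CLO

open CLO

theorem clo_main : S_CLO := by
  intro M hM W hW hWne hWn hWi hWs
  obtain ⟨R, hR, hRm⟩ := exists_R hM
  have hB := hM.base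
  have hG1 := dGood hM hW hR
  set F : ZFSet.{0} := ZFSet.sep (fun z => ∀ X ∈ M, GoodR M W R X → z ∈ X) R with hF
  have hFM : F ∈ M := by
    refine hM.sep_mem (Q := fun z => ∀ X ∈ M, GoodR M W R X → z ∈ X) ?_ hR
    refine Dfn.all (Q := fun X v => GoodR M W R X → v 0 ∈ X) ?_
    refine Dfn.imp ?_ ?_
    · exact Dfn.comp1 (Q := GoodR M W R) hG1 (DfnF.proj 0)
    · exact Dfn.mem (DfnF.proj 1) (DfnF.proj 0)
  have hFmem : ∀ z, z ∈ F ↔ z ∈ R ∧ ∀ X ∈ M, GoodR M W R X → z ∈ X := fun z => by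
    rw [hF, ZFSet.mem_sep]
  -- a criterion for good sets
  have hcrit : ∀ X, (∀ z ∈ X, z ∈ R) → (∀ a, enc a ∈ W → enc a ∈ X) →
      (∀ a b, enc a ∈ X → enc b ∈ M → a ⊆ b → enc b ∈ X) →
      (∀ a, enc a ∈ M → enc (sft X a) ∈ X → enc a ∈ X) → GoodR M W R X := by
    intro X h1 h2 h3 h4
    refine ⟨fun z hz => ?_, h1, fun z hz y hy hzy => ?_, fun A hA C hC hs => ?_⟩
    · obtain ⟨a, -, rfl⟩ := hWn z hz
      exact h2 a hz
    · obtain ⟨-, a, rfl⟩ := (hRm z).1 (h1 z hz)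
      obtain ⟨hyM, b, rfl⟩ := (hRm y).1 hy
      exact h3 a b hz hyM (enc_sub.1 fun u hu => hzy u hu)
    · obtain ⟨hAM, a, rfl⟩ := (hRm A).1 hA
      rw [sftR_iff hM] at hs
      rw [hs] at hC
      exact h4 a hAM hC
  have hgood : ∀ X, GoodR M W R X → (∀ a, enc a ∈ W → enc a ∈ X) ∧
      (∀ a b, enc a ∈ X → enc b ∈ M → a ⊆ b → enc b ∈ X) ∧
      (∀ a, enc a ∈ M → enc (sft X a) ∈ X → enc a ∈ X) := by
    rintro X ⟨h1, h2, h3, h4⟩
    refine ⟨fun a ha => h1 _ ha, fun a b ha hb hab => ?_, fun a ha hs => ?_⟩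
    · exact h3 _ ha _ ((hRm _).2 ⟨hb, b, rfl⟩) fun u hu => enc_sub.2 hab hu
    · exact h4 _ ((hRm _).2 ⟨ha, a, rfl⟩) _ hs ((sftR_iff hM _ _ _).2 rfl)
  have hFR : ∀ z ∈ F, z ∈ R := fun z hz => ((hFmem z).1 hz).1
  have hWM : ∀ a, enc a ∈ W → enc a ∈ M := fun a ha => hM.trans _ hW _ ha
  have hFM' : ∀ a, enc a ∈ F → enc a ∈ M := fun a ha => hM.trans _ hFM _ ha
  have hRe : ∀ a, enc a ∈ M → enc a ∈ R := fun a ha => (hRm _).2 ⟨ha, a, rfl⟩
  have hFX : ∀ X ∈ M, GoodR M W R X → ∀ a, enc a ∈ F → enc a ∈ X := fun X hX hg a ha =>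
    ((hFmem _).1 ha).2 X hX hg
  -- `F` is good
  have hFW : ∀ a, enc a ∈ W → enc a ∈ F := fun a ha =>
    (hFmem _).2 ⟨hRe a (hWM a ha), fun X _ hg => (hgood X hg).1 a ha⟩
  have hFup : ∀ a b, enc a ∈ F → enc b ∈ M → a ⊆ b → enc b ∈ F := fun a b ha hb hab =>
    (hFmem _).2 ⟨hRe b hb, fun X hX hg => (hgood X hg).2.1 a b (hFX X hX hg a ha) hb hab⟩
  have hFs : ∀ a, enc a ∈ M → enc (sft F a) ∈ F → enc a ∈ F := fun a ha hs =>
    (hFmem _).2 ⟨hRe a ha, fun X hX hg => (hgood X hg).2.2 a ha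
      ((hgood X hg).2.1 _ _ (hFX X hX hg _ hs) (sft_mem hM ha hX) (sft_mono (hFX X hX hg)))⟩
  -- (1)
  have hne : enc ∅ ∉ F := by
    intro h0
    have hX0 : ZFSet.sep (fun b => ∀ z ∈ W, ∃ n ∈ z, n ∈ b) R ∈ M := by
      refine hM.sep_mem (Q := fun b => ∀ z ∈ W, ∃ n ∈ z, n ∈ b) ?_ hR
      (repeat' first
        | assumption
        | exact DfnF.proj _
        | exact DfnF.const (by assumption)
        | apply Dfn.not | apply Dfn.and | apply Dfn.or | apply Dfn.imp | apply Dfn.iff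
        | apply hB.bex | apply hB.ball
        | apply Dfn.eq | apply Dfn.mem)
    set X0 := ZFSet.sep (fun b => ∀ z ∈ W, ∃ n ∈ z, n ∈ b) R with hX0d
    have hm : ∀ b, enc b ∈ X0 ↔ enc b ∈ M ∧ ∀ a, enc a ∈ W → (a ∩ b).Nonempty := by
      intro b
      rw [hX0d, ZFSet.mem_sep]
      constructor
      · rintro ⟨h1, h2⟩
        refine ⟨((hRm _).1 h1).1, fun a ha => ?_⟩
        obtain ⟨n, hn, hn'⟩ := h2 _ ha
        obtain ⟨n, h3, rfl⟩ := mem_enc.1 hn
        exact ⟨n, h3, nat_mem_enc.1 hn'⟩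
      · rintro ⟨h1, h2⟩
        refine ⟨hRe b h1, fun z hz => ?_⟩
        obtain ⟨a, -, rfl⟩ := hWn z hz
        obtain ⟨n, h3, h4⟩ := h2 a hz
        exact ⟨_, nat_mem_enc.2 h3, nat_mem_enc.2 h4⟩
    have hg : GoodR M W R X0 := by
      refine hcrit X0 (fun z hz => (ZFSet.mem_sep.1 hz).1) ?_ ?_ ?_
      · intro b hb
        refine (hm b).2 ⟨hWM b hb, fun a ha => ?_⟩
        obtain ⟨c, hc, hc'⟩ := hWi a b ha hb
        obtain ⟨c', hc'', h5⟩ := hWn _ hc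
        rw [← enc_inj h5] at hc''
        exact hc''.mono hc'
      · intro a b ha hb hab
        refine (hm b).2 ⟨hb, fun c hc => ?_⟩
        exact (((hm a).1 ha).2 c hc).mono (Set.inter_subset_inter_right c hab)
      · intro a ha hs
        refine (hm a).2 ⟨ha, fun z hz => ?_⟩
        obtain ⟨n, hn, hn'⟩ := ((hm _).1 hs).2 z hz
        obtain ⟨b, hb, hb'⟩ := hWs z hz n hn
        obtain ⟨m, hm1, hm2⟩ := ((hm _).1 hn').2 b hb
        exact ⟨m + n, hb' m hm1, hm2⟩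
    obtain ⟨z, hz⟩ := hWne
    obtain ⟨a, -, rfl⟩ := hWn z hz
    obtain ⟨n, -, hn⟩ := ((hm _).1 (hFX X0 hX0 hg ∅ h0)).2 a hz
    exact hn
  -- (2)
  have hidem : ∀ c, enc c ∈ F → enc (sft F c) ∈ F := by
    have hX : ZFSet.sep (fun b => ∃ C ∈ F, SftR M F b C) R ∈ M := by
      refine hM.sep_mem (Q := fun b => ∃ C ∈ F, SftR M F b C) ?_ hR
      refine hB.bex (F := fun _ => F) (Q := fun C v => SftR M F (v 0) C) (DfnF.const hFM) ?_
      exact Dfn.comp3 (Q := SftR M) (dSft hM) (DfnF.const hFM) (DfnF.proj 1) (DfnF.proj 0)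
    set X3 := ZFSet.sep (fun b => ∃ C ∈ F, SftR M F b C) R with hX3d
    have hm : ∀ c, enc c ∈ X3 ↔ enc c ∈ M ∧ enc (sft F c) ∈ F := by
      intro c
      rw [hX3d, ZFSet.mem_sep]
      constructor
      · rintro ⟨h1, C, hC, h2⟩
        rw [sftR_iff hM] at h2
        rw [h2] at hC
        exact ⟨((hRm _).1 h1).1, hC⟩
      · rintro ⟨h1, h2⟩
        exact ⟨hRe c h1, _, h2, (sftR_iff hM _ _ _).2 rfl⟩
    have hg : GoodR M W R X3 := by
      refine hcrit X3 (fun z hz => (ZFSet.mem_sep.1 hz).1) ?_ ?_ ?_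
      · intro c hc
        refine (hm c).2 ⟨hWM c hc, hFup c _ (hFW c hc) (sft_mem hM (hWM c hc) hFM) ?_⟩
        intro n hn
        obtain ⟨b, hb, hb'⟩ := hWs c hc n hn
        exact hFup b _ (hFW b hb) (sh_mem hM (hWM c hc) n) hb'
      · intro a b ha hb hab
        refine (hm b).2 ⟨hb, hFup _ _ ((hm a).1 ha).2 (sft_mem hM hb hFM) ?_⟩
        intro n hn
        exact hFup _ _ hn (sh_mem hM hb n) fun m hm' => hab hm'
      · intro c hc hs
        refine (hm c).2 ⟨hc, ?_⟩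
        have h1 : sft X3 c = sft F (sft F c) := by
          ext n
          have h2 : sft F {m | m + n ∈ c} = {m | m + n ∈ sft F c} := by
            ext k
            change enc {m | m + k ∈ {m | m + n ∈ c}} ∈ F ↔ enc {m | m + (k + n) ∈ c} ∈ F
            have h3 : {m : ℕ+ | m + k ∈ {m | m + n ∈ c}} = {m | m + (k + n) ∈ c} := by
              ext m
              change m + k + n ∈ c ↔ m + (k + n) ∈ c
              rw [add_assoc]
            rw [h3]
          change enc {m | m + n ∈ c} ∈ X3 ↔ enc {m | m + n ∈ sft F c} ∈ F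
          rw [hm, h2]
          exact ⟨fun h => h.2, fun h => ⟨sh_mem hM hc n, h⟩⟩
        have h2 := ((hm _).1 hs).2
        rw [h1] at h2
        have hc1 := sft_mem hM hc hFM
        have hc2 := sft_mem hM hc1 hFM
        exact hFs _ hc1 (hFs _ hc2 h2)
    intro c hc
    exact ((hm c).1 (hFX X3 hX hg c hc)).2
  -- the relation `b ∩ c ∈ F`
  have hIR : ∀ b c : Set ℕ+, (∃ D ∈ F, (∀ z ∈ D, z ∈ enc b ∧ z ∈ enc c) ∧
      ∀ z ∈ enc b, z ∈ enc c → z ∈ D) ↔ enc (b ∩ c) ∈ F := by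
    intro b c
    constructor
    · rintro ⟨D, hD, h1, h2⟩
      have h3 : D = enc (b ∩ c) := by
        ext z
        constructor
        · intro hz
          obtain ⟨n, hn, rfl⟩ := mem_enc.1 (h1 z hz).1
          exact nat_mem_enc.2 ⟨hn, nat_mem_enc.1 (h1 _ hz).2⟩
        · intro hz
          obtain ⟨n, hn, rfl⟩ := mem_enc.1 hz
          exact h2 _ (nat_mem_enc.2 hn.1) (nat_mem_enc.2 hn.2)
      rwa [← h3]
    · intro h
      refine ⟨_, h, fun z hz => ?_, fun z hz hz' => ?_⟩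
      · obtain ⟨n, hn, rfl⟩ := mem_enc.1 hz
        exact ⟨nat_mem_enc.2 hn.1, nat_mem_enc.2 hn.2⟩
      · obtain ⟨n, hn, rfl⟩ := mem_enc.1 hz
        exact nat_mem_enc.2 ⟨hn, nat_mem_enc.1 hz'⟩
  have hXY : ∀ Y ∈ M, (∀ z ∈ Y, z ∈ R) →
      ∃ X ∈ M, (∀ z ∈ X, z ∈ R) ∧ ∀ b, enc b ∈ X ↔ enc b ∈ M ∧
        ∀ c, enc c ∈ Y → enc (b ∩ c) ∈ F := by
    intro Y hY hYR
    have hX : ZFSet.sep (fun b => ∀ c ∈ Y, ∃ D ∈ F, (∀ z ∈ D, z ∈ b ∧ z ∈ c) ∧
        ∀ z ∈ b, z ∈ c → z ∈ D) R ∈ M := by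
      refine hM.sep_mem (Q := fun b => ∀ c ∈ Y, ∃ D ∈ F, (∀ z ∈ D, z ∈ b ∧ z ∈ c) ∧
        ∀ z ∈ b, z ∈ c → z ∈ D) ?_ hR
      (repeat' first
        | assumption
        | exact DfnF.proj _
        | exact DfnF.const (by assumption)
        | apply Dfn.not | apply Dfn.and | apply Dfn.or | apply Dfn.imp | apply Dfn.iff
        | apply hB.bex | apply hB.ball
        | apply Dfn.eq | apply Dfn.mem)
    refine ⟨_, hX, fun z hz => (ZFSet.mem_sep.1 hz).1, fun b => ?_⟩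
    rw [ZFSet.mem_sep]
    constructor
    · rintro ⟨h1, h2⟩
      exact ⟨((hRm _).1 h1).1, fun c hc => (hIR b c).1 (h2 _ hc)⟩
    · rintro ⟨h1, h2⟩
      refine ⟨hRe b h1, fun z hz => ?_⟩
      obtain ⟨-, c, rfl⟩ := (hRm z).1 (hYR z hz)
      exact (hIR b c).2 (h2 c hz)
  have hWR : ∀ z ∈ W, z ∈ R := by
    intro z hz
    obtain ⟨a, -, rfl⟩ := hWn z hz
    exact hRe a (hWM a hz)
  -- (3)
  have h3 : ∀ b, enc b ∈ F → ∀ c, enc c ∈ W → enc (b ∩ c) ∈ F := by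
    obtain ⟨X1, hX1, hX1R, hm⟩ := hXY W hW hWR
    have hg : GoodR M W R X1 := by
      refine hcrit X1 hX1R ?_ ?_ ?_
      · intro b hb
        refine (hm b).2 ⟨hWM b hb, fun c hc => ?_⟩
        obtain ⟨d, hd, hd'⟩ := hWi b c hb hc
        exact hFup d _ (hFW d hd) (inter_mem hM (hWM b hb) (hWM c hc)) hd'
      · intro a b ha hb hab
        refine (hm b).2 ⟨hb, fun c hc => ?_⟩
        exact hFup _ _ (((hm a).1 ha).2 c hc) (inter_mem hM hb (hWM c hc))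
          (Set.inter_subset_inter_left c hab)
      · intro b hb hs
        refine (hm b).2 ⟨hb, fun c hc => ?_⟩
        have hbc := inter_mem hM hb (hWM c hc)
        refine hFs _ hbc (hFup _ _ (((hm _).1 hs).2 c hc) (sft_mem hM hbc hFM) ?_)
        rintro n ⟨hn1, hn2⟩
        obtain ⟨e, he, he'⟩ := hWs c hc n hn2
        refine hFup _ _ (((hm _).1 hn1).2 e he) (sh_mem hM hbc n) ?_
        rintro m ⟨hm1, hm2⟩
        exact ⟨hm1, he' m hm2⟩
    intro b hb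
    exact ((hm b).1 (hFX X1 hX1 hg b hb)).2
  -- (4)
  have h4 : ∀ b, enc b ∈ F → ∀ c, enc c ∈ F → enc (b ∩ c) ∈ F := by
    obtain ⟨X2, hX2, hX2R, hm⟩ := hXY F hFM hFR
    have hg : GoodR M W R X2 := by
      refine hcrit X2 hX2R ?_ ?_ ?_
      · intro b hb
        refine (hm b).2 ⟨hWM b hb, fun c hc => ?_⟩
        rw [Set.inter_comm]
        exact h3 c hc b hb
      · intro a b ha hb hab
        refine (hm b).2 ⟨hb, fun c hc => ?_⟩
        exact hFup _ _ (((hm a).1 ha).2 c hc) (inter_mem hM hb (hFM' c hc))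
          (Set.inter_subset_inter_left c hab)
      · intro b hb hs
        refine (hm b).2 ⟨hb, fun c hc => ?_⟩
        have hbc := inter_mem hM hb (hFM' c hc)
        refine hFs _ hbc (hFup _ _ (((hm _).1 hs).2 _ (hidem c hc)) (sft_mem hM hbc hFM) ?_)
        rintro n ⟨hn1, hn2⟩
        exact ((hm _).1 hn1).2 _ hn2
    intro b hb
    exact ((hm b).1 (hFX X2 hX2 hg b hb)).2
  refine ⟨F, ⟨hFM, ?_, ?_, hne, fun a b ha hb => h4 a ha b hb, hFup⟩, ?_, ?_⟩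
  · intro z hz
    exact ((hRm z).1 (hFR z hz)).2
  · obtain ⟨z, hz⟩ := hWne
    obtain ⟨a, -, rfl⟩ := hWn z hz
    exact hFup a _ (hFW a hz) (univ_mem hM) (Set.subset_univ a)
  · intro a ha
    exact ⟨hidem a, hFs a ha⟩
  · intro z hz
    obtain ⟨a, -, rfl⟩ := hWn z hz
    exact hFW a hz

end Pool.Agent.R602.IU
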