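import Pool.Agent.R602.IU.Defs

/-!
# Compatibility of conditions
-/

set_option autoImplicit false
set_option linter.all false

namespace Pool.Agent.R602.IU

theorem cmp_none {E : Finset I} {p : C} (h : cut E p = p) {i : I} (hi : i ∉ E) (k : ℕ) :
    p.1 i k = none := by
  rw [← h]
  change (if i ∈ E then p.1 i k else none) = none
  rw [if_neg hi]

theorem cmp_mem {E : Finset I} {p : C} (h : cut E p = p) {i : I} {k : ℕ} {b : Bool}
    (hb : p.1 i k = some b) : i ∈ E := by
  by_contra hi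
  rw [cmp_none h hi] at hb
  cases hb

theorem cmp_cut {E : Finset I} {p : C} (h : ∀ i k, i ∉ E → p.1 i k = none) : cut E p = p := by
  refine Subtype.ext (funext fun i => funext fun k => ?_)
  change (if i ∈ E then p.1 i k else none) = p.1 i k
  by_cases hi : i ∈ E
  · rw [if_pos hi]
  · rw [if_neg hi, h i k hi]

theorem cmp_fix {E : Finset I} {g : Equiv.Perm I} (hg : ∀ i ∈ E, g i = i) {b : Om} (hb : Dep E b) :
    acO g b = b := by
  refine Om.ext fun p => ?_
  rw [in_acO, hb, hb p]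
  have : cut E (mvC g⁻¹ p) = cut E p := by
    refine Subtype.ext (funext fun i => funext fun k => ?_)
    change (if i ∈ E then p.1 ((g⁻¹)⁻¹ i) k else none) = if i ∈ E then p.1 i k else none
    by_cases hi : i ∈ E
    · rw [if_pos hi, if_pos hi, inv_inv, hg i hi]
    · rw [if_neg hi, if_neg hi]
  rw [this]

theorem cmp_main (hA : S_AMA) : S_CMP := by
  classical
  refine ⟨fun x E hE => ?_, ?_⟩
  · have hcut : cut E x.p = x.p := cmp_cut fun i k hi => cmp_none x.sup (fun h => hi (hE h)) k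
    by_cases hx : x.E.Nonempty
    · obtain ⟨u, hu, hu1, -⟩ := hA.2 x.E x.E E x.u x.u (x.ok hx) (x.ok hx) hE hE (fun _ _ => rfl)
      exact ⟨⟨E, x.p, u, hcut, fun _ => hu⟩, ⟨hE, le_rfl, fun _ t ht => hu1 t ht⟩, rfl, rfl⟩
    · obtain ⟨u, hu⟩ := hA.1 E
      exact ⟨⟨E, x.p, u, hcut, fun _ => hu⟩, ⟨hE, le_rfl, fun h => absurd h hx⟩, rfl, rfl⟩
  · rintro x₀ x₁ x₂ g h0 h1 h2 hg hE ⟨r, hr1, hr2⟩
    have hg' : ∀ i ∈ x₀.E, g.1 i = i := hg
    have hginv : ∀ i ∈ x₀.E, g.1⁻¹ i = i := by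
      intro i hi
      rw [Equiv.Perm.inv_eq_iff_eq, hg' i hi]
    have n1 : x₁.E.Nonempty := h0.mono h1.1
    have n2 : x₂.E.Nonempty := h0.mono h2.1
    have i1 := x₁.ok n1
    have i2 := (x₂.ok n2).mv g.1
    obtain ⟨u, hu, hu1, hu2⟩ := hA.2 x₁.E (x₂.E.map g.1.toEmbedding)
      (x₁.E ∪ x₂.E.map g.1.toEmbedding) x₁.u (mvU g.1 x₂.u) i1 i2 Finset.subset_union_left
      Finset.subset_union_right (by
        intro t ht
        have ht' : ∀ n, Dep x₀.E (t n) := fun n => by
          have := ht n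
          rwa [hE] at this
        rw [h1.2.2 h0 t ht']
        unfold mvU
        have e1 : (fun n => acO g.1⁻¹ (t n)) = t := funext fun n => cmp_fix hginv (ht' n)
        rw [e1, h2.2.2 h0 t ht', cmp_fix hg' ((x₀.ok h0).dep t ht')])
    have s2 : cut (x₂.E.map g.1.toEmbedding) (mvC g.1 x₂.p) = mvC g.1 x₂.p := (mv g x₂).sup
    obtain ⟨q, hq⟩ : ∃ q : C, ∀ i k, q.1 i k = if i ∈ x₀.E then r.1 i k else
        if i ∈ x₁.E then x₁.p.1 i k else (mvC g.1 x₂.p).1 i k := by
      refine ⟨⟨fun i k => if i ∈ x₀.E then r.1 i k else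
        if i ∈ x₁.E then x₁.p.1 i k else (mvC g.1 x₂.p).1 i k, ?_⟩, fun _ _ => rfl⟩
      refine ((r.2.union x₁.p.2).union (mvC g.1 x₂.p).2).subset ?_
      rintro ⟨i, k⟩ hx
      have hx' : (if i ∈ x₀.E then r.1 i k else
        if i ∈ x₁.E then x₁.p.1 i k else (mvC g.1 x₂.p).1 i k) ≠ none := hx
      split_ifs at hx' with c1 c2
      · exact Or.inl (Or.inl hx')
      · exact Or.inl (Or.inr hx')
      · exact Or.inr hx'
    have hcut : cut (x₁.E ∪ x₂.E.map g.1.toEmbedding) q = q := by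
      refine cmp_cut fun i k hi => ?_
      rw [Finset.mem_union, not_or] at hi
      rw [hq, if_neg (fun h => hi.1 (h1.1 h)), if_neg hi.1]
      exact cmp_none s2 hi.2 k
    refine ⟨⟨x₁.E ∪ x₂.E.map g.1.toEmbedding, q, u, hcut, fun _ => hu⟩, ?_, ?_⟩
    · refine ⟨Finset.subset_union_left, ?_, fun _ t ht => hu1 t ht⟩
      intro i k b hb
      change q.1 i k = some b
      rw [hq]
      by_cases c1 : i ∈ x₀.E
      · rw [if_pos c1]
        refine hr1 i k b ?_
        change (if i ∈ x₀.E then x₁.p.1 i k else none) = some b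
        rw [if_pos c1, hb]
      · rw [if_neg c1, if_pos (cmp_mem x₁.sup hb), hb]
    · refine ⟨Finset.subset_union_right, ?_, fun _ t ht => hu2 t ht⟩
      intro i k b hb
      have hb' : (mvC g.1 x₂.p).1 i k = some b := hb
      change q.1 i k = some b
      rw [hq]
      by_cases c1 : i ∈ x₀.E
      · rw [if_pos c1]
        refine hr2 i k b ?_
        change (if i ∈ x₀.E then x₂.p.1 i k else none) = some b
        rw [if_pos c1]
        have : x₂.p.1 (g.1⁻¹ i) k = some b := hb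
        rwa [hginv i c1] at this
      · have c2 : i ∉ x₁.E := by
          intro c2
          apply c1
          rw [← hE]
          exact Finset.mem_inter.2 ⟨c2, cmp_mem s2 hb'⟩
        rw [if_neg c1, if_neg c2, hb']

end Pool.Agent.R602.IU
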