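import Pool.Agent.R602.IU.Alg

set_option autoImplicit false
set_option linter.all false

namespace Pool.Agent.R602.IU

/-- The condition that is `r` on `E` and `p` outside. -/
def mixC (E : Finset I) (r p : C) : C := ⟨fun i k => if i ∈ E then r.1 i k else p.1 i k, by
  refine (r.2.union p.2).subset ?_
  intro x hx
  simp only [Set.mem_setOf_eq, Set.mem_union] at hx ⊢
  by_cases h : x.1 ∈ E
  · rw [if_pos h] at hx
    exact Or.inl hx
  · rw [if_neg h] at hx
    exact Or.inr hx⟩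

theorem mixC_val (E : Finset I) (r p : C) (i : I) (k : ℕ) :
    (mixC E r p).1 i k = if i ∈ E then r.1 i k else p.1 i k := rfl

theorem cut_val (E : Finset I) (p : C) (i : I) (k : ℕ) :
    (cut E p).1 i k = if i ∈ E then p.1 i k else none := rfl

theorem le_cut (E : Finset I) (p : C) : p ≤ cut E p := by
  intro i k b h
  rw [cut_val] at h
  by_cases hi : i ∈ E
  · rwa [if_pos hi] at h
  · rw [if_neg hi] at h
    cases h

theorem In.lower {p q : C} {b : Om} (h : q ≤ p) (hp : In p b) : In q b :=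
  (b : LowerSet C).lower h hp

theorem in_inf {p : C} {a b : Om} : In p (a ⊓ b) ↔ In p a ∧ In p b := Iff.rfl

theorem not_in_bot {p : C} : ¬ In p (⊥ : Om) := fun h => h

theorem in_compl_lower {p : C} {L : LowerSet C} : p ∈ Lᶜ ↔ ∀ q ≤ p, q ∉ L := by
  have h1 : p ∈ Lᶜ ↔ LowerSet.Iic p ≤ Lᶜ := by
    rw [LowerSet.Iic_le]
  rw [h1, le_compl_iff_disjoint_right, disjoint_iff_inf_le]
  constructor
  · intro h q hq hL
    exact h (show q ∈ LowerSet.Iic p ⊓ L from ⟨hq, hL⟩)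
  · rintro h q ⟨hq, hL⟩
    exact absurd hL (h q hq)

theorem in_reg {p : C} {L : LowerSet C} :
    In p (Heyting.Regular.toRegular L) ↔ ∀ q ≤ p, ∃ r ≤ q, r ∈ L := by
  change p ∈ Lᶜᶜ ↔ _
  rw [in_compl_lower]
  refine forall₂_congr fun q hq => ?_
  rw [in_compl_lower]
  push Not
  rfl

theorem cut_le_cut {E : Finset I} {p q : C} (h : q ≤ p) : cut E q ≤ cut E p := by
  intro i k b hb
  rw [cut_val] at hb ⊢
  by_cases hi : i ∈ E
  · rw [if_pos hi] at hb ⊢
    exact h i k b hb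
  · rw [if_neg hi] at hb
    cases hb

theorem le_cut_iff {E : Finset I} {p q : C} : q ≤ cut E p ↔ cut E q ≤ cut E p := by
  constructor
  · intro h i k b hb
    rw [cut_val] at hb ⊢
    by_cases hi : i ∈ E
    · rw [if_pos hi] at hb ⊢
      exact h i k b (by rw [cut_val, if_pos hi]; exact hb)
    · rw [if_neg hi] at hb
      cases hb
  · intro h
    exact (le_cut E q).trans h

theorem dep_reg {E : Finset I} {L : LowerSet C} (h : ∀ r, r ∈ L ↔ cut E r ∈ L) :
    Dep E (Heyting.Regular.toRegular L) := by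
  intro r
  constructor
  · intro hr
    rw [in_reg] at hr ⊢
    intro q hq
    obtain ⟨r', hr', hL⟩ := hr (mixC E q r) (by
      intro i k b hb
      rw [mixC_val]
      by_cases hi : i ∈ E
      · rw [if_pos hi]
        exact hq i k b (by rw [cut_val, if_pos hi]; exact hb)
      · rw [if_neg hi]
        exact hb)
    refine ⟨mixC E r' q, ?_, ?_⟩
    · intro i k b hb
      rw [mixC_val]
      by_cases hi : i ∈ E
      · rw [if_pos hi]
        exact hr' i k b (by rw [mixC_val, if_pos hi]; exact hb)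
      · rw [if_neg hi]
        exact hb
    · rw [h]
      have h2 : cut E (mixC E r' q) = cut E r' := by
        refine Subtype.ext (funext fun i => funext fun k => ?_)
        change (cut E (mixC E r' q)).1 i k = (cut E r').1 i k
        rw [cut_val, cut_val, mixC_val]
        by_cases hi : i ∈ E
        · rw [if_pos hi, if_pos hi, if_pos hi]
        · rw [if_neg hi, if_neg hi]
      rw [h2, ← h]
      exact hL
  · exact In.lower (le_cut E r)

/-- the lower set -/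
def LL (E : Finset I) (p : C) (a : Om) : LowerSet C :=
  ⟨{r | ∃ q, q ≤ p ∧ In q a ∧ r ≤ cut E q}, by
    rintro r r' hr ⟨q, h1, h2, h3⟩
    exact ⟨q, h1, h2, hr.trans h3⟩⟩

theorem mem_LL {E : Finset I} {p : C} {a : Om} {r : C} :
    r ∈ LL E p a ↔ ∃ q, q ≤ p ∧ In q a ∧ r ≤ cut E q := Iff.rfl

theorem dep_LL (E : Finset I) (p : C) (a : Om) : Dep E (Heyting.Regular.toRegular (LL E p a)) := by
  refine dep_reg fun r => ?_
  rw [mem_LL, mem_LL]
  constructor
  · rintro ⟨q, h1, h2, h3⟩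
    exact ⟨q, h1, h2, le_cut_iff.1 h3⟩
  · rintro ⟨q, h1, h2, h3⟩
    exact ⟨q, h1, h2, le_cut_iff.2 h3⟩

theorem dep_P (E : Finset I) (p : C) :
    Dep E (Heyting.Regular.toRegular (LowerSet.Iic (cut E p))) := by
  refine dep_reg fun r => ?_
  rw [LowerSet.mem_Iic_iff, LowerSet.mem_Iic_iff]
  exact le_cut_iff

theorem cut_cut' {E F : Finset I} (h : E ⊆ F) (p : C) : cut E (cut F p) = cut E p := by
  refine Subtype.ext (funext fun i => funext fun k => ?_)
  change (if i ∈ E then (if i ∈ F then p.1 i k else none) else none) = if i ∈ E then p.1 i k else none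
  by_cases hi : i ∈ E
  · rw [if_pos hi, if_pos hi, if_pos (h hi)]
  · rw [if_neg hi, if_neg hi]

theorem Dep.mono' {E F : Finset I} (h : E ⊆ F) {b : Om} (hb : Dep E b) : Dep F b := by
  intro p
  rw [hb p, hb (cut F p), cut_cut' h]

theorem dep_inf {E : Finset I} {a b : Om} (ha : Dep E a) (hb : Dep E b) : Dep E (a ⊓ b) := by
  intro p
  rw [in_inf, in_inf, ha p, hb p]

theorem dep_bot (E : Finset I) : Dep E (⊥ : Om) := fun p =>
  ⟨fun h => absurd h not_in_bot, fun h => absurd h not_in_bot⟩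

/-- one half -/
theorem half {E E₀ : Finset I} (hE : E₀ ⊆ E) {u : (ℕ+ → Om) → Om} (hu : IdRet E u)
    {s : ℕ+ → Om} (hs : ∀ n, Dep E (s n)) {p : C} (hp : In p (u s)) :
    In p (u fun n => Heyting.Regular.toRegular (LL E₀ (cut E p) (s n))) := by
  set Q : Om := Heyting.Regular.toRegular (LowerSet.Iic (cut E p)) with hQ
  have hdQ : Dep E Q := dep_P E p
  have hpQ : In p Q := by
    rw [hQ, in_reg]
    intro q hq
    exact ⟨q, le_rfl, LowerSet.mem_Iic_iff.2 (hq.trans (le_cut E p))⟩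
  have h1 : In p (u fun n => s n ⊓ Q) := by
    rw [hu.inf s (fun _ => Q) hs (fun _ => hdQ), hu.cst Q hdQ, in_inf]
    exact ⟨hp, hpQ⟩
  have h2 : ∀ n, s n ⊓ Q = (s n ⊓ Q) ⊓ Heyting.Regular.toRegular (LL E₀ (cut E p) (s n)) := by
    intro n
    refine (inf_eq_left.2 ?_).symm
    intro r hr
    change In r _ 
    have hr' : In r (s n) ∧ In r Q := hr
    rw [in_reg]
    intro q hq
    obtain ⟨r', h3, h4⟩ := (in_reg.1 hr'.2) q hq
    exact ⟨r', h3, r', h4, hr'.1.lower (h3.trans hq), le_cut _ _⟩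
  have h3 : (fun n => s n ⊓ Q) =
      fun n => (s n ⊓ Q) ⊓ Heyting.Regular.toRegular (LL E₀ (cut E p) (s n)) := funext h2
  rw [h3, hu.inf (fun n => s n ⊓ Q) _ (fun n => dep_inf (hs n) hdQ)
    (fun n => (dep_LL _ _ _).mono' hE), in_inf] at h1
  exact h1.2

theorem con_core : ∀ (E₁ E₂ : Finset I) (u₁ u₂ : (ℕ+ → Om) → Om), IdRet E₁ u₁ → IdRet E₂ u₂ →
  (∀ t : ℕ+ → Om, (∀ n, Dep (E₁ ∩ E₂) (t n)) → u₁ t = u₂ t) →
    ∀ s t : ℕ+ → Om, (∀ n, Dep E₁ (s n)) → (∀ n, Dep E₂ (t n)) → ∀ b : Om,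
      (∀ n, s n ⊓ t n ⊓ b = ⊥) → u₁ s ⊓ u₂ t ⊓ b = ⊥ := by
  intro E₁ E₂ u₁ u₂ hu₁ hu₂ hu s t hs ht b hb
  refine Heyting.Regular.coe_injective (SetLike.ext fun p => ⟨fun hp => ?_, fun hp => absurd hp
    (not_in_bot (p := p))⟩)
  exfalso
  have hp' : (In p (u₁ s) ∧ In p (u₂ t)) ∧ In p b := hp
  obtain ⟨⟨hp1, hp2⟩, hpb⟩ := hp'
  have g1 := half (Finset.inter_subset_left (s₁ := E₁) (s₂ := E₂)) hu₁ hs hp1
  have g2 := half (Finset.inter_subset_right (s₁ := E₁) (s₂ := E₂)) hu₂ ht hp2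
  rw [← hu _ (fun n => dep_LL _ _ _)] at g2
  have hE0 : E₁ ∩ E₂ ⊆ E₁ := Finset.inter_subset_left
  have g3 : In p (u₁ fun n => Heyting.Regular.toRegular (LL (E₁ ∩ E₂) (cut E₁ p) (s n)) ⊓
      Heyting.Regular.toRegular (LL (E₁ ∩ E₂) (cut E₂ p) (t n))) := by
    rw [hu₁.inf _ _ (fun n => (dep_LL _ _ _).mono' hE0) (fun n => (dep_LL _ _ _).mono' hE0),
      in_inf]
    exact ⟨g1, g2⟩
  have g4 : ∃ n r, In r (Heyting.Regular.toRegular (LL (E₁ ∩ E₂) (cut E₁ p) (s n)) ⊓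
      Heyting.Regular.toRegular (LL (E₁ ∩ E₂) (cut E₂ p) (t n))) := by
    by_contra hcon
    push Not at hcon
    have : (fun n => Heyting.Regular.toRegular (LL (E₁ ∩ E₂) (cut E₁ p) (s n)) ⊓
      Heyting.Regular.toRegular (LL (E₁ ∩ E₂) (cut E₂ p) (t n))) = fun _ => (⊥ : Om) := by
      funext n
      exact Om.ext fun r => ⟨fun h => absurd h (hcon n r), fun h => absurd h not_in_bot⟩
    rw [this, hu₁.cst ⊥ (dep_bot _)] at g3
    exact not_in_bot g3
  obtain ⟨n, r, hr⟩ := g4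
  rw [in_inf] at hr
  obtain ⟨hr1, hr2⟩ := hr
  obtain ⟨r1, hr1r, q1, hq1p, hq1s, hr1q⟩ := (in_reg.1 hr1) r le_rfl
  have hr1t := hr2.lower hr1r
  -- q1'
  have a1 : mixC (E₁ ∩ E₂) r1 q1 ≤ q1 := by
    intro i k c hc
    rw [mixC_val]
    by_cases hi : i ∈ E₁ ∩ E₂
    · rw [if_pos hi]
      exact hr1q i k c (by rw [cut_val, if_pos hi]; exact hc)
    · rw [if_neg hi]; exact hc
  have a2 : cut (E₁ ∩ E₂) (mixC (E₁ ∩ E₂) r1 q1) = cut (E₁ ∩ E₂) r1 := by
    refine Subtype.ext (funext fun i => funext fun k => ?_)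
    change (cut (E₁ ∩ E₂) (mixC (E₁ ∩ E₂) r1 q1)).1 i k = (cut (E₁ ∩ E₂) r1).1 i k
    rw [cut_val, cut_val, mixC_val]
    by_cases hi : i ∈ E₁ ∩ E₂
    · rw [if_pos hi, if_pos hi, if_pos hi]
    · rw [if_neg hi, if_neg hi]
  set q1' := mixC (E₁ ∩ E₂) r1 q1 with hq1'
  have a3 : In (cut (E₁ ∩ E₂) q1')
      (Heyting.Regular.toRegular (LL (E₁ ∩ E₂) (cut E₂ p) (t n))) := by
    rw [a2]
    exact (dep_LL _ _ _ r1).1 hr1t
  obtain ⟨r2, hr2q, q2, hq2p, hq2t, hr2q2⟩ := (in_reg.1 a3) _ le_rfl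
  set z := mixC (E₁ ∩ E₂) r2 (mixC E₁ q1' (mixC E₂ q2 p)) with hz
  have hzv : ∀ i k, z.1 i k = if i ∈ E₁ ∩ E₂ then r2.1 i k else
      if i ∈ E₁ then q1'.1 i k else if i ∈ E₂ then q2.1 i k else p.1 i k := fun i k => rfl
  have z1 : ∀ i ∈ E₁, ∀ k c, q1'.1 i k = some c → z.1 i k = some c := by
    intro i hi k c hc
    rw [hzv]
    by_cases h0 : i ∈ E₁ ∩ E₂
    · rw [if_pos h0]
      exact hr2q i k c (by rw [cut_val, if_pos h0]; exact hc)
    · rw [if_neg h0, if_pos hi]; exact hc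
  have z2 : ∀ i ∈ E₂, ∀ k c, q2.1 i k = some c → z.1 i k = some c := by
    intro i hi k c hc
    rw [hzv]
    by_cases h0 : i ∈ E₁ ∩ E₂
    · rw [if_pos h0]
      exact hr2q2 i k c (by rw [cut_val, if_pos h0]; exact hc)
    · have h1 : i ∉ E₁ := fun h => h0 (Finset.mem_inter.2 ⟨h, hi⟩)
      rw [if_neg h0, if_neg h1, if_pos hi]; exact hc
  have z3 : z ≤ p := by
    intro i k c hc
    by_cases h1 : i ∈ E₁
    · exact z1 i h1 k c (a1 i k c (hq1p i k c (by rw [cut_val, if_pos h1]; exact hc)))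
    · by_cases h2 : i ∈ E₂
      · exact z2 i h2 k c (hq2p i k c (by rw [cut_val, if_pos h2]; exact hc))
      · rw [hzv, if_neg (fun h => h1 (Finset.mem_inter.1 h).1), if_neg h1, if_neg h2]
        exact hc
  have zs : In z (s n) := by
    have h1 : In (cut E₁ q1') (s n) := (hs n q1').1 (hq1s.lower a1)
    refine h1.lower ?_
    intro i k c hc
    rw [cut_val] at hc
    by_cases hi : i ∈ E₁
    · rw [if_pos hi] at hc
      exact z1 i hi k c hc
    · rw [if_neg hi] at hc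
      cases hc
  have zt : In z (t n) := by
    have h1 : In (cut E₂ q2) (t n) := (ht n q2).1 hq2t
    refine h1.lower ?_
    intro i k c hc
    rw [cut_val] at hc
    by_cases hi : i ∈ E₂
    · rw [if_pos hi] at hc
      exact z2 i hi k c hc
    · rw [if_neg hi] at hc
      cases hc
  have hfin : In z (s n ⊓ t n ⊓ b) := ⟨⟨zs, zt⟩, hpb.lower z3⟩
  rw [hb n] at hfin
  exact not_in_bot hfin

end Pool.Agent.R602.IU
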