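import Pool.Agent.R602.IU.Defs
import Pool.Agent.R602.IU.ConCore

set_option autoImplicit false
set_option linter.all false

namespace Pool.Agent.R602.IU

theorem con_main : S_CON := con_core

end Pool.Agent.R602.IU
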