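import Pool.Agent.W868.Defs
import Mathlib

/-!
# Filters on `{1, 2, 3, ...}` in a transitive model of ZF: the definitions

A set `M` of sets (an element of `Set ZFSet.{0}`) is viewed as the structure `(M, ∈)`.
`Pool.Agent.W868.Defs` contains transitive models of ZF (`IsZF`) and the von Neumann natural numbers
(`nat`).
-/

set_option autoImplicit false

namespace Pool.Agent.R602.IU

open Pool.Agent.W868

/-- A set of positive natural numbers, as a set of von Neumann natural numbers. -/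
noncomputable def enc (a : Set ℕ+) : ZFSet.{0} :=
  ZFSet.sep (fun z => ∃ n ∈ a, z = nat (n : ℕ)) ZFSet.omega

/-- In `M`, the set `D` is a filter on `{1, 2, 3, ...}`. -/
structure FilterIn (M : Set ZFSet.{0}) (D : ZFSet.{0}) : Prop where
  mem : D ∈ M
  sub : ∀ z ∈ D, ∃ a, z = enc a
  univ : enc Set.univ ∈ D
  ne : enc ∅ ∉ D
  inter : ∀ a b, enc a ∈ D → enc b ∈ D → enc (a ∩ b) ∈ D
  up : ∀ a b, enc a ∈ D → enc b ∈ M → a ⊆ b → enc b ∈ D

/-- The set of all `n` such that `a - n = {m | m + n ∈ a}` is in `D`. -/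
def sft (D : ZFSet.{0}) (a : Set ℕ+) : Set ℕ+ := {n | enc {m | m + n ∈ a} ∈ D}

/-- In `M`, the filter `D` satisfies `D = D ⊕ D`: a set `a` in `M` is in `D` if and only if the set
of all `n` with `a - n ∈ D` is in `D`. -/
def Idem (M : Set ZFSet.{0}) (D : ZFSet.{0}) : Prop :=
  ∀ a, enc a ∈ M → (enc a ∈ D ↔ enc (sft D a) ∈ D)

/-- In `M`, the set `D` is an ultrafilter on `{1, 2, 3, ...}`. -/
def Ultra (M : Set ZFSet.{0}) (D : ZFSet.{0}) : Prop :=
  FilterIn M D ∧ ∀ a, enc a ∈ M → enc a ∈ D ∨ enc aᶜ ∈ D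

end Pool.Agent.R602.IU
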