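import Pool.Agent.R602.IU.Alg
import Pool.Agent.R602.IU.Stat
import Pool.Agent.R598.SY.T_ZF
import Pool.Agent.R598.SY.T_TRU
import Pool.Agent.R598.SY.T_SEP

/-!
# The notion of forcing, the symmetric system, and the statements of the pieces
-/

set_option autoImplicit false
set_option linter.all false

namespace Pool.Agent.R602.IU

open Pool.Agent.W868 Pool.Agent.W868.PName Pool.Agent.R598.SY
open ZFSet (pair)

theorem cut_cut {E F : Finset I} (h : E ⊆ F) (p : C) : cut E (cut F p) = cut E p := by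
  refine Subtype.ext (funext fun i => funext fun k => ?_)
  change (if i ∈ E then (if i ∈ F then p.1 i k else none) else none) = if i ∈ E then p.1 i k else none
  by_cases hi : i ∈ E
  · rw [if_pos hi, if_pos hi, if_pos (h hi)]
  · rw [if_neg hi, if_neg hi]

theorem Dep.mono {E F : Finset I} (h : E ⊆ F) {b : Om} (hb : Dep E b) : Dep F b := by
  intro p
  rw [hb p, hb (cut F p), cut_cut h]

/-- The conditions: a finite set of indices, a finite partial function, and an idempotent ultrafilter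
in the extension with the Cohen reals with these indices. -/
@[ext]
structure P : Type where
  E : Finset I
  p : C
  u : (ℕ+ → Om) → Om
  sup : cut E p = p
  ok : E.Nonempty → IdRet E u

instance : Preorder P where
  le y x := x.E ⊆ y.E ∧ y.p ≤ x.p ∧
    (x.E.Nonempty → ∀ t : ℕ+ → Om, (∀ n, Dep x.E (t n)) → y.u t = x.u t)
  le_refl x := ⟨subset_rfl, le_rfl, fun _ _ _ => rfl⟩
  le_trans z y x h h' := ⟨h'.1.trans h.1, h.2.1.trans h'.2.1, fun hx t ht => by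
    rw [h.2.2 (hx.mono h'.1) t fun n => (ht n).mono h'.1, h'.2.2 hx t ht]⟩

theorem P.le_def {y x : P} : y ≤ x ↔ x.E ⊆ y.E ∧ y.p ≤ x.p ∧
    (x.E.Nonempty → ∀ t : ℕ+ → Om, (∀ n, Dep x.E (t n)) → y.u t = x.u t) := Iff.rfl

instance : OrderTop P where
  top := ⟨∅, ⊤, fun _ => ⊤, by
    refine Subtype.ext (funext fun i => funext fun k => ?_)
    rfl, fun h => absurd h (by simp)⟩
  le_top x := ⟨Finset.empty_subset _, le_top, fun h => absurd h (by simp)⟩

/-! ### The symmetric system -/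

/-- The permutations of the indices that preserve the components and, in each component, preserve
the sides or exchange them. -/
def Gp : Subgroup (Equiv.Perm I) where
  carrier := {g | ∃ ε : ℕ → Bool, ∀ i, (g i).1 = i.1 ∧ (g i).2.1 = (ε i.1 ^^ i.2.1)}
  mul_mem' := by
    rintro g h ⟨ε, hg⟩ ⟨δ, hh⟩
    refine ⟨fun n => (ε n ^^ δ n), fun i => ?_⟩
    change (g (h i)).1 = i.1 ∧ (g (h i)).2.1 = _
    rw [(hg (h i)).1, (hg (h i)).2, (hh i).1, (hh i).2, Bool.xor_assoc]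
    exact ⟨rfl, rfl⟩
  one_mem' := ⟨fun _ => false, fun i => by simp⟩
  inv_mem' := by
    rintro g ⟨ε, hg⟩
    refine ⟨ε, fun i => ?_⟩
    have h := hg (g⁻¹ i)
    have h0 : g (g⁻¹ i) = i := g.apply_symm_apply i
    rw [h0] at h
    refine ⟨h.1.symm, ?_⟩
    rw [h.2, ← h.1, ← Bool.xor_assoc, Bool.xor_self, Bool.false_xor]

/-- The group. -/
abbrev G : Type := Gp

/-- The action on the conditions. -/
def mv (g : G) (x : P) : P where
  E := x.E.map g.1.toEmbedding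
  p := mvC g.1 x.p
  u := mvU g.1 x.u
  sup := by rw [cut_mvC, x.sup]
  ok h := (x.ok (by simpa using h)).mv g.1

theorem map_mul (g h : Equiv.Perm I) (E : Finset I) :
    E.map (g * h).toEmbedding = (E.map h.toEmbedding).map g.toEmbedding := by
  ext i
  simp only [Finset.mem_map, Equiv.coe_toEmbedding, Equiv.Perm.coe_mul, Function.comp_apply,
    exists_exists_and_eq_and]

theorem mv_mul (g h : G) (x : P) : mv (g * h) x = mv g (mv h x) := by
  refine P.ext ?_ ?_ ?_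
  · exact map_mul g.1 h.1 x.E
  · exact mvC_mul g.1 h.1 x.p
  · exact mvU_mul g.1 h.1 x.u

theorem mv_one (x : P) : mv 1 x = x := by
  refine P.ext ?_ rfl ?_
  · change x.E.map (1 : Equiv.Perm I).toEmbedding = x.E
    ext i
    rw [Finset.mem_map_equiv]
    exact Iff.rfl
  · exact mvU_one x.u

theorem mv_le {g : G} {x y : P} (h : y ≤ x) : mv g y ≤ mv g x := by
  refine ⟨Finset.map_subset_map.2 h.1, mvC_le h.2.1, fun hx t ht => ?_⟩
  have h1 := h.2.2 (by simpa [mv] using hx) (fun n => acO g.1⁻¹ (t n))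
    (fun n => dep_acO_inv (ht n))
  change acO g.1 _ = acO g.1 _
  rw [h1]

/-- The action. -/
def acH : G →* (P ≃o P) where
  toFun g :=
    { toFun := mv g
      invFun := mv g⁻¹
      left_inv := fun p => by rw [← mv_mul, inv_mul_cancel, mv_one]
      right_inv := fun p => by rw [← mv_mul, mul_inv_cancel, mv_one]
      map_rel_iff' := by
        intro p q
        refine ⟨fun h => ?_, mv_le⟩
        have h1 := mv_le (g := g⁻¹) h
        change mv g⁻¹ (mv g p) ≤ mv g⁻¹ (mv g q) at h1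
        rwa [← mv_mul, ← mv_mul, inv_mul_cancel, mv_one, mv_one] at h1 }
  map_one' := by
    refine OrderIso.ext (funext fun p => ?_)
    exact mv_one p
  map_mul' := by
    intro g h
    refine OrderIso.ext (funext fun p => ?_)
    exact mv_mul g h p

/-- The permutations that fix the elements of `E`. -/
def fix (E : Finset I) : Subgroup G where
  carrier := {g | ∀ i ∈ E, g.1 i = i}
  mul_mem' := by
    intro g h hg hh i hi
    change g.1 (h.1 i) = i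
    rw [hh i hi, hg i hi]
  one_mem' := fun i _ => rfl
  inv_mem' := by
    intro g hg i hi
    change g.1⁻¹ i = i
    rw [Equiv.Perm.inv_eq_iff_eq, hg i hi]

theorem mem_fix {E : Finset I} {g : G} : g ∈ fix E ↔ ∀ i ∈ E, g.1 i = i := Iff.rfl

theorem mv_top (g : G) : mv g ⊤ = ⊤ := by
  refine P.ext ?_ ?_ ?_
  · rfl
  · rfl
  · funext t
    exact map_top (acO g.1)

/-- The symmetric system. -/
def sys : Sys P where
  G := G
  grp := inferInstance
  ac := acH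
  top := mv_top
  F := Set.range fix
  ne := ⟨_, ⟨∅, rfl⟩⟩
  conj := by
    rintro _ ⟨E, rfl⟩ g
    refine ⟨_, ⟨E.map g.1.toEmbedding, rfl⟩, fun k hk i hi => ?_⟩
    change g.1⁻¹ (k.1 (g.1 i)) = i
    rw [hk (g.1 i) (Finset.mem_map_of_mem _ hi)]
    exact g.1.symm_apply_apply i
  dir := by
    rintro _ ⟨E, rfl⟩ _ ⟨F, rfl⟩
    refine ⟨_, ⟨E ∪ F, rfl⟩, fun k hk i hi => ?_, fun k hk i hi => ?_⟩
    · exact hk i (Finset.mem_union_left _ hi)
    · exact hk i (Finset.mem_union_right _ hi)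

theorem ac_apply (g : G) (x : P) : sys.ac g x = mv g x := rfl

/-! ### Packages -/

/-- The package is closed under the rules in `R`. -/
def Clo (R : Set (Rule P)) (π : Pkg P) : Prop :=
  ∀ ρ ∈ R, ∀ q : Query P, q.In π.N π.C → (ρ q).1 ∈ π.N ∧ (ρ q).2 ∈ π.C

/-- The property holds for all packages that are closed under certain countably many rules. -/
def Holds (Φ : Pkg P → Prop) : Prop :=
  ∃ R : Set (Rule P), R.Countable ∧ ∀ π, Clo R π → sys.Cld π → Φ π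

theorem Holds.of {Φ Ψ : Pkg P → Prop} (h : Holds Φ) (R : Set (Rule P)) (hR : R.Countable)
    (h' : ∀ π, Clo R π → sys.Cld π → Φ π → Ψ π) : Holds Ψ := by
  obtain ⟨R', hR', h1⟩ := h
  exact ⟨R ∪ R', hR.union hR', fun π hπ hc => h' π (fun ρ hρ => hπ ρ (Or.inl hρ)) hc
    (h1 π (fun ρ hρ => hπ ρ (Or.inr hρ)) hc)⟩

theorem Holds.and {Φ Ψ : Pkg P → Prop} (h : Holds Φ) (h' : Holds Ψ) : Holds fun π => Φ π ∧ Ψ π := by
  obtain ⟨R, hR, h1⟩ := h
  obtain ⟨R', hR', h2⟩ := h'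
  exact ⟨R ∪ R', hR.union hR', fun π hπ hc => ⟨h1 π (fun ρ hρ => hπ ρ (Or.inl hρ)) hc,
    h2 π (fun ρ hρ => hπ ρ (Or.inr hρ)) hc⟩⟩

theorem Holds.exists {Φ : Pkg P → Prop} (h : Holds Φ) : ∃ π : Pkg P, sys.Cld π ∧ Φ π := by
  obtain ⟨R, hR, h1⟩ := h
  obtain ⟨π, -, -, hcl⟩ := exists_pkg (sys.rules ∪ R)
    ((Set.Finite.countable (by
      unfold Sys.rules
      exact Set.toFinite _)).union hR) ∅ Set.countable_empty (⊤ : P)
  have h2 : sys.Cld π := fun ρ hρ => hcl ρ (Or.inl hρ)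
  exact ⟨π, h2, h1 π (fun ρ hρ => hcl ρ (Or.inr hρ)) h2⟩

/-- The rule for an operation on names. -/
def rl (f : PName P → PName P) : Rule P := fun q => match q with
  | ⟨_, .mem s _, v, p⟩ => (f (tv v s), p)
  | q => (emp, q.p)

/-- The rule for an operation on two names and a condition. -/
def rl2 (f : PName P → PName P → P → PName P) : Rule P := fun q => match q with
  | ⟨_, .mem s t, v, p⟩ => (f (tv v s) (tv v t) p, p)
  | q => (emp, q.p)

/-- The rule for an operation on names and conditions, with a condition as the value. -/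
def rlc (f : PName P → PName P → P → P) : Rule P := fun q => match q with
  | ⟨_, .mem s t, v, p⟩ => (emp, f (tv v s) (tv v t) p)
  | q => (emp, q.p)

theorem Clo.rl {R : Set (Rule P)} {π : Pkg P} (h : Clo R π) {f : PName P → PName P}
    (hf : IU.rl f ∈ R) {x : PName P} (hx : x ∈ π.N) : f x ∈ π.N :=
  (h _ hf _ (query2 hx hx (π.gC 0))).1

theorem Clo.rl2 {R : Set (Rule P)} {π : Pkg P} (h : Clo R π) {f : PName P → PName P → P → PName P}
    (hf : IU.rl2 f ∈ R) {x y : PName P} (hx : x ∈ π.N) (hy : y ∈ π.N) {p : P} (hp : p ∈ π.C) :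
    f x y p ∈ π.N :=
  (h _ hf _ (query2 hx hy hp)).1

theorem Clo.rlc {R : Set (Rule P)} {π : Pkg P} (h : Clo R π) {f : PName P → PName P → P → P}
    (hf : IU.rlc f ∈ R) {x y : PName P} (hx : x ∈ π.N) (hy : y ∈ π.N) {p : P} (hp : p ∈ π.C) :
    f x y p ∈ π.C :=
  (h _ hf _ (query2 hx hy hp)).2

theorem emp_N (π : Pkg P) : (emp : PName P) ∈ π.N := T_TRU.emp_mem π

/-- The symmetric submodel is a transitive model of ZF. -/
theorem isZF {π : Pkg P} (h : sys.Cld π) : IsZF (sys.Ms π) :=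
  T_ZF.main T_TRU.main T_SEP.main P sys π h

/-- The package decides an open set of conditions with a name in the package. -/
theorem gen_nm {π : Pkg P} {A : Set P} (hA : Sys.nm P A ∈ π.N) (hd : ∀ r ∈ A, ∀ s ≤ r, s ∈ A) :
    ∃ k, π.g k ∈ A ∨ ∀ r ≤ π.g k, r ∉ A := T_TRU.gen_nm π hA hd

theorem Ms_countable (π : Pkg P) : (sys.Ms π).Countable :=
  (π.cnt.mono fun x hx => hx.1).image _

/-! ### Names -/

/-- The name for the set of positive natural numbers `n` such that `t n` is forced. -/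
noncomputable def rn (t : ℕ+ → Om) : PName P :=
  PName.mk {a : ℕ+ × P // In a.2.p (t a.1)} (fun a => check (nat (a.1.1 : ℕ))) (fun a => a.1.2)

/-- The name for the ultrafilter. -/
noncomputable def un : PName P :=
  PName.mk {a : (ℕ+ → Om) × P // a.2.E.Nonempty ∧ (∀ n, Dep a.2.E (a.1 n)) ∧
    In a.2.p (a.2.u a.1)} (fun a => rn a.1.1) (fun a => a.1.2)

/-- The condition forces that `n` is in the set `Z E K`. -/
def zc (E : Finset I) (K : ℕ) (n : ℕ+) (p : C) : Prop :=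
  ∀ k, Nat.testBit (n : ℕ) k = true → K ≤ k ∧ ∀ i ∈ E, ∀ j ∈ E, i.1 = j.1 →
    ∃ b c, p.1 i k = some b ∧ p.1 j k = some c ∧ (b ^^ c) = (i.2.1 ^^ j.2.1)

/-- The name for the set `Z E K`. -/
noncomputable def zn (E : Finset I) (K : ℕ) : PName P :=
  PName.mk {a : ℕ+ × P // zc E K a.1 a.2.p} (fun a => check (nat (a.1.1 : ℕ))) (fun a => a.1.2)

/-- The name for the set of the sets `Z E K`. -/
noncomputable def zs : PName P :=
  PName.mk (Finset I × ℕ) (fun a => zn a.1 a.2) (fun _ => ⊤)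

/-- The set given by the reals `X`. -/
def ZZ (X : I → ℕ → Bool) (E : Finset I) (K : ℕ) : Set ℕ+ :=
  {n | ∀ k, Nat.testBit (n : ℕ) k = true → K ≤ k ∧ ∀ i ∈ E, ∀ j ∈ E, i.1 = j.1 →
    (X i k ^^ X j k) = (i.2.1 ^^ j.2.1)}

/-! ### The pieces -/

/-- Piece ELL: idempotent filters are contained in idempotent ultrafilters, in Boolean valued
form. -/
def S_ELL : Prop := ∀ (B : Type) [CompleteBooleanAlgebra B] (φ : (ℕ+ → B) → B),
  (∀ s t, φ (fun n => s n ⊓ t n) = φ s ⊓ φ t) → (∀ b, φ (fun _ => b) = b) →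
    (∀ t, φ t ≤ φ fun n => φ fun m => t (m + n)) →
      ∃ u : (ℕ+ → B) → B, (∀ s t, u (fun n => s n ⊓ t n) = u s ⊓ u t) ∧
        (∀ b, u (fun _ => b) = b) ∧ (∀ t, u (fun n => (t n)ᶜ) = (u t)ᶜ) ∧
          (∀ t, u (fun n => u fun m => t (m + n)) = u t) ∧ ∀ t, φ t ≤ u t

/-- Piece OMC: the truth values that depend only on `E` are a complete Boolean algebra. -/
def S_OMC : Prop := ∀ E : Finset I, Dep E ⊥ ∧ Dep E ⊤ ∧ (∀ a b, Dep E a → Dep E b → Dep E (a ⊓ b)) ∧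
  (∀ a, Dep E a → Dep E aᶜ) ∧ ∃ inst : CompleteBooleanAlgebra (BE E),
    (∀ a b : BE E, inst.le a b ↔ a.1 ≤ b.1) ∧ (∀ a b : BE E, (inst.inf a b).1 = a.1 ⊓ b.1) ∧
      ∀ a : BE E, (inst.compl a).1 = (a.1)ᶜ

/-- Piece CON: mutual genericity. -/
def S_CON : Prop := ∀ (E₁ E₂ : Finset I) (u₁ u₂ : (ℕ+ → Om) → Om), IdRet E₁ u₁ → IdRet E₂ u₂ →
  (∀ t : ℕ+ → Om, (∀ n, Dep (E₁ ∩ E₂) (t n)) → u₁ t = u₂ t) →
    ∀ s t : ℕ+ → Om, (∀ n, Dep E₁ (s n)) → (∀ n, Dep E₂ (t n)) → ∀ b : Om,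
      (∀ n, s n ⊓ t n ⊓ b = ⊥) → u₁ s ⊓ u₂ t ⊓ b = ⊥

/-- Piece AMA: amalgamation. -/
def S_AMA : Prop := (∀ E, ∃ u, IdRet E u) ∧ ∀ (E₁ E₂ E : Finset I) (u₁ u₂ : (ℕ+ → Om) → Om),
  IdRet E₁ u₁ → IdRet E₂ u₂ → E₁ ⊆ E → E₂ ⊆ E →
  (∀ t : ℕ+ → Om, (∀ n, Dep (E₁ ∩ E₂) (t n)) → u₁ t = u₂ t) →
    ∃ u, IdRet E u ∧ (∀ t : ℕ+ → Om, (∀ n, Dep E₁ (t n)) → u t = u₁ t) ∧
      ∀ t : ℕ+ → Om, (∀ n, Dep E₂ (t n)) → u t = u₂ t

/-- Piece CMP: compatibility of conditions. -/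
def S_CMP : Prop := (∀ (x : P) (E : Finset I), x.E ⊆ E → ∃ y ≤ x, y.E = E ∧ y.p = x.p) ∧
  ∀ (x₀ x₁ x₂ : P) (g : G), x₀.E.Nonempty → x₁ ≤ x₀ → x₂ ≤ x₀ → g ∈ fix x₀.E →
    x₁.E ∩ x₂.E.map g.1.toEmbedding = x₀.E →
      (∃ r : C, r ≤ cut x₀.E x₁.p ∧ r ≤ cut x₀.E x₂.p) → ∃ y, y ≤ x₁ ∧ y ≤ mv g x₂

/-- Piece NEU: there are enough permutations. -/
def S_NEU : Prop := ∀ (E₀ E₁ E₂ : Finset I) (ε : ℕ → Bool), E₀ ⊆ E₁ → E₀ ⊆ E₂ →
  (∀ i ∈ E₀, ε i.1 = false) → ∃ g ∈ fix E₀, E₁ ∩ E₂.map g.1.toEmbedding = E₀ ∧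
    ∀ i, (g.1 i).1 = i.1 ∧ (g.1 i).2.1 = (ε i.1 ^^ i.2.1)

/-- Piece VAL: values of the names of sets of numbers. -/
def S_VAL : Prop := Holds fun π =>
  (∀ t, rn t ∈ π.N → π.val (rn t) = enc {n | ∃ k, In (π.g k).p (t n)}) ∧
  (∀ t E, (∀ n, Dep E (t n)) → rn t ∈ π.N → sys.HS (rn t) ∧ π.val (rn t) ∈ sys.Ms π)

/-- Piece REA: the sets of numbers in the model. -/
def S_REA : Prop := Holds fun π => ∀ a, enc a ∈ sys.Ms π →
  ∃ (E : Finset I) (t : ℕ+ → Om), E.Nonempty ∧ (∀ n, Dep E (t n)) ∧ rn t ∈ π.N ∧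
    π.val (rn t) = enc a

/-- Piece UUV: the elements of the ultrafilter. -/
def S_UUV : Prop := Holds fun π => π.val un ∈ sys.Ms π ∧
  (∀ z ∈ π.val un, ∃ t, rn t ∈ π.N ∧ z = π.val (rn t)) ∧
  ∀ (E : Finset I) (t : ℕ+ → Om), (∀ n, Dep E (t n)) → rn t ∈ π.N →
    (π.val (rn t) ∈ π.val un ↔ ∃ k, (π.g k).E.Nonempty ∧ E ⊆ (π.g k).E ∧
      In (π.g k).p ((π.g k).u t))

/-- Piece UUF: the model has an idempotent ultrafilter. -/
def S_UUF : Prop := Holds fun π => ∃ U, Ultra (sys.Ms π) U ∧ Idem (sys.Ms π) U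

/-- Piece ZED: the sets `Z E K`. -/
def S_ZED : Prop := Holds fun π => π.val zs ∈ sys.Ms π ∧ ∃ X : I → ℕ → Bool,
  (∀ i k, ∃ m, (π.g m).p.1 i k = some (X i k)) ∧
  (∀ E K, π.val (zn E K) = enc (ZZ X E K)) ∧
  (∀ z, z ∈ π.val zs ↔ ∃ E K, z = enc (ZZ X E K)) ∧ ∀ E K, (ZZ X E K).Nonempty

/-- Piece NUF: there is no ultrafilter that contains the sets `Z E K`. -/
def S_NUF : Prop := Holds fun π => ¬ ∃ D, Ultra (sys.Ms π) D ∧ π.val zs ⊆ D

/-- Piece CLO: filters with `F = F ⊕ F` in a transitive model of ZF. -/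
def S_CLO : Prop := ∀ M : Set ZFSet.{0}, IsZF M → ∀ W ∈ M, (∃ z, z ∈ W) →
  (∀ z ∈ W, ∃ a : Set ℕ+, a.Nonempty ∧ z = enc a) →
  (∀ a b, enc a ∈ W → enc b ∈ W → ∃ c, enc c ∈ W ∧ c ⊆ a ∩ b) →
  (∀ a, enc a ∈ W → ∀ n ∈ a, ∃ b, enc b ∈ W ∧ ∀ m ∈ b, m + n ∈ a) →
    ∃ F, FilterIn M F ∧ Idem M F ∧ W ⊆ F

end Pool.Agent.R602.IU
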