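import Mathlib

/-!
Idempotent filters are contained in idempotent ultrafilters, in Boolean valued form.
-/

set_option autoImplicit false
set_option linter.all false

namespace Pool.Agent.R602.IU.EllGen

variable {S B : Type*} [AddSemigroup S] [CompleteBooleanAlgebra B]

/-- `B`-filters. -/
structure Fil (φ : (S → B) → B) : Prop where
  inf : ∀ s t, φ (s ⊓ t) = φ s ⊓ φ t
  const : ∀ b : B, φ (fun _ => b) = b

/-- `B`-ultrafilters. -/
structure Ult (φ : (S → B) → B) : Prop extends Fil φ where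
  compl : ∀ t, φ tᶜ = (φ t)ᶜ

lemma Fil.mono {φ : (S → B) → B} (h : Fil φ) {s t : S → B} (hst : s ≤ t) : φ s ≤ φ t := by
  have : s ⊓ t = s := inf_eq_left.2 hst
  rw [← this, h.inf]
  exact inf_le_right

lemma Fil.supc {φ : (S → B) → B} (h : Fil φ) (t : S → B) (b : B) :
    φ (t ⊔ fun _ => b) = φ t ⊔ b := by
  apply le_antisymm
  · have h1 : φ (t ⊔ fun _ => b) ⊓ bᶜ ≤ φ t := by
      have h2 : φ (t ⊔ fun _ => b) ⊓ bᶜ = φ ((t ⊔ fun _ => b) ⊓ fun _ => bᶜ) := by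
        rw [h.inf, h.const]
      rw [h2]
      apply h.mono
      intro n
      change (t n ⊔ b) ⊓ bᶜ ≤ t n
      rw [inf_sup_right, inf_compl_self, sup_bot_eq]
      exact inf_le_left
    calc φ (t ⊔ fun _ => b) = (φ (t ⊔ fun _ => b) ⊓ bᶜ) ⊔ (φ (t ⊔ fun _ => b) ⊓ b) := by
          rw [← inf_sup_left, compl_sup_eq_top, inf_top_eq]
      _ ≤ φ t ⊔ b := sup_le_sup h1 inf_le_right
  · refine sup_le (h.mono le_sup_left) ?_
    calc b = φ (fun _ => b) := (h.const b).symm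
      _ ≤ _ := h.mono le_sup_right

lemma Fil.top {φ : (S → B) → B} (h : Fil φ) : φ ⊤ = ⊤ := h.const ⊤

lemma Fil.bot {φ : (S → B) → B} (h : Fil φ) : φ ⊥ = ⊥ := h.const ⊥

lemma Ult.sup {φ : (S → B) → B} (h : Ult φ) (s t : S → B) : φ (s ⊔ t) = φ s ⊔ φ t := by
  have h1 : s ⊔ t = (sᶜ ⊓ tᶜ)ᶜ := by rw [compl_inf, compl_compl, compl_compl]
  rw [h1, h.compl, h.inf, h.compl, h.compl, compl_inf, compl_compl, compl_compl]

/-- chain sups -/
lemma chain_sup (c : Set ((S → B) → B)) (hc : IsChain (· ≤ ·) c) (hne : c.Nonempty)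
    (hf : ∀ φ ∈ c, Fil φ) : Fil (fun t => ⨆ φ ∈ c, (φ t : B)) := by
  constructor
  · intro s t
    apply le_antisymm
    · refine le_inf ?_ ?_
      · exact iSup₂_mono fun φ hφ => (hf φ hφ).mono inf_le_left
      · exact iSup₂_mono fun φ hφ => (hf φ hφ).mono inf_le_right
    · rw [iSup₂_inf_eq]
      refine iSup₂_le fun φ hφ => ?_
      rw [inf_iSup₂_eq]
      refine iSup₂_le fun ψ hψ => ?_
      rcases hc.total hφ hψ with h | h
      · refine le_trans ?_ (le_iSup₂ (f := fun φ (_ : φ ∈ c) => φ (s ⊓ t)) ψ hψ)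
        rw [(hf ψ hψ).inf]
        exact inf_le_inf_right _ (h s)
      · refine le_trans ?_ (le_iSup₂ (f := fun φ (_ : φ ∈ c) => φ (s ⊓ t)) φ hφ)
        rw [(hf φ hφ).inf]
        exact inf_le_inf_left _ (h t)
  · intro b
    apply le_antisymm
    · exact iSup₂_le fun φ hφ => ((hf φ hφ).const b).le
    · obtain ⟨φ, hφ⟩ := hne
      exact le_trans ((hf φ hφ).const b).ge (le_iSup₂ (f := fun φ (_ : φ ∈ c) => φ (fun _ => b)) φ hφ)

lemma ultra_of_max {φ : (S → B) → B} (h : Maximal (fun ψ => Fil ψ) φ) : Ult φ := by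
  have hφ : Fil φ := h.1
  refine { toFil := hφ, compl := fun t => ?_ }
  let c : B := (φ tᶜ)ᶜ
  let φ' : (S → B) → B := fun s => (c ⊓ φ (tᶜ ⊔ s)) ⊔ (cᶜ ⊓ φ s)
  have key : ∀ A A' C C' : B, ((c ⊓ A) ⊔ (cᶜ ⊓ C)) ⊓ ((c ⊓ A') ⊔ (cᶜ ⊓ C'))
      = (c ⊓ (A ⊓ A')) ⊔ (cᶜ ⊓ (C ⊓ C')) := by
    intro A A' C C'
    have e1 : (c ⊓ A) ⊓ (cᶜ ⊓ C') = ⊥ := by
      rw [inf_inf_inf_comm, inf_compl_self, bot_inf_eq]
    have e2 : (cᶜ ⊓ C) ⊓ (c ⊓ A') = ⊥ := by
      rw [inf_inf_inf_comm, compl_inf_self, bot_inf_eq]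
    rw [inf_sup_left, inf_sup_right, inf_sup_right, e1, e2, sup_bot_eq, bot_sup_eq,
      inf_inf_inf_comm c A c A', inf_inf_inf_comm cᶜ C cᶜ C', inf_idem, inf_idem]
  have hφ' : Fil φ' := by
    constructor
    · intro s s'
      simp only [φ']
      rw [key, ← hφ.inf, ← hφ.inf, ← sup_inf_left]
    · intro b
      simp only [φ']
      rw [hφ.supc, hφ.const, inf_sup_left]
      have e3 : c ⊓ φ tᶜ = ⊥ := compl_inf_self _
      rw [e3, bot_sup_eq, ← inf_sup_right, sup_compl_eq_top, top_inf_eq]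
  have hle : φ ≤ φ' := by
    intro s
    simp only [φ']
    calc φ s = (c ⊓ φ s) ⊔ (cᶜ ⊓ φ s) := by
          rw [← inf_sup_right, sup_compl_eq_top, top_inf_eq]
      _ ≤ _ := sup_le_sup (inf_le_inf_left _ (hφ.mono le_sup_right)) le_rfl
  have heq : φ' ≤ φ := h.2 hφ' hle
  have h1 : c ≤ φ t := by
    refine le_trans ?_ (heq t)
    simp only [φ']
    rw [compl_sup_eq_top, hφ.top, inf_top_eq]
    exact le_sup_left
  have h2 : φ t ⊓ φ tᶜ = ⊥ := by
    rw [← hφ.inf, inf_compl_self, hφ.bot]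
  have h3 : φ t ⊔ φ tᶜ = ⊤ := by
    apply top_le_iff.1
    calc (⊤ : B) = c ⊔ φ tᶜ := (compl_sup_eq_top).symm
      _ ≤ φ t ⊔ φ tᶜ := sup_le_sup_right h1 _
  exact (IsCompl.of_eq h2 h3).compl_eq.symm

lemma exists_ultra {φ : (S → B) → B} (h : Fil φ) : ∃ u, Ult u ∧ φ ≤ u := by
  obtain ⟨m, hm, hmax⟩ := zorn_le_nonempty₀ {ψ : (S → B) → B | Fil ψ}
    (fun c hcs hc y hy => ⟨fun t => ⨆ φ ∈ c, φ t, chain_sup c hc ⟨y, hy⟩ hcs,
      fun z hz t => le_iSup₂ (f := fun φ (_ : φ ∈ c) => φ t) z hz⟩) φ h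
  exact ⟨m, ultra_of_max hmax, hm⟩

/-- the shift -/
def T (ψ : (S → B) → B) (t : S → B) : S → B := fun n => ψ (fun m => t (m + n))

/-- the sum -/
def add (φ ψ : (S → B) → B) : (S → B) → B := fun t => φ (T ψ t)

lemma T_inf {ψ : (S → B) → B} (h : Fil ψ) (s t : S → B) : T ψ (s ⊓ t) = T ψ s ⊓ T ψ t := by
  funext n
  exact h.inf _ _

lemma T_const {ψ : (S → B) → B} (h : Fil ψ) (b : B) : T ψ (fun _ => b) = fun _ => b := by
  funext n
  exact h.const b

lemma T_mono {ψ : (S → B) → B} (h : Fil ψ) {s t : S → B} (hst : s ≤ t) : T ψ s ≤ T ψ t :=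
  fun n => h.mono fun m => hst (m + n)

lemma T_compl {ψ : (S → B) → B} (h : Ult ψ) (t : S → B) : T ψ tᶜ = (T ψ t)ᶜ := by
  funext n
  exact h.compl _

lemma T_sup {ψ : (S → B) → B} (h : Ult ψ) (s t : S → B) : T ψ (s ⊔ t) = T ψ s ⊔ T ψ t := by
  funext n
  exact h.sup _ _

lemma T_le {φ ψ : (S → B) → B} (h : φ ≤ ψ) (t : S → B) : T φ t ≤ T ψ t := fun n => h _

lemma T_add (φ ψ : (S → B) → B) (t : S → B) : T (add φ ψ) t = T φ (T ψ t) := by
  funext n
  change φ (fun k => ψ (fun m => t (m + k + n))) = φ (fun k => ψ (fun m => t (m + (k + n))))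
  simp only [add_assoc]

lemma add_fil {φ ψ : (S → B) → B} (hφ : Fil φ) (hψ : Fil ψ) : Fil (add φ ψ) := by
  constructor
  · intro s t
    simp only [add]
    rw [T_inf hψ, hφ.inf]
  · intro b
    simp only [add]
    rw [T_const hψ, hφ.const]

lemma add_ult {φ ψ : (S → B) → B} (hφ : Ult φ) (hψ : Ult ψ) : Ult (add φ ψ) :=
  { toFil := add_fil hφ.toFil hψ.toFil
    compl := fun t => by
      simp only [add]
      rw [T_compl hψ, hφ.compl] }

lemma ult_eq {u w : (S → B) → B} (hu : ∀ t, u tᶜ = (u t)ᶜ) (hw : ∀ t, w tᶜ = (w t)ᶜ)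
    (h : u ≤ w) : u = w := by
  funext t
  refine le_antisymm (h t) ?_
  have h1 := h tᶜ
  rw [hu, hw] at h1
  exact compl_le_compl_iff_le.1 h1

/-- additivity -/
def Additive (φ : (S → B) → B) : Prop := ∀ w, Ult w → φ ≤ w → φ ≤ add φ w

/-- the filter of Lemma L -/
def psi (φ u w : (S → B) → B) : (S → B) → B := fun s => ⨆ t, (w t ⊓ φ ((T u t)ᶜ ⊔ s) : B)

lemma psi_fil {φ u w : (S → B) → B} (hφ : Fil φ) (hu : Ult u) (hw : Ult w)
    (h : add φ u ≤ w) : Fil (psi φ u w) := by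
  have hmono : ∀ {s s' : S → B}, s ≤ s' → psi φ u w s ≤ psi φ u w s' := by
    intro s s' hs
    exact iSup_mono fun t => inf_le_inf_left _ (hφ.mono (sup_le_sup_left hs _))
  constructor
  · intro s s'
    apply le_antisymm
    · exact le_inf (hmono inf_le_left) (hmono inf_le_right)
    · simp only [psi]
      rw [iSup_inf_eq]
      refine iSup_le fun t => ?_
      rw [inf_iSup_eq]
      refine iSup_le fun t' => ?_
      refine le_trans ?_ (le_iSup _ (t ⊓ t'))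
      rw [hw.inf, T_inf hu.toFil, inf_inf_inf_comm, ← hφ.inf]
      refine inf_le_inf_left _ (hφ.mono ?_)
      rw [compl_inf, sup_inf_left]
      refine le_inf ?_ ?_
      · refine inf_le_left.trans ?_
        exact sup_le_sup_right le_sup_left _
      · refine inf_le_right.trans ?_
        exact sup_le_sup_right le_sup_right _
  · intro b
    apply le_antisymm
    · refine iSup_le fun t => ?_
      rw [hφ.supc, inf_sup_left]
      have h1 : φ (T u t)ᶜ ≤ (w t)ᶜ := by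
        rw [← T_compl hu, ← hw.compl]
        exact h tᶜ
      have h2 : w t ⊓ φ (T u t)ᶜ = ⊥ := by
        apply le_bot_iff.1
        calc w t ⊓ φ (T u t)ᶜ ≤ w t ⊓ (w t)ᶜ := inf_le_inf_left _ h1
          _ = ⊥ := inf_compl_self _
      rw [h2, bot_sup_eq]
      exact inf_le_right
    · refine le_trans ?_ (le_iSup _ ⊤)
      rw [hw.toFil.top, top_inf_eq, hφ.supc]
      exact le_sup_right

lemma le_psi {φ u w : (S → B) → B} (hφ : Fil φ) (hw : Ult w) : φ ≤ psi φ u w := by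
  intro s
  refine le_trans ?_ (le_iSup _ ⊤)
  rw [hw.toFil.top, top_inf_eq]
  exact hφ.mono le_sup_right

lemma psi_T {φ u w : (S → B) → B} (hφ : Fil φ) (t : S → B) : w t ≤ psi φ u w (T u t) := by
  refine le_trans ?_ (le_iSup _ t)
  rw [compl_sup_eq_top, hφ.top, inf_top_eq]

lemma add_eq_of_psi_le {φ u w w' : (S → B) → B} (hφ : Fil φ) (hu : Ult u) (hw : Ult w)
    (hw' : Ult w') (h : psi φ u w ≤ w') : add w' u = w := by
  symm
  refine ult_eq hw.compl (add_ult hw' hu).compl fun t => ?_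
  exact (psi_T hφ t).trans (h _)

lemma lemmaL {φ u w : (S → B) → B} (hφ : Fil φ) (hu : Ult u) (hw : Ult w) (h : add φ u ≤ w) :
    ∃ w', Ult w' ∧ φ ≤ w' ∧ add w' u = w := by
  obtain ⟨w', hw', hle⟩ := exists_ultra (psi_fil hφ hu hw h)
  exact ⟨w', hw', (le_psi hφ hw).trans hle, add_eq_of_psi_le hφ hu hw hw' hle⟩

/-- **The idempotent.** -/
theorem exists_idem {φ₀ : (S → B) → B} (h0 : Fil φ₀) (hadd : φ₀ ≤ add φ₀ φ₀) :
    ∃ u, Ult u ∧ φ₀ ≤ u ∧ add u u = u := by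
  have hA0 : Additive φ₀ := fun w _ hle => hadd.trans fun t => h0.mono (T_le hle t)
  obtain ⟨φ, hφ0, hmax⟩ := zorn_le_nonempty₀ {ψ : (S → B) → B | Fil ψ ∧ Additive ψ}
    (fun c hcs hc y hy => ⟨fun t => ⨆ φ ∈ c, φ t,
      ⟨chain_sup c hc ⟨y, hy⟩ fun φ hφ => (hcs hφ).1, fun w hw hle t => by
        refine iSup₂_le fun φ hφ => ?_
        have h1 : φ ≤ w := fun t => (le_iSup₂ (f := fun φ (_ : φ ∈ c) => φ t) φ hφ).trans (hle t)
        exact ((hcs hφ).2 w hw h1 t).trans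
          (le_iSup₂ (f := fun φ (_ : φ ∈ c) => φ (T w t)) φ hφ)⟩,
      fun z hz t => le_iSup₂ (f := fun φ (_ : φ ∈ c) => φ t) z hz⟩) φ₀ ⟨h0, hA0⟩
  have hφ : Fil φ := hmax.1.1
  have hA : Additive φ := hmax.1.2
  obtain ⟨u, hu, hφu⟩ := exists_ultra hφ
  -- step 4
  have hadd4 : Additive (add φ u) := by
    intro w hw hle t
    obtain ⟨w', hw', hφw', hw'u⟩ := lemmaL hφ hu hw hle
    have hv : Ult (add u w') := add_ult hu hw'
    have hφv : φ ≤ add u w' := (hA w' hw' hφw').trans fun s => hφu _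
    have h1 := hA _ hv hφv (T u t)
    refine le_trans h1 (le_of_eq ?_)
    simp only [add]
    rw [T_add u w' (T u t), ← T_add w' u t, hw'u]
  have h4 : add φ u = φ := by
    have hle : φ ≤ add φ u := hA u hu hφu
    exact le_antisymm (hmax.2 ⟨add_fil hφ hu.toFil, hadd4⟩ hle) hle
  -- step 5
  have h5 : add φ u ≤ u := by rw [h4]; exact hφu
  have hψ : Fil (psi φ u u) := psi_fil hφ hu hu h5
  have hψA : Additive (psi φ u u) := by
    intro w hw hle s
    have hwu : add w u = u := add_eq_of_psi_le hφ hu hu hw hle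
    have hφw : φ ≤ w := (le_psi hφ hu).trans hle
    refine iSup_le fun t => ?_
    refine le_trans ?_ (le_iSup _ t)
    refine inf_le_inf_left _ ?_
    have h1 := hA w hw hφw ((T u t)ᶜ ⊔ s)
    refine h1.trans (le_of_eq ?_)
    simp only [add]
    rw [T_sup hw, T_compl hw, ← T_add w u t, hwu]
  have h6 : psi φ u u ≤ φ := hmax.2 ⟨hψ, hψA⟩ (le_psi hφ hu)
  refine ⟨u, hu, hφ0.trans hφu, ?_⟩
  symm
  refine ult_eq hu.compl (add_ult hu hu).compl fun t => ?_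
  exact (psi_T hφ t).trans ((h6 _).trans (hφu _))



/-- The statement of the piece ELL. -/
theorem ell_gen (B : Type) [CompleteBooleanAlgebra B] (φ : (ℕ+ → B) → B)
    (h1 : ∀ s t, φ (fun n => s n ⊓ t n) = φ s ⊓ φ t) (h2 : ∀ b, φ (fun _ => b) = b)
    (h3 : ∀ t, φ t ≤ φ fun n => φ fun m => t (m + n)) :
    ∃ u : (ℕ+ → B) → B, (∀ s t, u (fun n => s n ⊓ t n) = u s ⊓ u t) ∧
      (∀ b, u (fun _ => b) = b) ∧ (∀ t, u (fun n => (t n)ᶜ) = (u t)ᶜ) ∧
        (∀ t, u (fun n => u fun m => t (m + n)) = u t) ∧ ∀ t, φ t ≤ u t := by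
  obtain ⟨u, hu, hle, hid⟩ := exists_idem (φ₀ := φ) ⟨h1, h2⟩ h3
  exact ⟨u, hu.inf, hu.const, hu.compl, fun t => congrFun hid t, hle⟩

end Pool.Agent.R602.IU.EllGen
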