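import Pool.Agent.R602.IU.Defs

/-!
# Assembly
-/

set_option autoImplicit false
set_option linter.all false

namespace Pool.Agent.R602.IU

open Pool.Agent.W868 Pool.Agent.W868.PName Pool.Agent.R598.SY
open ZFSet (pair)

theorem ZZ_mono {X : I → ℕ → Bool} {E F : Finset I} {K L : ℕ} (h : E ⊆ F) (h' : K ≤ L) :
    ZZ X F L ⊆ ZZ X E K := fun n hn k hk =>
  ⟨h'.trans (hn k hk).1, fun i hi j hj hij => (hn k hk).2 i (h hi) j (h hj) hij⟩

theorem testBit_add {m n k : ℕ} {K : ℕ} (hn : ∀ k, Nat.testBit n k = true → k < K)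
    (hm : ∀ k, Nat.testBit m k = true → K ≤ k) (h : Nat.testBit (m + n) k = true) :
    Nat.testBit m k = true ∨ Nat.testBit n k = true := by
  have hn' : n < 2 ^ K := by
    refine Nat.lt_pow_two_of_testBit n fun i hi => ?_
    by_contra hc
    have := hn i (by simpa using hc)
    omega
  have hm' : 2 ^ K ∣ m := by
    obtain ⟨q, hq⟩ : ∃ q, m = 2 ^ K * q + m % 2 ^ K := ⟨m / 2 ^ K, (Nat.div_add_mod m _).symm⟩
    have h0 : m % 2 ^ K = 0 := by
      refine Nat.eq_of_testBit_eq fun i => ?_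
      rw [Nat.testBit_mod_two_pow, Nat.zero_testBit]
      by_cases hi : i < K
      · have : Nat.testBit m i = false := by
          by_contra hc
          have := hm i (by simpa using hc)
          omega
        simp [this]
      · simp [hi]
    exact Nat.dvd_of_mod_eq_zero h0
  obtain ⟨q, rfl⟩ := hm'
  rw [Nat.testBit_two_pow_mul_add q hn' k] at h
  by_cases hk : k < K
  · rw [if_pos hk] at h
    exact Or.inr h
  · rw [if_neg hk] at h
    left
    rw [Nat.testBit_two_pow_mul]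
    simp only [Bool.and_eq_true, decide_eq_true_eq]
    exact ⟨not_lt.1 hk, h⟩

theorem ZZ_shift {X : I → ℕ → Bool} {E : Finset I} {K : ℕ} {n : ℕ+} (h : n ∈ ZZ X E K) :
    ∃ K', ∀ m ∈ ZZ X E K', m + n ∈ ZZ X E K := by
  refine ⟨max K (Nat.size n), fun m hm k hk => ?_⟩
  rw [PNat.add_coe] at hk
  have h1 := testBit_add (K := max K (Nat.size n)) (fun k hk => ?_) (fun k hk => (hm k hk).1) hk
  · rcases h1 with h1 | h1
    · exact ⟨(le_max_left _ _).trans (hm k h1).1, (hm k h1).2⟩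
    · exact h k h1
  · refine lt_of_lt_of_le ?_ (le_max_right _ _)
    by_contra hc
    have h2 := Nat.testBit_eq_false_of_lt (lt_of_lt_of_le (Nat.lt_size_self (n : ℕ))
      (Nat.pow_le_pow_right two_pos (not_lt.1 hc)))
    rw [h2] at hk
    cases hk

theorem enc_injective : Function.Injective enc := by
  intro a b h
  ext n
  have h1 : ∀ c : Set ℕ+, nat (n : ℕ) ∈ enc c ↔ n ∈ c := by
    intro c
    rw [enc, ZFSet.mem_sep]
    constructor
    · rintro ⟨-, m, hm, hmn⟩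
      have := nat_injective hmn
      rwa [PNat.coe_injective this]
    · intro hn
      exact ⟨mem_omega_iff.2 ⟨_, rfl⟩, n, hn, rfl⟩
  rw [← h1 a, h, h1 b]

theorem fin_main (hF : S_UUF) (hZ : S_ZED) (hN : S_NUF) (hC : S_CLO) :
    ∃ M : Set ZFSet.{0}, M.Countable ∧ IsZF M ∧ (∃ U, Ultra M U ∧ Idem M U) ∧
      ∃ F, FilterIn M F ∧ Idem M F ∧ ¬ ∃ U, Ultra M U ∧ F ⊆ U := by
  obtain ⟨π, hcl, hU, hz, hn⟩ := (hF.and (hZ.and hN)).exists
  obtain ⟨hzM, X, -, -, hX, hne⟩ := hz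
  refine ⟨sys.Ms π, Ms_countable π, isZF hcl, hU, ?_⟩
  have g1 : ∀ z ∈ π.val zs, ∃ a : Set ℕ+, a.Nonempty ∧ z = enc a := by
    intro z hz
    obtain ⟨E, K, rfl⟩ := (hX z).1 hz
    exact ⟨_, hne E K, rfl⟩
  have g2 : ∀ a b, enc a ∈ π.val zs → enc b ∈ π.val zs → ∃ c, enc c ∈ π.val zs ∧ c ⊆ a ∩ b := by
    intro a b ha hb
    obtain ⟨E, K, hE⟩ := (hX _).1 ha
    obtain ⟨E', K', hE'⟩ := (hX _).1 hb
    obtain rfl := enc_injective hE
    obtain rfl := enc_injective hE'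
    exact ⟨_, (hX _).2 ⟨E ∪ E', max K K', rfl⟩, fun n hn =>
      ⟨ZZ_mono Finset.subset_union_left (le_max_left _ _) hn,
        ZZ_mono Finset.subset_union_right (le_max_right _ _) hn⟩⟩
  have g3 : ∀ a, enc a ∈ π.val zs → ∀ n ∈ a, ∃ b, enc b ∈ π.val zs ∧ ∀ m ∈ b, m + n ∈ a := by
    intro a ha n hn'
    obtain ⟨E, K, hE⟩ := (hX _).1 ha
    obtain rfl := enc_injective hE
    obtain ⟨K', hK'⟩ := ZZ_shift hn'
    exact ⟨_, (hX _).2 ⟨E, K', rfl⟩, hK'⟩
  obtain ⟨F, h1, h2, h3⟩ := hC _ (isZF hcl) (π.val zs) hzM ⟨_, (hX _).2 ⟨∅, 0, rfl⟩⟩ g1 g2 g3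
  exact ⟨F, h1, h2, fun ⟨U, hU', hFU⟩ => hn ⟨U, hU', fun z hz => hFU (h3 hz)⟩⟩

end Pool.Agent.R602.IU
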