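import Pool.Agent.R602.IU.Defs
set_option autoImplicit false
set_option linter.all false
namespace Pool.Agent.R602.IU.Neu0


/-- swap k and k+N for k<N, k not in K -/
def sw (N : ℕ) (K : ℕ → Bool) (k : ℕ) : ℕ :=
  if k < N then (if K k then k else k + N)
  else if k < 2 * N then (if K (k - N) then k else k - N) else k

theorem sw_sw (N : ℕ) (K : ℕ → Bool) (k : ℕ) : sw N K (sw N K k) = k := by
  by_cases h1 : k < N
  · by_cases h2 : K k = true
    · have e : sw N K k = k := by simp [sw, h1, h2]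
      rw [e, e]
    · have e : sw N K k = k + N := by simp [sw, h1, h2]
      rw [e]
      have a : ¬ (k + N < N) := by omega
      have b : k + N < 2 * N := by omega
      have c : k + N - N = k := by omega
      simp only [sw, a, b, if_true, if_false, c, h2]
      simp
  · by_cases h3 : k < 2 * N
    · by_cases h2 : K (k - N) = true
      · have e : sw N K k = k := by simp [sw, h1, h2, h3]
        rw [e, e]
      · have e : sw N K k = k - N := by simp [sw, h1, h2, h3]
        rw [e]
        have a : k - N < N := by omega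
        simp only [sw, a, if_true, h2]
        simp
        omega
    · have e : sw N K k = k := by simp [sw, h1, h3]
      rw [e, e]

theorem sw_fix (N : ℕ) (K : ℕ → Bool) (k : ℕ) (h : k < N) (hK : K k = true) : sw N K k = k := by
  simp [sw, h, hK]

theorem sw_ge (N : ℕ) (K : ℕ → Bool) (k : ℕ) (h : k < N) (hK : K k = false) : N ≤ sw N K k := by
  simp [sw, h, hK]

/-- the permutation -/
def gf (N : ℕ) (K : ℕ → Bool → ℕ → Bool) (ε : ℕ → Bool) (i : I) : I :=
  (i.1, (ε i.1 ^^ i.2.1), sw N (K i.1 i.2.1) i.2.2)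

theorem gf_gf (N : ℕ) (K : ℕ → Bool → ℕ → Bool) (ε : ℕ → Bool)
    (hK : ∀ n b k, ε n = true → K n b k = false) (i : I) : gf N K ε (gf N K ε i) = i := by
  obtain ⟨n, b, k⟩ := i
  have hb : (ε n ^^ (ε n ^^ b)) = b := by cases ε n <;> cases b <;> rfl
  have hKK : K n (ε n ^^ b) = K n b := by
    by_cases he : ε n = true
    · funext k; rw [hK n _ k he, hK n _ k he]
    · have : ε n = false := by simpa using he
      rw [this]; simp
  simp only [gf, hb, hKK, sw_sw]

def gp (N : ℕ) (K : ℕ → Bool → ℕ → Bool) (ε : ℕ → Bool)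
    (hK : ∀ n b k, ε n = true → K n b k = false) : Equiv.Perm I where
  toFun := gf N K ε
  invFun := gf N K ε
  left_inv := gf_gf N K ε hK
  right_inv := gf_gf N K ε hK

theorem exN (E₁ E₂ : Finset I) : ∃ N : ℕ, (∀ i ∈ E₁, i.2.2 < N) ∧ ∀ i ∈ E₂, i.2.2 < N := by
  classical
  refine ⟨(E₁ ∪ E₂).sup (fun i => i.2.2) + 1, ?_, ?_⟩
  · intro i hi
    have := Finset.le_sup (f := fun i : I => i.2.2) (Finset.mem_union_left E₂ hi)
    exact Nat.lt_succ_of_le this
  · intro i hi
    have := Finset.le_sup (f := fun i : I => i.2.2) (Finset.mem_union_right E₁ hi)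
    exact Nat.lt_succ_of_le this

theorem core (E₀ E₁ E₂ : Finset I) (ε : ℕ → Bool) (h1 : E₀ ⊆ E₁) (h2 : E₀ ⊆ E₂)
    (he : ∀ i ∈ E₀, ε i.1 = false) : ∃ g : Equiv.Perm I, (∀ i ∈ E₀, g i = i) ∧
      E₁ ∩ E₂.map g.toEmbedding = E₀ ∧
      (∀ i, (g i).1 = i.1 ∧ (g i).2.1 = (ε i.1 ^^ i.2.1)) ∧ (∀ i, g (g i) = i) := by
  classical
  obtain ⟨N, hN1, hN2⟩ := exN E₁ E₂
  let K : ℕ → Bool → ℕ → Bool := fun n b k => decide ((n, b, k) ∈ E₀)
  have hK : ∀ n b k, ε n = true → K n b k = false := by
    intro n b k hn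
    by_contra hc
    have : (n, b, k) ∈ E₀ := by simpa [K] using hc
    have := he _ this
    simp only at this
    rw [hn] at this
    exact absurd this (by simp)
  have hfix : ∀ i ∈ E₀, gp N K ε hK i = i := by
    rintro ⟨n, b, k⟩ hi
    have e1 := he _ hi
    simp only at e1
    have hk : k < N := hN1 _ (h1 hi)
    change gf N K ε (n, b, k) = (n, b, k)
    have hKK : K n b k = true := by simpa [K] using hi
    simp only [gf, e1, sw_fix N _ k hk hKK]
    simp
  refine ⟨gp N K ε hK, hfix, ?_, ?_, gf_gf N K ε hK⟩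
  · ext i
    simp only [Finset.mem_inter, Finset.mem_map, Equiv.coe_toEmbedding]
    constructor
    · rintro ⟨hi1, j, hj, rfl⟩
      by_cases hj0 : j ∈ E₀
      · rw [hfix j hj0]; exact hj0
      · exfalso
        obtain ⟨n, b, k⟩ := j
        have hk : k < N := hN2 _ hj
        have hKK : K n b k = false := by simpa [K] using hj0
        have h3 := hN1 _ hi1
        change (sw N (K n b) k) < N at h3
        have := sw_ge N (K n b) k hk hKK
        omega
    · intro hi
      exact ⟨h1 hi, i, h2 hi, hfix i hi⟩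
  · intro i
    exact ⟨rfl, rfl⟩

end Pool.Agent.R602.IU.Neu0

namespace Pool.Agent.R602.IU

theorem neu_main : S_NEU := by
  intro E₀ E₁ E₂ ε h1 h2 he
  obtain ⟨g, hf, hint, hg, hgg⟩ := Neu0.core E₀ E₁ E₂ ε h1 h2 he
  exact ⟨⟨g, ⟨ε, hg⟩⟩, hf, hint, hg⟩

end Pool.Agent.R602.IU
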