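import Pool.Agent.R602.IU.Defs

/-!
# No ultrafilter contains the sets `Z E K`
-/

set_option autoImplicit false
set_option linter.all false

namespace Pool.Agent.R602.IU

open Pool.Agent.W868 Pool.Agent.W868.PName Pool.Agent.R598.SY
open ZFSet (pair)

namespace Nuf

theorem exists_bt (n : ℕ+) : ∃ k, Nat.testBit (n : ℕ) k = true :=
  Nat.exists_testBit_of_ne_zero n.ne_zero

/-- A digit of the number `n`. -/
noncomputable def bt (n : ℕ+) : ℕ := (exists_bt n).choose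

theorem bt_spec (n : ℕ+) : Nat.testBit (n : ℕ) (bt n) = true := (exists_bt n).choose_spec

/-- The name for the set of the `n` such that the value of the real `i` at `bt n` is `b`. -/
noncomputable def A (i : I) (b : Bool) : PName P :=
  PName.mk {a : ℕ+ × P // a.2.p.1 i (bt a.1) = some b} (fun a => check (nat (a.1.1 : ℕ)))
    (fun a => a.1.2)

theorem el_A {i : I} {b : Bool} {z : PName P} {c : P} : El (A i b) z c ↔
    ∃ n : ℕ+, c.p.1 i (bt n) = some b ∧ z = check (nat (n : ℕ)) := by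
  unfold A
  rw [el_mk]
  constructor
  · rintro ⟨⟨⟨n, p⟩, h⟩, rfl, rfl⟩
    exact ⟨n, h, rfl⟩
  · rintro ⟨n, h, rfl⟩
    exact ⟨⟨⟨n, c⟩, h⟩, rfl, rfl⟩

theorem act_ck (g : sys.G) (a : ZFSet.{0}) : act (sys.ac g) (check a) = check a :=
  act_check (sys.top g) _

theorem mv_p (g : G) (x : P) (i : I) : (mv g x).p.1 (g.1 i) = x.p.1 i := by
  change x.p.1 (g.1⁻¹ (g.1 i)) = x.p.1 i
  exact congrArg x.p.1 (g.1.symm_apply_apply i)

theorem act_A (g : G) (i : I) (b : Bool) (p : P) :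
    Feq (act (sys.ac g) (A i b)) (A (g.1 i) b) p := by
  refine feq_of_el fun z c => ?_
  rw [el_act, el_A]
  constructor
  · rintro ⟨z', c', h, rfl, rfl⟩
    obtain ⟨n, h1, rfl⟩ := el_A.1 h
    refine ⟨n, ?_, act_ck g _⟩
    rw [← h1]
    exact congrFun (mv_p g c' i) _
  · rintro ⟨n, h1, rfl⟩
    refine ⟨check (nat (n : ℕ)), mv g⁻¹ c, el_A.2 ⟨n, ?_, rfl⟩, (act_ck g _).symm, ?_⟩
    · have h2 := congrFun (mv_p g (mv g⁻¹ c) i) (bt n)
      rw [← mv_mul, mul_inv_cancel, mv_one] at h2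
      rw [← h2]
      exact h1
    · change c = mv g (mv g⁻¹ c)
      rw [← mv_mul, mul_inv_cancel, mv_one]

theorem hs_A (i : I) (b : Bool) : sys.HS (A i b) := by
  refine sys.hs_iff.2 ⟨⟨fix {i}, ⟨{i}, rfl⟩, fun g hg p => ?_⟩, ?_⟩
  · have h1 := act_A g i b p
    have h2 : (g : G).1 i = i := hg i (Finset.mem_singleton_self i)
    rwa [h2] at h1
  · intro z c h
    obtain ⟨n, -, rfl⟩ := el_A.1 h
    exact sys.hs_check _

/-- The conditions that force that two sets with different values are in the ultrafilter. -/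
def Bs (y : PName P) : Set P := {r | ∃ i j : I, ∃ b : Bool, i.1 = j.1 ∧ i.2.1 ≠ j.2.1 ∧
  Fmem (A i b) y r ∧ Fmem (A j b) y r}

/-- The rules. -/
noncomputable def R : Set (Rule P) :=
  (Set.range fun t : I × Bool => rl (fun _ => A t.1 t.2)) ∪
  ((Set.range fun E : Finset I => rl (fun _ => Sys.nm P {r | E ⊆ r.E})) ∪
  {rl (fun y => Sys.nm P (Bs y))})

theorem R_countable : R.Countable :=
  (Set.countable_range _).union ((Set.countable_range _).union (Set.countable_singleton _))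

section

variable {π : Pkg P} (hR : Clo R π)

include hR

theorem A_N (i : I) (b : Bool) : A i b ∈ π.N :=
  hR.rl (f := fun _ => A i b) (Or.inl ⟨(i, b), rfl⟩) (emp_N π)

theorem E_N (E : Finset I) : Sys.nm P {r : P | E ⊆ r.E} ∈ π.N :=
  hR.rl (f := fun _ => Sys.nm P {r : P | E ⊆ r.E}) (Or.inr (Or.inl ⟨E, rfl⟩)) (emp_N π)

theorem Bs_N {y : PName P} (hy : y ∈ π.N) : Sys.nm P (Bs y) ∈ π.N :=
  hR.rl (f := fun y => Sys.nm P (Bs y)) (Or.inr (Or.inr rfl)) hy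

end

theorem g_some {π : Pkg P} {m n : ℕ} {i : I} {k : ℕ} {b c : Bool}
    (h1 : (π.g n).p.1 i k = some b) (h2 : (π.g m).p.1 i k = some c) : b = c := by
  have h3 := (π.g_le_left n m).2.1 i k b h1
  have h4 := (π.g_le_right n m).2.1 i k c h2
  rw [h3] at h4
  injection h4

theorem enc_eq {z : ZFSet.{0}} {a : Set ℕ+} (h : ∀ w, w ∈ z ↔ ∃ n ∈ a, w = nat (n : ℕ)) :
    z = enc a := by
  ext w
  rw [h]
  unfold enc
  rw [ZFSet.mem_sep]
  constructor
  · rintro ⟨n, hn, rfl⟩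
    exact ⟨mem_omega_iff.2 ⟨n, rfl⟩, n, hn, rfl⟩
  · rintro ⟨-, h⟩
    exact h

theorem val_A {π : Pkg P} (X : I → ℕ → Bool) (hX : ∀ i k, ∃ m, (π.g m).p.1 i k = some (X i k))
    (i : I) (b : Bool) : π.val (A i b) = enc {n | X i (bt n) = b} := by
  refine enc_eq fun w => ?_
  rw [π.mem_val]
  constructor
  · rintro ⟨y, -, c, h, ⟨m, hm⟩, rfl⟩
    obtain ⟨n, h1, rfl⟩ := el_A.1 h
    obtain ⟨k, hk⟩ := hX i (bt n)
    refine ⟨n, ?_, π.hat_nat n⟩
    exact g_some hk (hm.2.1 i (bt n) b h1)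
  · rintro ⟨n, hn, rfl⟩
    obtain ⟨k, hk⟩ := hX i (bt n)
    refine ⟨_, π.nat_Z n, π.g k, el_A.2 ⟨n, ?_, rfl⟩, ⟨k, le_rfl⟩, π.hat_nat n⟩
    rw [hk]
    exact congrArg some hn

end Nuf

open Nuf in
theorem nuf_main (hM : S_CMP) (hN : S_NEU) (hZ : S_ZED) : S_NUF := by
  refine hZ.of R R_countable ?_
  rintro π hR hc ⟨-, X, hX, -, hzs, -⟩ ⟨D, hD, hsub⟩
  -- the name for the ultrafilter
  obtain ⟨Dd, ⟨hDN, hDS⟩, hDe⟩ := hD.1.mem
  obtain ⟨K, ⟨E₀, rfl⟩, hfix⟩ := hDS.sym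
  have hAM : ∀ i b, enc {n | X i (bt n) = b} ∈ sys.Ms π := fun i b =>
    ⟨_, ⟨A_N hR i b, hs_A i b⟩, val_A X hX i b⟩
  -- the generic filter does not meet the set of bad conditions
  have hbad : ∀ k, π.g k ∉ Bs Dd := by
    rintro k ⟨i, j, b, h1, h2, h3, h4⟩
    have h5 : enc {n | X i (bt n) = b} ∈ D := by
      rw [← val_A X hX i b, ← hDe]
      exact (π.val_mem_iff (A_N hR i b) hDN).2 ⟨k, h3⟩
    have h6 : enc {n | X j (bt n) = b} ∈ D := by
      rw [← val_A X hX j b, ← hDe]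
      exact (π.val_mem_iff (A_N hR j b) hDN).2 ⟨k, h4⟩
    have h7 : enc (ZZ X {i, j} 0) ∈ D := hsub ((hzs _).2 ⟨{i, j}, 0, rfl⟩)
    have h8 := hD.1.inter _ _ (hD.1.inter _ _ h5 h6) h7
    refine hD.1.ne ?_
    have h9 : ({n | X i (bt n) = b} ∩ {n | X j (bt n) = b}) ∩ ZZ X {i, j} 0 = (∅ : Set ℕ+) := by
      refine Set.eq_empty_iff_forall_notMem.2 ?_
      rintro n ⟨⟨h10, h11⟩, h12⟩
      have h13 := (h12 (bt n) (bt_spec n)).2 i (by simp) j (by simp) h1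
      rw [Set.mem_setOf_eq] at h10 h11
      rw [h10, h11, Bool.xor_self] at h13
      exact h2 (by
        revert h13
        cases i.2.1 <;> cases j.2.1 <;> simp)
    rwa [h9] at h8
  obtain ⟨k₁, hk₁ | hk₁⟩ := gen_nm (A := Bs Dd) (Bs_N hR hDN) (by
    rintro r ⟨i, j, b, h1, h2, h3, h4⟩ s hs
    exact ⟨i, j, b, h1, h2, h3.mono hs, h4.mono hs⟩)
  · exact hbad _ hk₁
  -- a condition with enough indices
  set E₁ : Finset I := insert (0, false, 0) E₀ with hE₁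
  obtain ⟨k₂, hk₂ | hk₂⟩ := gen_nm (A := {r : P | E₁ ⊆ r.E}) (E_N hR E₁) (by
    intro r hr s hs
    exact hr.trans hs.1)
  swap
  · obtain ⟨y, hy, hyE, -⟩ := hM.1 (π.g k₂) ((π.g k₂).E ∪ E₁) Finset.subset_union_left
    refine hk₂ y hy ?_
    change E₁ ⊆ y.E
    rw [hyE]
    exact Finset.subset_union_right
  set x₀ : P := π.g (max k₁ k₂) with hx₀
  have hx₀1 : x₀ ≤ π.g k₁ := π.g_le_left _ _
  have hx₀2 : E₁ ⊆ x₀.E := hk₂.trans (π.g_le_right _ _).1
  have hne : x₀.E.Nonempty := ⟨_, hx₀2 (Finset.mem_insert_self _ _)⟩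
  -- the component
  obtain ⟨N, hN'⟩ : ∃ N : ℕ, ∀ i ∈ x₀.E, i.1 ≠ N := by
    obtain ⟨N, hN'⟩ := (x₀.E.image fun i => i.1).exists_nat_subset_range
    refine ⟨N, fun i hi h => ?_⟩
    have h1 := hN' (Finset.mem_image_of_mem _ hi)
    rw [h] at h1
    simp at h1
  set i : I := (N, false, 0) with hi
  obtain ⟨b, hb⟩ : ∃ b, enc {n | X i (bt n) = b} ∈ D := by
    rcases hD.2 _ (hAM i true) with h | h
    · exact ⟨true, h⟩
    · refine ⟨false, ?_⟩
      have h1 : ({n | X i (bt n) = true}ᶜ : Set ℕ+) = {n | X i (bt n) = false} := by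
        ext n
        simp
      rwa [h1] at h
  rw [← val_A X hX i b, ← hDe] at hb
  obtain ⟨k₃, hF⟩ := (π.val_mem_iff (A_N hR i b) hDN).1 hb
  set x : P := π.g (max (max k₁ k₂) k₃) with hx
  have hxx₀ : x ≤ x₀ := π.g_le_left _ _
  have hFx : Fmem (A i b) Dd x := hF.mono (π.g_le_right _ _)
  -- the automorphism
  obtain ⟨g, hgf, hgE, hg⟩ := hN x₀.E x.E x.E (fun n => decide (n = N)) hxx₀.1 hxx₀.1 (by
    intro j hj
    exact decide_eq_false (hN' j hj))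
  obtain ⟨y, hy1, hy2⟩ := hM.2 x₀ x x g hne hxx₀ hxx₀ hgf hgE ⟨_, le_rfl, le_rfl⟩
  refine hk₁ y (hy1.trans (hxx₀.trans hx₀1)) ⟨i, g.1 i, b, (hg i).1.symm, ?_, hFx.mono hy1, ?_⟩
  · rw [(hg i).2]
    simp [hi]
  · have h1 := fmem_act' (e := sys.ac g) hFx
    have h2 : sys.ac g x = mv g x := rfl
    rw [h2] at h1
    have h3 : Feq (act (sys.ac g) Dd) Dd (mv g x) := hfix g (fun j hj => hgf j
      (hx₀2 (Finset.mem_insert_of_mem hj))) (mv g x)
    exact (fmem_congr (act_A g i b _) h3 h1).mono hy2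

end Pool.Agent.R602.IU
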