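import Pool.Agent.R602.IU.Defs

set_option autoImplicit false
set_option linter.all false

namespace Pool.Agent.R602.IU

theorem OMC_low {p q : C} {b : Om} (h : q ≤ p) (hb : In p b) : In q b :=
  (b : LowerSet C).lower h hb

theorem OMC_inf {p : C} {a b : Om} : In p (a ⊓ b) ↔ In p a ∧ In p b := by
  unfold In
  rw [Heyting.Regular.coe_inf]
  exact LowerSet.mem_inf_iff

theorem OMC_lcompl {p : C} {s : LowerSet C} : p ∈ sᶜ ↔ ∀ q ≤ p, q ∉ s := by
  constructor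
  · intro h q hq hs
    have h1 : q ∈ sᶜ ⊓ s := LowerSet.mem_inf_iff.2 ⟨sᶜ.lower hq h, hs⟩
    rw [inf_comm, inf_compl_self] at h1
    exact h1
  · intro h
    have h1 : LowerSet.Iic p ≤ sᶜ := by
      rw [le_compl_iff_disjoint_right, disjoint_iff]
      refine SetLike.ext fun q => ?_
      rw [LowerSet.mem_inf_iff]
      constructor
      · rintro ⟨h2, h3⟩
        exact absurd h3 (h q h2)
      · intro h2
        exact absurd h2 (by simp)
    exact h1 (LowerSet.mem_Iic_iff.2 le_rfl)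

theorem OMC_compl {p : C} {a : Om} : In p aᶜ ↔ ∀ q ≤ p, ¬ In q a := by
  unfold In
  rw [Heyting.Regular.coe_compl]
  exact OMC_lcompl

theorem OMC_bot {p : C} : ¬ In p (⊥ : Om) := by
  unfold In
  rw [Heyting.Regular.coe_bot]
  simp

theorem OMC_top {p : C} : In p (⊤ : Om) := by
  unfold In
  rw [Heyting.Regular.coe_top]
  simp

theorem OMC_dbot (E : Finset I) : Dep E (⊥ : Om) := fun p =>
  ⟨fun h => absurd h OMC_bot, fun h => absurd h OMC_bot⟩

theorem OMC_dtop (E : Finset I) : Dep E (⊤ : Om) := fun p =>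
  ⟨fun _ => OMC_top, fun _ => OMC_top⟩

theorem OMC_dinf {E : Finset I} {a b : Om} (ha : Dep E a) (hb : Dep E b) : Dep E (a ⊓ b) := by
  intro p
  rw [OMC_inf, OMC_inf, ← ha p, ← hb p]

theorem OMC_cut_le (E : Finset I) (p : C) : p ≤ cut E p := by
  intro i k b h
  change (if i ∈ E then p.1 i k else none) = some b at h
  split_ifs at h
  exact h

/-- `q` on `E`, `p` outside -/
noncomputable def OMC_mix (E : Finset I) (q p : C) : C :=
  ⟨fun i k => if i ∈ E then q.1 i k else p.1 i k, (q.2.union p.2).subset (by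
    intro x hx
    simp only [Set.mem_setOf_eq, Set.mem_union] at hx ⊢
    by_cases h : x.1 ∈ E
    · rw [if_pos h] at hx; exact Or.inl hx
    · rw [if_neg h] at hx; exact Or.inr hx)⟩

theorem OMC_mix_cut (E : Finset I) (q p : C) : cut E (OMC_mix E q p) = cut E q := by
  refine Subtype.ext (funext fun i => funext fun k => ?_)
  change (if i ∈ E then (if i ∈ E then q.1 i k else p.1 i k) else none) =
    if i ∈ E then q.1 i k else none
  by_cases h : i ∈ E
  · rw [if_pos h, if_pos h, if_pos h]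
  · rw [if_neg h, if_neg h]

theorem OMC_mix_le {E : Finset I} {q p : C} (h : q ≤ cut E p) : OMC_mix E q p ≤ p := by
  intro i k b hb
  change (if i ∈ E then q.1 i k else p.1 i k) = some b
  by_cases hi : i ∈ E
  · rw [if_pos hi]
    apply h
    change (if i ∈ E then p.1 i k else none) = some b
    rw [if_pos hi]
    exact hb
  · rw [if_neg hi]
    exact hb

theorem OMC_dcompl {E : Finset I} {a : Om} (ha : Dep E a) : Dep E aᶜ := by
  intro p
  rw [OMC_compl, OMC_compl]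
  constructor
  · intro h q hq hqa
    refine h (OMC_mix E q p) (OMC_mix_le hq) ?_
    rw [ha, OMC_mix_cut, ← ha]
    exact hqa
  · intro h q hq
    exact h q (hq.trans (OMC_cut_le E p))

/-- the infimum of a set of truth values -/
noncomputable def OMC_sInf (S : Set Om) : Om := ⟨sInf ((fun b : Om => (b : LowerSet C)) '' S), by
  have h : ((sInf ((fun b : Om => (b : LowerSet C)) '' S))ᶜ)ᶜ ≤
      sInf ((fun b : Om => (b : LowerSet C)) '' S) := by
    refine le_sInf ?_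
    rintro _ ⟨b, hb, rfl⟩
    have h1 : sInf ((fun b : Om => (b : LowerSet C)) '' S) ≤ (b : LowerSet C) :=
      sInf_le ⟨b, hb, rfl⟩
    have h2 := compl_le_compl (compl_le_compl h1)
    have h3 : ((b : LowerSet C)ᶜ)ᶜ = (b : LowerSet C) := b.2
    rw [h3] at h2
    exact h2
  exact le_antisymm h le_compl_compl⟩

theorem OMC_mem_sInf {S : Set Om} {p : C} : In p (OMC_sInf S) ↔ ∀ b ∈ S, In p b := by
  change p ∈ sInf ((fun b : Om => (b : LowerSet C)) '' S) ↔ _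
  rw [LowerSet.mem_sInf_iff]
  constructor
  · intro h b hb
    exact h _ ⟨b, hb, rfl⟩
  · rintro h _ ⟨b, hb, rfl⟩
    exact h b hb

theorem OMC_le {a b : Om} : a ≤ b ↔ ∀ p, In p a → In p b := Iff.rfl

theorem OMC_dsInf {E : Finset I} {S : Set Om} (h : ∀ b ∈ S, Dep E b) : Dep E (OMC_sInf S) := by
  intro p
  rw [OMC_mem_sInf, OMC_mem_sInf]
  exact ⟨fun h1 b hb => (h b hb p).1 (h1 b hb), fun h1 b hb => (h b hb p).2 (h1 b hb)⟩

theorem OMC_dsup {E : Finset I} {a b : Om} (ha : Dep E a) (hb : Dep E b) : Dep E (a ⊔ b) := by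
  have h : a ⊔ b = (aᶜ ⊓ bᶜ)ᶜ := by
    have h1 : (aᶜ ⊓ bᶜ)ᶜ = (aᶜ)ᶜ ⊔ (bᶜ)ᶜ := compl_inf
    rw [compl_compl, compl_compl] at h1
    exact h1.symm
  rw [h]
  exact OMC_dcompl (OMC_dinf (OMC_dcompl ha) (OMC_dcompl hb))

@[implicit_reducible] noncomputable def OMC_inst (E : Finset I) : CompleteBooleanAlgebra (BE E) :=
  { (inferInstance : PartialOrder (BE E)) with
    sup := fun a b => ⟨a.1 ⊔ b.1, OMC_dsup a.2 b.2⟩
    le_sup_left := fun a b => (le_sup_left : a.1 ≤ a.1 ⊔ b.1)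
    le_sup_right := fun a b => (le_sup_right : b.1 ≤ a.1 ⊔ b.1)
    sup_le := fun a b c h1 h2 => (sup_le h1 h2 : a.1 ⊔ b.1 ≤ c.1)
    inf := fun a b => ⟨a.1 ⊓ b.1, OMC_dinf a.2 b.2⟩
    inf_le_left := fun a b => (inf_le_left : a.1 ⊓ b.1 ≤ a.1)
    inf_le_right := fun a b => (inf_le_right : a.1 ⊓ b.1 ≤ b.1)
    le_inf := fun a b c h1 h2 => (le_inf h1 h2 : a.1 ≤ b.1 ⊓ c.1)
    sInf := fun S => ⟨OMC_sInf (Subtype.val '' S), OMC_dsInf (by
      rintro _ ⟨b, _, rfl⟩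
      exact b.2)⟩
    isGLB_sInf := by
      intro S
      constructor
      · intro b hb
        change OMC_sInf (Subtype.val '' S) ≤ b.1
        rw [OMC_le]
        intro p hp
        exact OMC_mem_sInf.1 hp b.1 ⟨b, hb, rfl⟩
      · intro b hb
        change b.1 ≤ OMC_sInf (Subtype.val '' S)
        rw [OMC_le]
        intro p hp
        rw [OMC_mem_sInf]
        rintro _ ⟨c, hc, rfl⟩
        exact OMC_le.1 (hb hc : b.1 ≤ c.1) p hp
    sSup := fun S => ⟨(OMC_sInf ((fun b : BE E => (b.1)ᶜ) '' S))ᶜ, OMC_dcompl (OMC_dsInf (by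
      rintro _ ⟨b, _, rfl⟩
      exact OMC_dcompl b.2))⟩
    isLUB_sSup := by
      intro S
      constructor
      · intro b hb
        change b.1 ≤ (OMC_sInf ((fun b : BE E => (b.1)ᶜ) '' S))ᶜ
        have : OMC_sInf ((fun b : BE E => (b.1)ᶜ) '' S) ≤ (b.1)ᶜ := by
          rw [OMC_le]
          intro p hp
          exact OMC_mem_sInf.1 hp _ ⟨b, hb, rfl⟩
        exact le_compl_comm.1 this
      · intro b hb
        change (OMC_sInf ((fun b : BE E => (b.1)ᶜ) '' S))ᶜ ≤ b.1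
        have : (b.1)ᶜ ≤ OMC_sInf ((fun b : BE E => (b.1)ᶜ) '' S) := by
          rw [OMC_le]
          intro p hp
          rw [OMC_mem_sInf]
          rintro _ ⟨c, hc, rfl⟩
          exact OMC_le.1 (compl_le_compl (hb hc : c.1 ≤ b.1)) p hp
        exact compl_le_of_compl_le this
    top := ⟨⊤, OMC_dtop E⟩
    le_top := fun a => (le_top : a.1 ≤ ⊤)
    bot := ⟨⊥, OMC_dbot E⟩
    bot_le := fun a => (bot_le : ⊥ ≤ a.1)
    compl := fun a => ⟨(a.1)ᶜ, OMC_dcompl a.2⟩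
    le_sup_inf := fun x y z => (le_sup_inf : (x.1 ⊔ y.1) ⊓ (x.1 ⊔ z.1) ≤ x.1 ⊔ y.1 ⊓ z.1)
    inf_compl_le_bot := fun x => (le_of_eq (inf_compl_self x.1) : x.1 ⊓ (x.1)ᶜ ≤ ⊥)
    top_le_sup_compl := fun x => (le_of_eq sup_compl_eq_top.symm : (⊤ : Om) ≤ x.1 ⊔ (x.1)ᶜ)
    sdiff := fun x y => ⟨x.1 ⊓ (y.1)ᶜ, OMC_dinf x.2 (OMC_dcompl y.2)⟩
    himp := fun x y => ⟨y.1 ⊔ (x.1)ᶜ, OMC_dsup y.2 (OMC_dcompl x.2)⟩
    sdiff_eq := fun _ _ => rfl
    himp_eq := fun _ _ => rfl }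

theorem OMC_all : ∀ E : Finset I, Dep E ⊥ ∧ Dep E ⊤ ∧ (∀ a b, Dep E a → Dep E b → Dep E (a ⊓ b)) ∧
  (∀ a, Dep E a → Dep E aᶜ) ∧ ∃ inst : CompleteBooleanAlgebra (BE E),
    (∀ a b : BE E, inst.le a b ↔ a.1 ≤ b.1) ∧ (∀ a b : BE E, (inst.inf a b).1 = a.1 ⊓ b.1) ∧
      ∀ a : BE E, (inst.compl a).1 = (a.1)ᶜ := fun E =>
  ⟨OMC_dbot E, OMC_dtop E, fun _ _ => OMC_dinf, fun _ => OMC_dcompl, OMC_inst E,
    fun _ _ => Iff.rfl, fun _ _ => rfl, fun _ => rfl⟩

theorem omc_main : S_OMC := OMC_all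

end Pool.Agent.R602.IU
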