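import Pool.Agent.R602.IU.Defs
import Pool.Agent.W868.Ground

/-!
# Piece REA: the sets of numbers in the model
-/

set_option autoImplicit false
set_option linter.all false

namespace Pool.Agent.R602.IU

open Pool.Agent.W868 Pool.Agent.W868.PName Pool.Agent.R598.SY
open ZFSet (pair)

namespace Rea

theorem mem_compl {a : LowerSet C} {p : C} : p ∈ aᶜ ↔ ∀ q ≤ p, q ∉ a := by
  rw [← LowerSet.Iic_le, le_compl_iff_disjoint_right, disjoint_iff_inf_le]
  constructor
  · intro h q hq hqa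
    have h1 : q ∈ (LowerSet.Iic p ⊓ a : LowerSet C) := ⟨hq, hqa⟩
    exact absurd (h h1) (by simp)
  · intro h q hq
    exact absurd hq.2 (h q hq.1)

/-- The regularization of a lower set. -/
def rg (A : Set C) (hA : IsLowerSet A) : Om := Heyting.Regular.toRegular ⟨A, hA⟩

theorem in_rg {A : Set C} {hA : IsLowerSet A} {p : C} :
    In p (rg A hA) ↔ ∀ q ≤ p, ∃ r ≤ q, r ∈ A := by
  change p ∈ ((⟨A, hA⟩ : LowerSet C)ᶜᶜ) ↔ _
  rw [mem_compl]
  refine forall₂_congr fun q hq => ?_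
  rw [mem_compl]
  push Not
  rfl

theorem cut_le {E : Finset I} {p : C} : p ≤ cut E p := by
  intro i k b h
  change (if i ∈ E then p.1 i k else none) = some b at h
  by_cases hi : i ∈ E
  · rwa [if_pos hi] at h
  · rw [if_neg hi] at h
    cases h

theorem cut_mono {E : Finset I} {p q : C} (h : q ≤ p) : cut E q ≤ cut E p := by
  intro i k b hb
  change (if i ∈ E then p.1 i k else none) = some b at hb
  change (if i ∈ E then q.1 i k else none) = some b
  by_cases hi : i ∈ E
  · rw [if_pos hi] at hb ⊢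
    exact h i k b hb
  · rw [if_neg hi] at hb
    cases hb

/-- `r` on `E`, and `p` elsewhere. -/
def mx (E : Finset I) (r p : C) : C := ⟨fun i k => if i ∈ E then r.1 i k else p.1 i k,
  (r.2.union p.2).subset (by
    intro x hx
    simp only [Set.mem_setOf_eq] at hx
    by_cases h : x.1 ∈ E
    · rw [if_pos h] at hx
      exact Or.inl hx
    · rw [if_neg h] at hx
      exact Or.inr hx)⟩

theorem cut_mx (E : Finset I) (r p : C) : cut E (mx E r p) = cut E r := by
  refine Subtype.ext (funext fun i => funext fun k => ?_)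
  change (if i ∈ E then (if i ∈ E then r.1 i k else p.1 i k) else none) =
    if i ∈ E then r.1 i k else none
  by_cases hi : i ∈ E
  · simp only [if_pos hi]
  · simp only [if_neg hi]

theorem mx_le {E : Finset I} {r p q : C} (h : cut E r ≤ cut E p) (h' : q ≤ p) : mx E r q ≤ p := by
  intro i k b hb
  change (if i ∈ E then r.1 i k else q.1 i k) = some b
  by_cases hi : i ∈ E
  · rw [if_pos hi]
    have h1 := h i k b (by
      change (if i ∈ E then p.1 i k else none) = some b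
      rwa [if_pos hi])
    change (if i ∈ E then r.1 i k else none) = some b at h1
    rwa [if_pos hi] at h1
  · rw [if_neg hi]
    exact h' i k b hb

theorem dep_rg {E : Finset I} {A : Set C} {hA : IsLowerSet A}
    (h : ∀ p, p ∈ A ↔ cut E p ∈ A) : Dep E (rg A hA) := by
  intro p
  rw [in_rg, in_rg]
  constructor
  · intro hp q hq
    have h1 : mx E q p ≤ p := mx_le (by
      have := cut_mono (E := E) hq
      rwa [cut_cut subset_rfl] at this) le_rfl
    obtain ⟨r, hr, hrA⟩ := hp _ h1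
    refine ⟨mx E r q, mx_le ?_ le_rfl, ?_⟩
    · have := cut_mono (E := E) hr
      rwa [cut_mx] at this
    · rw [h, cut_mx, ← h]
      exact hrA
  · intro hp q hq
    exact hp q (hq.trans cut_le)

/-- The set of conditions. -/
def A (n : ℕ+) (x : PName P) (x₀ : P) : Set C :=
  {p | ∃ y ≤ x₀, Fmem (check (nat (n : ℕ))) x y ∧ p ≤ cut x₀.E y.p}

theorem A_lower (n : ℕ+) (x : PName P) (x₀ : P) : IsLowerSet (A n x x₀) := by
  rintro p q hq ⟨y, hy, h1, h2⟩
  exact ⟨y, hy, h1, hq.trans h2⟩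

/-- The truth values. -/
def tR (x : PName P) (x₀ : P) (n : ℕ+) : Om := rg (A n x x₀) (A_lower n x x₀)

theorem dep_tR (x : PName P) (x₀ : P) (n : ℕ+) : Dep x₀.E (tR x x₀ n) := by
  refine dep_rg fun p => ?_
  constructor
  · rintro ⟨y, hy, h1, h2⟩
    refine ⟨y, hy, h1, ?_⟩
    have := cut_mono (E := x₀.E) h2
    rwa [cut_cut subset_rfl] at this
  · rintro ⟨y, hy, h1, h2⟩
    exact ⟨y, hy, h1, cut_le.trans h2⟩

open Classical in
/-- A support. -/
noncomputable def Sp (x : PName P) : Finset I :=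
  if h : ∃ E, sys.Fix (fix E) x then h.choose else ∅

theorem sp_spec {x : PName P} (h : sys.HS x) : sys.Fix (fix (Sp x)) x := by
  obtain ⟨_, ⟨E, rfl⟩, hE⟩ := h.sym
  have h1 : ∃ E, sys.Fix (fix E) x := ⟨E, hE⟩
  unfold Sp
  rw [dif_pos h1]
  exact h1.choose_spec

/-- The conditions with large support. -/
def B (x : PName P) : Set P := {y | Sp x ⊆ y.E ∧ y.E.Nonempty}

noncomputable def f1 (x : PName P) : PName P := Sys.nm P (B x)
noncomputable def f2 (x _ : PName P) (x₀ : P) : PName P := rn (tR x x₀)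
def f3 (x y : PName P) (_ : P) : PName P := Sys.nm P {r | Fmem y x r}

theorem mem_enc {a : Set ℕ+} {n : ℕ+} : nat (n : ℕ) ∈ enc a ↔ n ∈ a := by
  rw [enc, ZFSet.mem_sep]
  constructor
  · rintro ⟨-, m, hm, hmn⟩
    have := nat_injective hmn
    rwa [PNat.coe_injective this]
  · intro hn
    exact ⟨mem_omega_iff.2 ⟨_, rfl⟩, n, hn, rfl⟩

end Rea

open Rea in
theorem rea_main (hV : S_VAL) (hM : S_CMP) (hN : S_NEU) : S_REA := by
  refine hV.of {IU.rl f1, IU.rl2 f2, IU.rl2 f3} (Set.toFinite _).countable ?_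
  intro π hcl hcd hP a ha
  obtain ⟨x, ⟨hx, hxs⟩, hxa⟩ := ha
  have hfix := sp_spec hxs
  obtain ⟨k, hk⟩ : ∃ k, π.g k ∈ B x := by
    have h1 : Sys.nm P (B x) ∈ π.N := hcl.rl (f := f1) (by simp) hx
    obtain ⟨k, h | h⟩ := gen_nm h1 (fun r hr s hs => ⟨hr.1.trans hs.1, hr.2.mono hs.1⟩)
    · exact ⟨k, h⟩
    · exfalso
      obtain ⟨y, hy, hyE, -⟩ := hM.1 (π.g k) ((π.g k).E ∪ (Sp x ∪ {(0, false, 0)}))
        Finset.subset_union_left
      refine h y hy ⟨?_, ?_⟩
      · rw [hyE]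
        exact Finset.subset_union_left.trans Finset.subset_union_right
      · rw [hyE]
        exact ⟨(0, false, 0), by simp⟩
  have hrn : rn (tR x (π.g k)) ∈ π.N := hcl.rl2 (f := f2) (by simp) hx hx (π.gC k)
  refine ⟨(π.g k).E, tR x (π.g k), hk.2, dep_tR x _, hrn, ?_⟩
  rw [hP.1 _ hrn]
  congr 1
  ext n
  rw [← mem_enc (a := a), ← hxa, ← π.hat_nat n]
  have hnN : (check (nat (n : ℕ)) : PName P) ∈ π.N := π.nat_Z n
  change (∃ j, In (π.g j).p (tR x (π.g k) n)) ↔ π.val (check (nat (n : ℕ))) ∈ π.val x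
  rw [π.val_mem_iff hnN hx]
  constructor
  · rintro ⟨j, hj⟩
    have h1 : Sys.nm P {r | Fmem (check (nat (n : ℕ))) x r} ∈ π.N :=
      hcl.rl2 (f := f3) (by simp) hx hnN (π.gC 0)
    obtain ⟨l, h | h⟩ := gen_nm h1 (fun r hr s hs => hr.mono hs)
    · exact ⟨l, h⟩
    exfalso
    set m := max (max j k) l with hm
    have hmj : π.g m ≤ π.g j := π.g_anti ((le_max_left _ _).trans (le_max_left _ _))
    have hmk : π.g m ≤ π.g k := π.g_anti ((le_max_right _ _).trans (le_max_left _ _))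
    have hml : π.g m ≤ π.g l := π.g_anti (le_max_right _ _)
    have h2 : In (π.g m).p (tR x (π.g k) n) := (tR x (π.g k) n).1.lower hmj.2.1 hj
    rw [dep_tR x (π.g k) n] at h2
    obtain ⟨q, hq, y, hy, hyf, hqy⟩ := in_rg.1 h2 _ le_rfl
    obtain ⟨g, hg, hgE, -⟩ := hN (π.g k).E (π.g m).E y.E (fun _ => false) hmk.1 hy.1
      (fun _ _ => rfl)
    obtain ⟨z, hz1, hz2⟩ := hM.2 (π.g k) (π.g m) y g hk.2 hmk hy hg hgE ⟨q, hq, hqy⟩
    have h3 : Fmem (act (sys.ac g) (check (nat (n : ℕ)))) (act (sys.ac g) x) (mv g y) :=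
      fmem_act.2 hyf
    rw [act_check (sys.top g)] at h3
    have hg' : g ∈ fix (Sp x) := fun i hi => hg i (hk.1 hi)
    have h4 := fmem_congr (feq_of_el fun _ _ => Iff.rfl) (hfix g hg' z) (h3.mono hz2)
    exact h z (hz1.trans hml) h4
  · rintro ⟨j, hj⟩
    refine ⟨max j k, in_rg.2 fun q hq => ⟨q, le_rfl, π.g (max j k), π.g_le_right j k,
      hj.mono (π.g_le_left j k), hq.trans cut_le⟩⟩

end Pool.Agent.R602.IU
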