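import Pool.Agent.R602.IU.Defs
import Pool.Agent.W868.Nat

/-!
# IU-UUF: the model has an idempotent ultrafilter
-/

set_option autoImplicit false
set_option linter.all false

namespace Pool.Agent.R602.IU

open Pool.Agent.W868 Pool.Agent.W868.PName Pool.Agent.R598.SY
open ZFSet (pair)

namespace Uuf

theorem In.mono {p q : C} {b : Om} (h : In p b) (hq : q ≤ p) : In q b :=
  (b : LowerSet C).lower hq h

theorem in_inf {p : C} {a b : Om} : In p (a ⊓ b) ↔ In p a ∧ In p b := by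
  unfold In
  rw [Heyting.Regular.coe_inf, LowerSet.mem_inf_iff]

theorem in_top {p : C} : In p ⊤ := by
  unfold In
  rw [Heyting.Regular.coe_top]
  exact LowerSet.mem_top

theorem in_bot {p : C} : ¬ In p ⊥ := by
  unfold In
  rw [Heyting.Regular.coe_bot]
  exact LowerSet.notMem_bot

theorem in_compl {p : C} {b : Om} : In p bᶜ ↔ ∀ q ≤ p, ¬ In q b := by
  unfold In
  rw [Heyting.Regular.coe_compl]
  constructor
  · intro h q hq hb
    have h1 : q ∈ ((b : LowerSet C) ⊓ (b : LowerSet C)ᶜ) :=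
      LowerSet.mem_inf_iff.2 ⟨hb, (b : LowerSet C)ᶜ.lower hq h⟩
    rw [inf_compl_self] at h1
    exact LowerSet.notMem_bot h1
  · intro h
    have h1 : LowerSet.Iic p ≤ (b : LowerSet C)ᶜ := by
      rw [le_compl_iff_disjoint_right, disjoint_iff_inf_le]
      intro q hq
      have h2 := LowerSet.mem_inf_iff.1 hq
      exact absurd h2.2 (h q (LowerSet.mem_Iic_iff.1 h2.1))
    exact h1 (LowerSet.mem_Iic_iff.2 le_rfl)

theorem mem_enc {a : Set ℕ+} {n : ℕ+} : nat (n : ℕ) ∈ enc a ↔ n ∈ a := by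
  unfold enc
  rw [ZFSet.mem_sep]
  constructor
  · rintro ⟨-, m, hm, h⟩
    have : n = m := PNat.coe_injective (nat_injective h)
    rwa [this]
  · intro h
    exact ⟨mem_omega_iff.2 ⟨_, rfl⟩, n, h, rfl⟩

theorem enc_inj {a b : Set ℕ+} (h : enc a = enc b) : a = b := by
  ext n
  rw [← mem_enc, h, mem_enc]

/-- change of the condition below -/
theorem shrink (y : P) (q : C) (hq : q ≤ y.p) : ∃ z ≤ y, z.E = y.E ∧ z.p = cut y.E q ∧ z.u = y.u := by
  refine ⟨⟨y.E, cut y.E q, y.u, cut_cut subset_rfl q, y.ok⟩, ⟨subset_rfl, ?_, fun _ _ _ => rfl⟩,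
    rfl, rfl, rfl⟩
  rw [← y.sup]
  intro i k b hb
  change (if i ∈ y.E then y.p.1 i k else none) = some b at hb
  change (if i ∈ y.E then q.1 i k else none) = some b
  by_cases hi : i ∈ y.E
  · rw [if_pos hi] at hb ⊢
    exact hq i k b hb
  · rw [if_neg hi] at hb
    cases hb

open Classical in
/-- decoding -/
noncomputable def tt (E : Finset I) (x : PName P) : ℕ+ → Om :=
  if h : ∃ t : ℕ+ → Om, (∀ n, Dep E (t n)) ∧ rn t = x then h.choose else fun _ => ⊤

theorem tt_spec {E : Finset I} {t : ℕ+ → Om} (ht : ∀ n, Dep E (t n)) :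
    (∀ n, Dep E (tt E (rn t) n)) ∧ rn (tt E (rn t)) = rn t := by
  have h : ∃ s : ℕ+ → Om, (∀ n, Dep E (s n)) ∧ rn s = rn t := ⟨t, ht, rfl⟩
  have e : tt E (rn t) = h.choose := dif_pos h
  rw [e]
  exact h.choose_spec

end Uuf

open Uuf

theorem uuf_main (hO : S_OMC) (hV : S_VAL) (hM : S_CMP) (hR : S_REA) (hU : S_UUV) : S_UUF := by
  classical
  let R : Set (Rule P) :=
    {rl fun _ => rn fun _ => ⊤, rl fun _ => rn fun _ => ⊥} ∪
    Set.range (fun E : Finset I => rl fun _ => Sys.nm P {x | E ⊆ x.E}) ∪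
    Set.range (fun E : Finset I => rl fun x => rn fun n => (tt E x n)ᶜ) ∪
    Set.range (fun E : Finset I => rl2 fun x y _ => rn fun n => tt E x n ⊓ tt E y n) ∪
    Set.range (fun a : Finset I × ℕ+ => rl fun x => rn fun m => tt a.1 x (m + a.2)) ∪
    Set.range (fun E : Finset I => rl2 fun x _ p => rn fun n => p.u fun m => tt E x (m + n)) ∪
    Set.range (fun a : Finset I × ℕ+ => rl fun x => Sys.nm P {z | In z.p (tt a.1 x a.2) ∨
      In z.p (tt a.1 x a.2)ᶜ}) ∪
    Set.range (fun E : Finset I => rl fun x => Sys.nm P {z | z.E.Nonempty ∧ E ⊆ z.E ∧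
      (In z.p (z.u (tt E x)) ∨ In z.p (z.u (tt E x))ᶜ)})
  have hRc : R.Countable := by
    refine Set.Countable.union (Set.Countable.union (Set.Countable.union (Set.Countable.union
      (Set.Countable.union (Set.Countable.union (Set.Countable.union ?_ ?_) ?_) ?_) ?_) ?_) ?_) ?_
    · exact (Set.toFinite _).countable
    all_goals exact Set.countable_range _
  refine Holds.of ((hV.and hR).and hU) R hRc fun π hcl hcd hh => ?_
  obtain ⟨⟨⟨hval, hvs⟩, hrea⟩, huM, huel, hcr⟩ := hh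
  have r0 : ∀ ρ, ρ ∈ R → ρ ∈ R := fun _ h => h
  have htopN : rn (fun _ => ⊤) ∈ π.N := hcl.rl (f := fun _ => rn fun _ => ⊤)
    (Or.inl (Or.inl (Or.inl (Or.inl (Or.inl (Or.inl (Or.inl (Or.inl rfl)))))))) (emp_N π)
  have hbotN : rn (fun _ => ⊥) ∈ π.N := hcl.rl (f := fun _ => rn fun _ => ⊥)
    (Or.inl (Or.inl (Or.inl (Or.inl (Or.inl (Or.inl (Or.inl (Or.inr rfl)))))))) (emp_N π)
  have hEN : ∀ E : Finset I, Sys.nm P {x | E ⊆ x.E} ∈ π.N := fun E =>
    hcl.rl (f := fun _ => Sys.nm P {x | E ⊆ x.E})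
      (Or.inl (Or.inl (Or.inl (Or.inl (Or.inl (Or.inl (Or.inr ⟨E, rfl⟩))))))) (emp_N π)
  have hcN : ∀ (E : Finset I) (x : PName P), x ∈ π.N → rn (fun n => (tt E x n)ᶜ) ∈ π.N :=
    fun E x hx => hcl.rl (f := fun x => rn fun n => (tt E x n)ᶜ)
      (Or.inl (Or.inl (Or.inl (Or.inl (Or.inl (Or.inr ⟨E, rfl⟩)))))) hx
  have hiN : ∀ (E : Finset I) (x y : PName P), x ∈ π.N → y ∈ π.N →
      rn (fun n => tt E x n ⊓ tt E y n) ∈ π.N :=
    fun E x y hx hy => hcl.rl2 (f := fun x y _ => rn fun n => tt E x n ⊓ tt E y n)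
      (Or.inl (Or.inl (Or.inl (Or.inl (Or.inr ⟨E, rfl⟩))))) hx hy (π.gC 0)
  have hsN : ∀ (E : Finset I) (n : ℕ+) (x : PName P), x ∈ π.N →
      rn (fun m => tt E x (m + n)) ∈ π.N :=
    fun E n x hx => hcl.rl (f := fun x => rn fun m => tt E x (m + n))
      (Or.inl (Or.inl (Or.inl (Or.inr ⟨(E, n), rfl⟩)))) hx
  have huN : ∀ (E : Finset I) (x : PName P) (p : P), x ∈ π.N → p ∈ π.C →
      rn (fun n => p.u fun m => tt E x (m + n)) ∈ π.N :=
    fun E x p hx hp => hcl.rl2 (f := fun x _ p => rn fun n => p.u fun m => tt E x (m + n))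
      (Or.inl (Or.inl (Or.inr ⟨E, rfl⟩))) hx hx hp
  have hdN : ∀ (E : Finset I) (n : ℕ+) (x : PName P), x ∈ π.N →
      Sys.nm P {z | In z.p (tt E x n) ∨ In z.p (tt E x n)ᶜ} ∈ π.N :=
    fun E n x hx => hcl.rl (f := fun x => Sys.nm P {z | In z.p (tt E x n) ∨ In z.p (tt E x n)ᶜ})
      (Or.inl (Or.inr ⟨(E, n), rfl⟩)) hx
  have heN : ∀ (E : Finset I) (x : PName P), x ∈ π.N →
      Sys.nm P {z | z.E.Nonempty ∧ E ⊆ z.E ∧ (In z.p (z.u (tt E x)) ∨ In z.p (z.u (tt E x))ᶜ)} ∈ π.N :=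
    fun E x hx => hcl.rl (f := fun x => Sys.nm P {z | z.E.Nonempty ∧ E ⊆ z.E ∧
      (In z.p (z.u (tt E x)) ∨ In z.p (z.u (tt E x))ᶜ)}) (Or.inr ⟨E, rfl⟩) hx
  -- monotonicity along the generic sequence
  have gp : ∀ {k l : ℕ} (h : k ≤ l), π.g l ≤ π.g k := fun h => π.g_anti h
  have gu : ∀ {k l : ℕ} (h : k ≤ l) (hne : (π.g k).E.Nonempty) {t : ℕ+ → Om},
      (∀ n, Dep (π.g k).E (t n)) → (π.g l).u t = (π.g k).u t :=
    fun h hne t ht => (gp h).2.2 hne t ht
  have hE : ∀ E : Finset I, ∃ k, E ⊆ (π.g k).E := by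
    intro E
    obtain ⟨k, hk⟩ := gen_nm (hEN E) (fun r hr s hs => Finset.Subset.trans hr hs.1)
    rcases hk with hk | hk
    · exact ⟨k, hk⟩
    · exfalso
      obtain ⟨y, hy, hyE, -⟩ := hM.1 (π.g k) ((π.g k).E ∪ E) Finset.subset_union_left
      exact hk y hy (by change E ⊆ y.E; rw [hyE]; exact Finset.subset_union_right)
  -- decision of `t n`
  have dec : ∀ (E : Finset I) (t : ℕ+ → Om), (∀ n, Dep E (t n)) → rn t ∈ π.N → tt E (rn t) = t →
      ∀ n, (∃ k, In (π.g k).p (t n)) ∨ ∃ k, In (π.g k).p (t n)ᶜ := by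
    intro E t ht hN htt n
    have h1 := hdN E n (rn t) hN
    rw [htt] at h1
    obtain ⟨k, hk⟩ := gen_nm h1 (by
      rintro r (hr | hr) s hs
      · exact Or.inl (In.mono hr hs.2.1)
      · exact Or.inr (In.mono hr hs.2.1))
    rcases hk with (hk | hk) | hk
    · exact Or.inl ⟨k, hk⟩
    · exact Or.inr ⟨k, hk⟩
    · exfalso
      obtain ⟨y, hy, hyE, hyp⟩ := hM.1 (π.g k) ((π.g k).E ∪ E) Finset.subset_union_left
      have hEy : E ⊆ y.E := by rw [hyE]; exact Finset.subset_union_right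
      by_cases hq : ∃ q ≤ y.p, In q (t n)
      · obtain ⟨q, hq, hin⟩ := hq
        obtain ⟨z, hz, hzE, hzp, hzu⟩ := shrink y q hq
        refine hk z (hz.trans hy) (Or.inl ?_)
        rw [hzp]
        exact ((ht n).mono hEy q).1 hin
      · refine hk y hy (Or.inr (in_compl.2 fun q hq' hin => hq ⟨q, hq', hin⟩))
  -- complements
  have val_c : ∀ (E : Finset I) (t : ℕ+ → Om), (∀ n, Dep E (t n)) → rn t ∈ π.N →
      tt E (rn t) = t → rn (fun n => (t n)ᶜ) ∈ π.N ∧
      π.val (rn fun n => (t n)ᶜ) = enc {n | ∃ k, In (π.g k).p (t n)}ᶜ := by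
    intro E t ht hN htt
    have h1 := hcN E (rn t) hN
    rw [htt] at h1
    refine ⟨h1, ?_⟩
    rw [hval _ h1]
    congr 1
    ext n
    constructor
    · rintro ⟨k, hk⟩ ⟨l, hl⟩
      have h2 := In.mono hk (gp (le_max_left k l)).2.1
      have h3 := In.mono hl (gp (le_max_right k l)).2.1
      exact in_compl.1 h2 _ le_rfl h3
    · intro h
      rcases dec E t ht hN htt n with h2 | h2
      · exact absurd h2 h
      · exact h2
  -- codes of sets
  have code : ∀ a, enc a ∈ sys.Ms π → ∃ E : Finset I, E.Nonempty ∧ ∀ F : Finset I, E ⊆ F →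
      ∃ t : ℕ+ → Om, (∀ n, Dep F (t n)) ∧ rn t ∈ π.N ∧ tt F (rn t) = t ∧
        π.val (rn t) = enc a ∧ a = {n | ∃ k, In (π.g k).p (t n)} := by
    intro a ha
    obtain ⟨E, t, hne, ht, hN, hv⟩ := hrea a ha
    refine ⟨E, hne, fun F hF => ?_⟩
    have htF : ∀ n, Dep F (t n) := fun n => (ht n).mono hF
    obtain ⟨h1, h2⟩ := tt_spec htF
    refine ⟨tt F (rn t), h1, by rw [h2]; exact hN, by rw [h2], by rw [h2]; exact hv, ?_⟩
    have h3 := hval (tt F (rn t)) (by rw [h2]; exact hN)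
    rw [h2, hv] at h3
    exact enc_inj h3
  have hMt : ∀ z ∈ π.val un, z ∈ sys.Ms π := fun z hz => (isZF hcd).trans _ huM _ hz
  have hdtop : ∀ E, Dep E ⊤ := fun E => (hO E).2.1
  have hdbot : ∀ E, Dep E ⊥ := fun E => (hO E).1
  have hdinf : ∀ E a b, Dep E a → Dep E b → Dep E (a ⊓ b) := fun E => (hO E).2.2.1
  have hdc : ∀ E a, Dep E a → Dep E aᶜ := fun E => (hO E).2.2.2.1
  -- the empty set
  have hempty : enc ∅ ∉ π.val un := by
    intro h
    have h1 : π.val (rn fun _ => ⊥) = enc ∅ := by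
      rw [hval _ hbotN]
      congr 1
      ext n
      constructor
      · rintro ⟨k, hk⟩
        exact absurd hk in_bot
      · intro h
        exact absurd h (Set.notMem_empty _)
    rw [← h1] at h
    obtain ⟨k, hne, -, hk⟩ := (hcr ∅ _ (fun _ => hdbot ∅) hbotN).1 h
    rw [((π.g k).ok hne).cst ⊥ (hdbot _)] at hk
    exact in_bot hk
  -- intersections
  have hinter : ∀ a b, enc a ∈ π.val un → enc b ∈ π.val un → enc (a ∩ b) ∈ π.val un := by
    intro a b ha hb
    obtain ⟨E, hE1, ca⟩ := code a (hMt _ ha)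
    obtain ⟨E', hE2, cb⟩ := code b (hMt _ hb)
    obtain ⟨t, ht, htN, htt, hta, hta'⟩ := ca (E ∪ E') Finset.subset_union_left
    obtain ⟨s, hs, hsN', hss, hsb, hsb'⟩ := cb (E ∪ E') Finset.subset_union_right
    rw [← hta] at ha
    rw [← hsb] at hb
    obtain ⟨k, hk1, hk2, hk3⟩ := (hcr _ _ ht htN).1 ha
    obtain ⟨l, hl1, hl2, hl3⟩ := (hcr _ _ hs hsN').1 hb
    have h1 := hiN (E ∪ E') (rn t) (rn s) htN hsN'
    rw [htt, hss] at h1
    have h2 : π.val (rn fun n => t n ⊓ s n) = enc (a ∩ b) := by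
      rw [hval _ h1, hta', hsb']
      congr 1
      ext n
      constructor
      · rintro ⟨m, hm⟩
        exact ⟨⟨m, (in_inf.1 hm).1⟩, ⟨m, (in_inf.1 hm).2⟩⟩
      · rintro ⟨⟨m, hm⟩, ⟨m', hm'⟩⟩
        exact ⟨max m m', in_inf.2 ⟨In.mono hm (gp (le_max_left _ _)).2.1,
          In.mono hm' (gp (le_max_right _ _)).2.1⟩⟩
    rw [← h2]
    refine (hcr (E ∪ E') _ (fun n => hdinf _ _ _ (ht n) (hs n)) h1).2 ⟨max k l, ?_, ?_, ?_⟩
    · exact hk1.mono (gp (le_max_left k l)).1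
    · exact hk2.trans (gp (le_max_left k l)).1
    · have hne : (π.g (max k l)).E.Nonempty := hk1.mono (gp (le_max_left k l)).1
      have hsub : E ∪ E' ⊆ (π.g (max k l)).E := hk2.trans (gp (le_max_left k l)).1
      rw [((π.g (max k l)).ok hne).inf t s (fun n => (ht n).mono hsub)
        (fun n => (hs n).mono hsub)]
      refine in_inf.2 ⟨?_, ?_⟩
      · rw [gu (le_max_left k l) hk1 (fun n => (ht n).mono hk2)]
        exact In.mono hk3 (gp (le_max_left k l)).2.1
      · rw [gu (le_max_right k l) hl1 (fun n => (hs n).mono hl2)]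
        exact In.mono hl3 (gp (le_max_right k l)).2.1
  -- ultra
  have hultra : ∀ a, enc a ∈ sys.Ms π → enc a ∈ π.val un ∨ enc aᶜ ∈ π.val un := by
    intro a ha
    obtain ⟨E, hE1, ca⟩ := code a ha
    obtain ⟨t, ht, htN, htt, hta, hta'⟩ := ca E subset_rfl
    have h1 := heN E (rn t) htN
    rw [htt] at h1
    obtain ⟨k, hk⟩ := gen_nm h1 (by
      rintro r ⟨hr1, hr2, hr3⟩ s hs
      have e : s.u t = r.u t := hs.2.2 hr1 t (fun n => (ht n).mono hr2)
      refine ⟨hr1.mono hs.1, Finset.Subset.trans hr2 hs.1, ?_⟩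
      rw [e]
      rcases hr3 with h | h
      · exact Or.inl (In.mono h hs.2.1)
      · exact Or.inr (In.mono h hs.2.1))
    have h2 : (π.g k).E.Nonempty ∧ E ⊆ (π.g k).E ∧
        (In (π.g k).p ((π.g k).u t) ∨ In (π.g k).p ((π.g k).u t)ᶜ) := by
      rcases hk with hk | hk
      · exact hk
      · exfalso
        obtain ⟨y, hy, hyE, hyp⟩ := hM.1 (π.g k) ((π.g k).E ∪ E) Finset.subset_union_left
        have hEy : E ⊆ y.E := by rw [hyE]; exact Finset.subset_union_right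
        have hyn : y.E.Nonempty := hE1.mono hEy
        have hyd : Dep y.E (y.u t) := (y.ok hyn).dep t fun n => (ht n).mono hEy
        by_cases hq : ∃ q ≤ y.p, In q (y.u t)
        · obtain ⟨q, hq, hin⟩ := hq
          obtain ⟨z, hz, hzE, hzp, hzu⟩ := shrink y q hq
          refine hk z (hz.trans hy) ⟨by rw [hzE]; exact hyn, by rw [hzE]; exact hEy, Or.inl ?_⟩
          rw [hzp, hzu]
          exact (hyd q).1 hin
        · exact hk y hy ⟨hyn, hEy, Or.inr (in_compl.2 fun q hq' hin => hq ⟨q, hq', hin⟩)⟩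
    obtain ⟨h3, h4, h5⟩ := h2
    rcases h5 with h5 | h5
    · left
      rw [← hta]
      exact (hcr E t ht htN).2 ⟨k, h3, h4, h5⟩
    · right
      obtain ⟨h6, h7⟩ := val_c E t ht htN htt
      rw [← hta'] at h7
      rw [← h7]
      refine (hcr E _ (fun n => hdc _ _ (ht n)) h6).2 ⟨k, h3, h4, ?_⟩
      rw [((π.g k).ok h3).cpl t (fun n => (ht n).mono h4)]
      exact h5
  have hidem : Idem (sys.Ms π) (π.val un) := by
    intro a ha
    obtain ⟨E, hE1, ca⟩ := code a ha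
    obtain ⟨t, ht, htN, htt, hta, hta'⟩ := ca E subset_rfl
    obtain ⟨k0, hk0⟩ := hE E
    have hne0 : (π.g k0).E.Nonempty := hE1.mono hk0
    have hd0 : ∀ n, Dep (π.g k0).E (t n) := fun n => (ht n).mono hk0
    set s : ℕ+ → Om := fun n => (π.g k0).u fun m => t (m + n) with hs
    have hsd : ∀ n, Dep (π.g k0).E (s n) := fun n =>
      ((π.g k0).ok hne0).dep _ fun m => hd0 (m + n)
    have hsN' : rn s ∈ π.N := by
      have h1 := huN E (rn t) (π.g k0) htN (π.gC k0)
      rwa [htt] at h1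
    -- the general computation of membership
    have key : ∀ r : ℕ+ → Om, (∀ n, Dep (π.g k0).E (r n)) → rn r ∈ π.N →
        (π.val (rn r) ∈ π.val un ↔ ∃ k, In (π.g k).p ((π.g k0).u r)) := by
      intro r hr hN
      rw [hcr (π.g k0).E r hr hN]
      constructor
      · rintro ⟨k, h1, h2, h3⟩
        refine ⟨max k k0, ?_⟩
        rw [← gu (le_max_right k k0) hne0 hr, gu (le_max_left k k0) h1 (fun n => (hr n).mono h2)]
        exact In.mono h3 (gp (le_max_left k k0)).2.1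
      · rintro ⟨k, h1⟩
        refine ⟨max k k0, hne0.mono (gp (le_max_right k k0)).1, (gp (le_max_right k k0)).1, ?_⟩
        rw [gu (le_max_right k k0) hne0 hr]
        exact In.mono h1 (gp (le_max_left k k0)).2.1
    have hsft : enc (sft (π.val un) a) = π.val (rn s) := by
      rw [hval _ hsN']
      congr 1
      ext n
      change enc {m | m + n ∈ a} ∈ π.val un ↔ ∃ k, In (π.g k).p (s n)
      have h1 := hsN E n (rn t) htN
      rw [htt] at h1
      have h2 : π.val (rn fun m => t (m + n)) = enc {m | m + n ∈ a} := by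
        rw [hval _ h1, hta']
        rfl
      rw [← h2, key _ (fun m => hd0 (m + n)) h1]
    rw [hsft, key s hsd hsN', ← hta, key t hd0 htN, hs, ((π.g k0).ok hne0).idm t hd0]
  refine ⟨π.val un, ⟨⟨huM, ?_, ?_, hempty, hinter, ?_⟩, hultra⟩, hidem⟩
  · intro z hz
    obtain ⟨t, htN, rfl⟩ := huel z hz
    exact ⟨_, hval t htN⟩
  · have h1 : π.val (rn fun _ => ⊤) = enc Set.univ := by
      rw [hval _ htopN]
      congr 1
      ext n
      constructor
      · intro _
        trivial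
      · intro _
        exact ⟨0, in_top⟩
    rw [← h1]
    obtain ⟨k, hk⟩ := hE {((0, false, 0) : I)}
    have hne : (π.g k).E.Nonempty := ⟨_, hk (Finset.mem_singleton_self _)⟩
    refine (hcr ∅ _ (fun _ => hdtop ∅) htopN).2 ⟨k, hne, Finset.empty_subset _, ?_⟩
    rw [((π.g k).ok hne).cst ⊤ (hdtop _)]
    exact in_top
  · intro a b ha hb hab
    rcases hultra b hb with h | h
    · exact h
    · exfalso
      have h1 := hinter _ _ ha h
      have h2 : a ∩ bᶜ = ∅ := by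
        ext n
        constructor
        · rintro ⟨h3, h4⟩
          exact absurd (hab h3) h4
        · intro h
          exact absurd h (Set.notMem_empty _)
      rw [h2] at h1
      exact hempty h1

end Pool.Agent.R602.IU
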