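import Pool.Agent.R602.IU.Defs
import Pool.Agent.W868.Nat

/-!
# IU-UUV: the elements of the ultrafilter
-/

set_option autoImplicit false
set_option linter.all false

namespace Pool.Agent.R602.IU

open Pool.Agent.W868 Pool.Agent.W868.PName Pool.Agent.R598.SY
open ZFSet (pair)

namespace UuvAux

theorem In.mono {p q : C} {b : Om} (h : In p b) (hq : q ≤ p) : In q b :=
  (b : LowerSet C).lower hq h

theorem in_inf {p : C} {a b : Om} : In p (a ⊓ b) ↔ In p a ∧ In p b := by
  unfold In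
  rw [Heyting.Regular.coe_inf, LowerSet.mem_inf_iff]

theorem mem_compl {p : C} {b : LowerSet C} : p ∈ bᶜ ↔ ∀ q ≤ p, q ∉ b := by
  constructor
  · intro h q hq hb
    have h1 : q ∈ (b ⊓ bᶜ) :=
      LowerSet.mem_inf_iff.2 ⟨hb, bᶜ.lower hq h⟩
    rw [inf_compl_self] at h1
    exact LowerSet.notMem_bot h1
  · intro h
    have h1 : LowerSet.Iic p ≤ bᶜ := by
      rw [le_compl_iff_disjoint_right, disjoint_iff_inf_le]
      intro q hq
      have h2 := LowerSet.mem_inf_iff.1 hq
      exact absurd h2.2 (h q (LowerSet.mem_Iic_iff.1 h2.1))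
    exact h1 (LowerSet.mem_Iic_iff.2 le_rfl)

theorem in_compl {p : C} {b : Om} : In p bᶜ ↔ ∀ q ≤ p, ¬ In q b := by
  unfold In
  rw [Heyting.Regular.coe_compl]
  exact mem_compl

theorem in_dense {p : C} {b : Om} (h : ∀ q ≤ p, ∃ r ≤ q, In r b) : In p b := by
  have h1 : In p bᶜᶜ := in_compl.2 fun q hq h2 => by
    obtain ⟨r, hr, h3⟩ := h q hq
    exact in_compl.1 h2 r hr h3
  rwa [compl_compl] at h1

open Classical in
/-- one more value -/
noncomputable def upd (q : C) (i : I) (k : ℕ) (b : Bool) : C :=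
  ⟨fun j l => if j = i ∧ l = k then some b else q.1 j l, by
    refine (q.2.union (Set.finite_singleton (i, k))).subset ?_
    rintro ⟨j, l⟩ hx
    simp only [Set.mem_setOf_eq] at hx
    by_cases h : j = i ∧ l = k
    · right
      exact Prod.ext h.1 h.2
    · left
      rw [if_neg h] at hx
      exact hx⟩

theorem prin_reg (w : C) : Heyting.IsRegular (LowerSet.Iic w) := by
  classical
  unfold Heyting.IsRegular
  refine le_antisymm ?_ le_compl_compl
  intro q hq
  refine LowerSet.mem_Iic_iff.2 fun i k b hb => ?_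
  by_contra hne
  have key : ∀ q' ≤ q, q'.1 i k ≠ some (!b) := by
    intro q' hq' h1
    refine mem_compl.1 hq q' hq' (mem_compl.2 fun r hr h2 => ?_)
    have h3 := (LowerSet.mem_Iic_iff.1 h2) i k b hb
    have h4 := hr i k _ h1
    rw [h3] at h4
    cases b <;> simp at h4
  cases hqk : q.1 i k with
  | none =>
    refine key (upd q i k (!b)) ?_ ?_
    · intro j l c hc
      change (if j = i ∧ l = k then some (!b) else q.1 j l) = some c
      by_cases h : j = i ∧ l = k
      · exfalso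
        rw [h.1, h.2, hqk] at hc
        cases hc
      · rw [if_neg h]
        exact hc
    · change (if i = i ∧ k = k then some (!b) else q.1 i k) = some (!b)
      rw [if_pos ⟨rfl, rfl⟩]
  | some c =>
    have h5 : c ≠ b := by
      rintro rfl
      exact hne hqk
    refine key q le_rfl ?_
    rw [hqk]
    cases b <;> cases c <;> simp_all

/-- the truth value given by a condition -/
def prin (w : C) : Om := ⟨LowerSet.Iic w, prin_reg w⟩

theorem in_prin {q w : C} : In q (prin w) ↔ q ≤ w := LowerSet.mem_Iic_iff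

theorem le_cut (E : Finset I) (p : C) : p ≤ cut E p := by
  intro i k b hb
  change (if i ∈ E then p.1 i k else none) = some b at hb
  by_cases hi : i ∈ E
  · rwa [if_pos hi] at hb
  · rw [if_neg hi] at hb
    cases hb

theorem cut_mono (E : Finset I) {p q : C} (h : q ≤ p) : cut E q ≤ cut E p := by
  intro i k b hb
  change (if i ∈ E then p.1 i k else none) = some b at hb
  change (if i ∈ E then q.1 i k else none) = some b
  by_cases hi : i ∈ E
  · rw [if_pos hi] at hb ⊢
    exact h i k b hb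
  · rw [if_neg hi] at hb
    cases hb

theorem dep_prin {E : Finset I} {w : C} (h : cut E w = w) : Dep E (prin w) := by
  intro p
  rw [in_prin, in_prin]
  constructor
  · intro h1
    rw [← h]
    exact cut_mono E h1
  · intro h1
    exact (le_cut E p).trans h1

theorem el_rn {t : ℕ+ → Om} {y : PName P} {c : P} :
    El (rn t) y c ↔ ∃ n : ℕ+, In c.p (t n) ∧ y = check (nat (n : ℕ)) := by
  unfold rn
  rw [el_mk]
  constructor
  · rintro ⟨⟨⟨n, x⟩, h⟩, rfl, rfl⟩
    exact ⟨n, h, rfl⟩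
  · rintro ⟨n, h, rfl⟩
    exact ⟨⟨⟨n, c⟩, h⟩, rfl, rfl⟩

theorem el_un {y : PName P} {c : P} :
    El un y c ↔ ∃ t : ℕ+ → Om, c.E.Nonempty ∧ (∀ n, Dep c.E (t n)) ∧ In c.p (c.u t) ∧ y = rn t := by
  unfold un
  rw [el_mk]
  constructor
  · rintro ⟨⟨⟨t, x⟩, h1, h2, h3⟩, rfl, rfl⟩
    exact ⟨t, h1, h2, h3, rfl⟩
  · rintro ⟨t, h1, h2, h3, rfl⟩
    exact ⟨⟨⟨t, c⟩, h1, h2, h3⟩, rfl, rfl⟩

theorem mem_enc {a : Set ℕ+} {z : ZFSet.{0}} : z ∈ enc a ↔ ∃ n ∈ a, z = nat (n : ℕ) := by
  unfold enc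
  rw [ZFSet.mem_sep]
  constructor
  · exact fun h => h.2
  · rintro ⟨n, hn, rfl⟩
    exact ⟨mem_omega_iff.2 ⟨_, rfl⟩, n, hn, rfl⟩

theorem mem_enc' {a : Set ℕ+} {n : ℕ+} : nat (n : ℕ) ∈ enc a ↔ n ∈ a := by
  rw [mem_enc]
  constructor
  · rintro ⟨m, hm, h⟩
    have : n = m := PNat.coe_injective (nat_injective h)
    rwa [this]
  · intro h
    exact ⟨n, h, rfl⟩

theorem val_rn (π : Pkg P) (t : ℕ+ → Om) :
    π.val (rn t) = enc {n | ∃ k, In (π.g k).p (t n)} := by
  ext z
  rw [π.mem_val, mem_enc]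
  constructor
  · rintro ⟨y, hy, c, hc, ⟨k, hk⟩, rfl⟩
    obtain ⟨n, hn, rfl⟩ := el_rn.1 hc
    refine ⟨n, ⟨k, ?_⟩, π.hat_nat n⟩
    exact (t n : LowerSet C).lower hk.2.1 hn
  · rintro ⟨n, ⟨k, hk⟩, rfl⟩
    exact ⟨check (nat (n : ℕ)), π.nat_Z n, π.g k, el_rn.2 ⟨n, hk, rfl⟩, ⟨k, le_rfl⟩, π.hat_nat n⟩

theorem cut_fix {E : Finset I} {g : G} (hg : g ∈ fix E) (p : C) :
    cut E (mvC g.1 p) = cut E p := by
  refine Subtype.ext (funext fun i => funext fun k => ?_)
  change (if i ∈ E then p.1 (g.1⁻¹ i) k else none) = if i ∈ E then p.1 i k else none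
  by_cases hi : i ∈ E
  · have h1 : g.1⁻¹ i = i := by
      rw [Equiv.Perm.inv_eq_iff_eq, hg i hi]
    rw [if_pos hi, if_pos hi, h1]
  · rw [if_neg hi, if_neg hi]

theorem in_fix {E : Finset I} {g : G} (hg : g ∈ fix E) {b : Om} (hb : Dep E b) (p : C) :
    In (mvC g.1 p) b ↔ In p b := by
  rw [hb (mvC g.1 p), cut_fix hg, ← hb p]

theorem mv_inv (g : G) (c : P) : c = mv g (mv g⁻¹ c) := by
  rw [← mv_mul, mul_inv_cancel, mv_one]

theorem fix_rn {E : Finset I} {t : ℕ+ → Om} (ht : ∀ n, Dep E (t n)) :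
    sys.Fix (fix E) (rn t) := by
  intro g hg p
  refine feq_of_el fun z c => ?_
  rw [el_act]
  constructor
  · intro h
    obtain ⟨w, d, hw, hz, hc⟩ := h
    obtain ⟨n, hn, rfl⟩ := el_rn.1 hw
    subst hz hc
    exact el_rn.2 ⟨n, (in_fix hg (ht n) d.p).2 hn, act_check (mv_top g) _⟩
  · intro h
    obtain ⟨n, hn, rfl⟩ := el_rn.1 h
    refine ⟨check (nat (n : ℕ)), mv g⁻¹ c, el_rn.2 ⟨n, ?_, rfl⟩,
      (act_check (mv_top g) _).symm, ?_⟩
    · exact (in_fix ((fix E).inv_mem hg) (ht n) c.p).2 hn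
    · exact mv_inv g c

theorem hs_rn {E : Finset I} {t : ℕ+ → Om} (ht : ∀ n, Dep E (t n)) : sys.HS (rn t) := by
  rw [sys.hs_iff]
  refine ⟨⟨fix E, ⟨E, rfl⟩, fix_rn ht⟩, fun z c h => ?_⟩
  obtain ⟨n, hn, rfl⟩ := el_rn.1 h
  exact sys.hs_check _

theorem act_rn (g : G) (t : ℕ+ → Om) (p : P) :
    Feq (act (sys.ac g) (rn t)) (rn fun n => acO g.1 (t n)) p := by
  refine feq_of_el fun z c => ?_
  rw [el_act]
  constructor
  · intro h
    obtain ⟨w, d, hw, hz, hc⟩ := h
    obtain ⟨n, hn, rfl⟩ := el_rn.1 hw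
    subst hz hc
    refine el_rn.2 ⟨n, ?_, act_check (mv_top g) _⟩
    change In (mvC g.1 d.p) (acO g.1 (t n))
    rw [in_acO, ← mvC_mul, inv_mul_cancel, mvC_one]
    exact hn
  · intro h
    obtain ⟨n, hn, rfl⟩ := el_rn.1 h
    refine ⟨check (nat (n : ℕ)), mv g⁻¹ c, el_rn.2 ⟨n, ?_, rfl⟩,
      (act_check (mv_top g) _).symm, ?_⟩
    · exact in_acO.1 hn
    · exact mv_inv g c

theorem mem_mv {g : G} {c : P} {t : ℕ+ → Om} (h1 : c.E.Nonempty) (h2 : ∀ n, Dep c.E (t n))
    (h3 : In c.p (c.u t)) : El un (rn fun n => acO g.1 (t n)) (mv g c) := by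
  refine el_un.2 ⟨_, by simpa [mv] using h1, fun n => dep_acO (h2 n), ?_, rfl⟩
  change In (mvC g.1 c.p) (acO g.1 (c.u fun n => acO g.1⁻¹ (acO g.1 (t n))))
  have e : (fun n => acO g.1⁻¹ (acO g.1 (t n))) = t := funext fun n => acO_inv_acO _ _
  rw [e, in_acO, ← mvC_mul, inv_mul_cancel, mvC_one]
  exact h3

theorem hs_un : sys.HS un := by
  rw [sys.hs_iff]
  refine ⟨⟨fix ∅, ⟨∅, rfl⟩, fun g _ p => ?_⟩, fun z c h => ?_⟩
  · rw [feq_iff']
    constructor
    · intro z c hz q hq hqc
      rw [el_act] at hz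
      obtain ⟨z', c', hz', rfl, rfl⟩ := hz
      obtain ⟨t, h1, h2, h3, rfl⟩ := el_un.1 hz'
      exact ⟨q, le_rfl, _, mv g c', mem_mv h1 h2 h3, hqc, act_rn g t q⟩
    · intro w d hw q hq hqd
      obtain ⟨t, h1, h2, h3, rfl⟩ := el_un.1 hw
      refine ⟨q, le_rfl, act (sys.ac g) (rn fun n => acO (g⁻¹ : G).1 (t n)), d, ?_, hqd, ?_⟩
      · rw [el_act]
        exact ⟨_, mv g⁻¹ d, mem_mv h1 h2 h3, rfl, mv_inv g d⟩
      · have h4 : ∀ h : G, Feq (act (sys.ac h) (rn fun n => acO (h⁻¹ : G).1 (t n))) (rn t) q := by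
          intro h
          have h5 := act_rn h (fun n => acO (h⁻¹ : G).1 (t n)) q
          have e : (fun n => acO h.1 (acO (h⁻¹ : G).1 (t n))) = t :=
            funext fun n => acO_acO_inv _ _
          rwa [e] at h5
        exact h4 g
  · obtain ⟨t, h1, h2, h3, rfl⟩ := el_un.1 h
    exact hs_rn h2

theorem rn_inj (hM : S_CMP) {s t : ℕ+ → Om} (h : rn s = rn t) : s = t := by
  classical
  funext n
  refine Om.ext fun p => ?_
  let E : Finset I := p.2.toFinset.image Prod.fst
  have hcut : cut E p = p := by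
    refine Subtype.ext (funext fun i => funext fun k => ?_)
    change (if i ∈ E then p.1 i k else none) = p.1 i k
    by_cases hi : i ∈ E
    · rw [if_pos hi]
    · rw [if_neg hi]
      by_contra hne
      refine hi (Finset.mem_image.2 ⟨(i, k), ?_, rfl⟩)
      rw [Set.Finite.mem_toFinset]
      exact fun h => hne h.symm
  obtain ⟨y, -, hyE, -⟩ := hM.1 ⊤ E (Finset.empty_subset _)
  let c : P := ⟨E, p, y.u, hcut, fun hE => by
    have := y.ok (by rw [hyE]; exact hE)
    rwa [hyE] at this⟩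
  have key : ∀ r : ℕ+ → Om, El (rn r) (check (nat (n : ℕ))) c ↔ In p (r n) := by
    intro r
    rw [el_rn]
    constructor
    · rintro ⟨m, hm, e⟩
      have h1 : Feq (check (nat (n : ℕ)) : PName P) (check (nat (m : ℕ))) (⊤ : P) := by
        rw [e]
        exact Feq.refl _ _
      have h2 : n = m := PNat.coe_injective (nat_injective ((feq_check _ _ _).1 h1))
      rw [h2]
      exact hm
    · intro hh
      exact ⟨n, hh, rfl⟩
  rw [← key s, ← key t, h]

open Classical in
/-- decoding -/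
noncomputable def tt (x : PName P) : ℕ+ → Om :=
  if h : ∃ t : ℕ+ → Om, rn t = x then h.choose else fun _ => ⊤

theorem tt_rn (hM : S_CMP) (t : ℕ+ → Om) : tt (rn t) = t := by
  have h : ∃ s : ℕ+ → Om, rn s = rn t := ⟨t, rfl⟩
  have e : tt (rn t) = h.choose := dif_pos h
  rw [e]
  exact rn_inj hM h.choose_spec

end UuvAux

open UuvAux

theorem uuv_main (hM : S_CMP) : S_UUV := by
  classical
  let R : Set (Rule P) :=
    ({rl fun _ => un, rl2 fun x y _ => Sys.nm P {z | ∃ n, In z.p (tt x n ⊓ (tt y n)ᶜ)}} :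
      Set (Rule P)) ∪
    Set.range (fun E : Finset I => rl fun _ => Sys.nm P {x | E ⊆ x.E})
  have hRc : R.Countable :=
    (Set.toFinite _).countable.union (Set.countable_range _)
  refine ⟨R, hRc, fun π hcl hcd => ?_⟩
  have hun : un ∈ π.N := hcl.rl (f := fun _ => un) (Or.inl (Or.inl rfl)) (emp_N π)
  have hA : ∀ x y : PName P, x ∈ π.N → y ∈ π.N →
      Sys.nm P {z | ∃ n, In z.p (tt x n ⊓ (tt y n)ᶜ)} ∈ π.N := fun x y hx hy =>
    hcl.rl2 (f := fun x y _ => Sys.nm P {z | ∃ n, In z.p (tt x n ⊓ (tt y n)ᶜ)})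
      (Or.inl (Or.inr rfl)) hx hy (π.gC 0)
  have hEN : ∀ E : Finset I, Sys.nm P {x | E ⊆ x.E} ∈ π.N := fun E =>
    hcl.rl (f := fun _ => Sys.nm P {x | E ⊆ x.E}) (Or.inr ⟨E, rfl⟩) (emp_N π)
  have hE : ∀ E : Finset I, ∃ k, E ⊆ (π.g k).E := by
    intro E
    obtain ⟨k, hk⟩ := gen_nm (hEN E) (fun r hr s hs => Finset.Subset.trans hr hs.1)
    rcases hk with hk | hk
    · exact ⟨k, hk⟩
    · exfalso
      obtain ⟨y, hy, hyE, -⟩ := hM.1 (π.g k) ((π.g k).E ∪ E) Finset.subset_union_left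
      exact hk y hy (by change E ⊆ y.E; rw [hyE]; exact Finset.subset_union_right)
  refine ⟨⟨un, ⟨hun, hs_un⟩, rfl⟩, ?_, ?_⟩
  · intro z hz
    obtain ⟨y, hy, c, hc, hn, rfl⟩ := π.mem_val.1 hz
    obtain ⟨t, -, -, -, rfl⟩ := el_un.1 hc
    exact ⟨t, hy, rfl⟩
  · intro E t ht hN
    constructor
    · intro hmem
      obtain ⟨y, hy, c, hc, ⟨k0, hk0⟩, hv⟩ := π.mem_val.1 hmem
      obtain ⟨s, hne, hs, hcs, rfl⟩ := el_un.1 hc
      obtain ⟨k1, hk1⟩ := hE (c.E ∪ E)
      have hA' := hA (rn s) (rn t) hy hN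
      rw [tt_rn hM, tt_rn hM] at hA'
      obtain ⟨l, hl⟩ := gen_nm hA' (by
        rintro r ⟨n, hn⟩ s' hs'
        exact ⟨n, In.mono hn hs'.2.1⟩)
      have heq : {n | ∃ k, In (π.g k).p (s n)} = {n | ∃ k, In (π.g k).p (t n)} := by
        rw [val_rn, val_rn] at hv
        ext n
        rw [← mem_enc', hv, mem_enc']
      have hl2 : ∀ r ≤ π.g l, ∀ n, ¬ In r.p (s n ⊓ (t n)ᶜ) := by
        rcases hl with ⟨n, hn⟩ | hl
        · exfalso
          obtain ⟨h1, h2⟩ := in_inf.1 hn
          have h3 : n ∈ {n | ∃ k, In (π.g k).p (s n)} := ⟨l, h1⟩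
          rw [heq] at h3
          obtain ⟨k, hk⟩ := h3
          have h4 := In.mono hk (π.g_anti (le_max_left k l)).2.1
          exact in_compl.1 h2 _ (π.g_anti (le_max_right k l)).2.1 h4
        · intro r hr n h1
          exact hl r hr ⟨n, h1⟩
      -- the stage
      obtain ⟨j, hj0, hj1, hjl⟩ : ∃ j, k0 ≤ j ∧ k1 ≤ j ∧ l ≤ j :=
        ⟨max k0 (max k1 l), le_max_left _ _, (le_max_left _ _).trans (le_max_right _ _),
          (le_max_right _ _).trans (le_max_right _ _)⟩
      have hw0 : π.g j ≤ c := (π.g_anti hj0).trans hk0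
      have hwF : c.E ∪ E ⊆ (π.g j).E := Finset.Subset.trans hk1 (π.g_anti hj1).1
      have hwl : π.g j ≤ π.g l := π.g_anti hjl
      have hwn : (π.g j).E.Nonempty := hne.mono hw0.1
      have hsw : ∀ n, Dep (π.g j).E (s n) := fun n => (hs n).mono hw0.1
      have htw : ∀ n, Dep (π.g j).E (t n) := fun n =>
        (ht n).mono (Finset.Subset.trans Finset.subset_union_right hwF)
      have hus : In (π.g j).p ((π.g j).u s) := by
        rw [hw0.2.2 hne s hs]
        exact In.mono hcs hw0.2.1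
      have hb : Dep (π.g j).E (prin (π.g j).p) := dep_prin (π.g j).sup
      have hok := (π.g j).ok hwn
      have hst : ∀ n, s n ⊓ prin (π.g j).p = (s n ⊓ prin (π.g j).p) ⊓ t n := by
        intro n
        refine Om.ext fun q => ?_
        rw [in_inf, in_inf, in_inf, in_prin]
        refine ⟨fun ⟨h1, h2⟩ => ⟨⟨h1, h2⟩, ?_⟩, fun h => h.1⟩
        refine in_dense fun q' hq' => ?_
        by_contra hno
        push Not at hno
        have h3 : In q' (s n ⊓ (t n)ᶜ) := in_inf.2 ⟨In.mono h1 hq', in_compl.2 hno⟩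
        have hd : In (cut (π.g j).E q') (s n ⊓ (t n)ᶜ) := by
          refine in_inf.2 ⟨(hsw n q').1 (in_inf.1 h3).1, in_compl.2 fun r hr h5 => ?_⟩
          -- `r` extends the part of `q'` in `E`; glue with `q'`
          have h6 := (htw n r).1 h5
          have h7 : cut (π.g j).E r ≤ cut (π.g j).E q' := by
            have := cut_mono (π.g j).E hr
            rwa [cut_cut subset_rfl] at this
          -- the union of `cut E r` and `q'`
          let m : C := ⟨fun i k => if i ∈ (π.g j).E then r.1 i k else q'.1 i k, by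
            refine (r.2.union q'.2).subset ?_
            rintro ⟨i, k⟩ hx
            simp only [Set.mem_setOf_eq] at hx
            by_cases hi : i ∈ (π.g j).E
            · rw [if_pos hi] at hx
              exact Or.inl hx
            · rw [if_neg hi] at hx
              exact Or.inr hx⟩
          have hm1 : m ≤ q' := by
            intro i k b hb'
            change (if i ∈ (π.g j).E then r.1 i k else q'.1 i k) = some b
            by_cases hi : i ∈ (π.g j).E
            · rw [if_pos hi]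
              refine hr i k b ?_
              change (if i ∈ (π.g j).E then q'.1 i k else none) = some b
              rw [if_pos hi]
              exact hb'
            · rw [if_neg hi]
              exact hb'
          have hm2 : cut (π.g j).E m = cut (π.g j).E r := by
            refine Subtype.ext (funext fun i => funext fun k => ?_)
            change (if i ∈ (π.g j).E then (if i ∈ (π.g j).E then r.1 i k else q'.1 i k)
              else none) = if i ∈ (π.g j).E then r.1 i k else none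
            by_cases hi : i ∈ (π.g j).E
            · rw [if_pos hi, if_pos hi, if_pos hi]
            · rw [if_neg hi, if_neg hi]
          refine hno m hm1 ((htw n m).2 ?_)
          rw [hm2]
          exact h6
        have hq'' : q' ≤ (π.g j).p := hq'.trans h2
        have hcw : cut (π.g j).E q' ≤ (π.g j).p := by
          rw [← (π.g j).sup]
          exact cut_mono _ hq''
        let z : P := ⟨(π.g j).E, cut (π.g j).E q', (π.g j).u, cut_cut subset_rfl q', (π.g j).ok⟩
        have hz : z ≤ π.g j := ⟨subset_rfl, hcw, fun _ _ _ => rfl⟩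
        exact hl2 z (hz.trans hwl) n hd
      refine ⟨j, hwn, Finset.Subset.trans Finset.subset_union_right hwF, ?_⟩
      have e1 : (π.g j).u (fun n => s n ⊓ prin (π.g j).p) = (π.g j).u s ⊓ prin (π.g j).p := by
        rw [hok.inf s (fun _ => prin (π.g j).p) hsw (fun _ => hb), hok.cst _ hb]
      have hdi : ∀ n, Dep (π.g j).E (s n ⊓ prin (π.g j).p) := by
        intro n p
        rw [in_inf, in_inf, ← hsw n p, ← hb p]
      have e2 : (π.g j).u (fun n => s n ⊓ prin (π.g j).p) =
          (π.g j).u (fun n => s n ⊓ prin (π.g j).p) ⊓ (π.g j).u t := by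
        rw [← hok.inf _ t hdi htw]
        congr 1
        funext n
        exact hst n
      have h8 : In (π.g j).p ((π.g j).u (fun n => s n ⊓ prin (π.g j).p)) := by
        rw [e1]
        exact in_inf.2 ⟨hus, in_prin.2 le_rfl⟩
      rw [e2] at h8
      exact (in_inf.1 h8).2
    · rintro ⟨k, h1, h2, h3⟩
      exact π.val_mem_val (n := k) hN (el_un.2 ⟨t, h1, fun n => (ht n).mono h2, h3, rfl⟩) le_rfl

end Pool.Agent.R602.IU
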