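import Pool.Agent.R602.IU.Defs

/-! Piece VAL of project IU (MP_257b8b_lc): values of the names of sets of numbers. -/

set_option autoImplicit false
set_option linter.all false

namespace Pool.Agent.R602.IU

open Pool.Agent.W868 Pool.Agent.W868.PName Pool.Agent.R598.SY
open ZFSet (pair)

namespace ValAux

theorem el_rn {t : ℕ+ → Om} {y : PName P} {c : P} :
    El (rn t) y c ↔ ∃ n : ℕ+, In c.p (t n) ∧ y = check (nat (n : ℕ)) := by
  unfold rn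
  rw [el_mk]
  constructor
  · rintro ⟨⟨⟨n, x⟩, h⟩, rfl, rfl⟩
    exact ⟨n, h, rfl⟩
  · rintro ⟨n, h, rfl⟩
    exact ⟨⟨⟨n, c⟩, h⟩, rfl, rfl⟩

theorem mem_enc {a : Set ℕ+} {z : ZFSet.{0}} : z ∈ enc a ↔ ∃ n ∈ a, z = nat (n : ℕ) := by
  unfold enc
  rw [ZFSet.mem_sep]
  constructor
  · exact fun h => h.2
  · rintro ⟨n, hn, rfl⟩
    exact ⟨mem_omega_iff.2 ⟨_, rfl⟩, n, hn, rfl⟩

theorem val_rn (π : Pkg P) (t : ℕ+ → Om) :
    π.val (rn t) = enc {n | ∃ k, In (π.g k).p (t n)} := by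
  ext z
  rw [π.mem_val, mem_enc]
  constructor
  · rintro ⟨y, hy, c, hc, ⟨k, hk⟩, rfl⟩
    obtain ⟨n, hn, rfl⟩ := el_rn.1 hc
    refine ⟨n, ⟨k, ?_⟩, π.hat_nat n⟩
    exact (t n : LowerSet C).lower hk.2.1 hn
  · rintro ⟨n, ⟨k, hk⟩, rfl⟩
    exact ⟨check (nat (n : ℕ)), π.nat_Z n, π.g k, el_rn.2 ⟨n, hk, rfl⟩, ⟨k, le_rfl⟩, π.hat_nat n⟩

theorem cut_fix {E : Finset I} {g : G} (hg : g ∈ fix E) (p : C) :
    cut E (mvC g.1 p) = cut E p := by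
  refine Subtype.ext (funext fun i => funext fun k => ?_)
  change (if i ∈ E then p.1 (g.1⁻¹ i) k else none) = if i ∈ E then p.1 i k else none
  by_cases hi : i ∈ E
  · have h1 : g.1⁻¹ i = i := by
      rw [Equiv.Perm.inv_eq_iff_eq, hg i hi]
    rw [if_pos hi, if_pos hi, h1]
  · rw [if_neg hi, if_neg hi]

theorem in_fix {E : Finset I} {g : G} (hg : g ∈ fix E) {b : Om} (hb : Dep E b) (p : C) :
    In (mvC g.1 p) b ↔ In p b := by
  rw [hb (mvC g.1 p), cut_fix hg, ← hb p]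

theorem mv_inv (g : G) (c : P) : c = mv g (mv g⁻¹ c) := by
  rw [← mv_mul, mul_inv_cancel, mv_one]

theorem fix_rn {E : Finset I} {t : ℕ+ → Om} (ht : ∀ n, Dep E (t n)) :
    sys.Fix (fix E) (rn t) := by
  intro g hg p
  refine feq_of_el fun z c => ?_
  rw [el_act]
  constructor
  · intro h
    obtain ⟨w, d, hw, hz, hc⟩ := h
    obtain ⟨n, hn, rfl⟩ := el_rn.1 hw
    subst hz hc
    exact el_rn.2 ⟨n, (in_fix hg (ht n) d.p).2 hn, act_check (mv_top g) _⟩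
  · intro h
    obtain ⟨n, hn, rfl⟩ := el_rn.1 h
    refine ⟨check (nat (n : ℕ)), mv g⁻¹ c, el_rn.2 ⟨n, ?_, rfl⟩,
      (act_check (mv_top g) _).symm, ?_⟩
    · exact (in_fix ((fix E).inv_mem hg) (ht n) c.p).2 hn
    · exact mv_inv g c

theorem hs_rn {E : Finset I} {t : ℕ+ → Om} (ht : ∀ n, Dep E (t n)) : sys.HS (rn t) := by
  rw [sys.hs_iff]
  refine ⟨⟨fix E, ⟨E, rfl⟩, fix_rn ht⟩, fun z c h => ?_⟩
  obtain ⟨n, hn, rfl⟩ := el_rn.1 h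
  exact sys.hs_check _

end ValAux

/-- Piece VAL. -/
theorem val_main : S_VAL :=
  ⟨∅, Set.countable_empty, fun π _ _ => ⟨fun t _ => ValAux.val_rn π t,
    fun t E ht hN => ⟨ValAux.hs_rn ht, ⟨rn t, ⟨hN, ValAux.hs_rn ht⟩, rfl⟩⟩⟩⟩

end Pool.Agent.R602.IU
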