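import Pool.Agent.R602.IU.Defs

/-!
# Piece ZED
-/

set_option autoImplicit false
set_option linter.all false

namespace Pool.Agent.R602.IU

open Pool.Agent.W868 Pool.Agent.W868.PName Pool.Agent.R598.SY
open ZFSet (pair)

namespace Zed

theorem el_zn {E : Finset I} {K : ℕ} {z : PName P} {t : P} :
    El (zn E K) z t ↔ ∃ n : ℕ+, check (nat (n : ℕ)) = z ∧ zc E K n t.p := by
  unfold zn
  rw [el_mk]
  constructor
  · rintro ⟨⟨⟨n, t⟩, h⟩, rfl, rfl⟩
    exact ⟨n, rfl, h⟩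
  · rintro ⟨n, rfl, h⟩
    exact ⟨⟨⟨n, t⟩, h⟩, rfl, rfl⟩

theorem el_zs {z : PName P} {t : P} : El zs z t ↔ ∃ E K, zn E K = z ∧ t = ⊤ := by
  unfold zs
  rw [el_mk]
  constructor
  · rintro ⟨⟨E, K⟩, rfl, rfl⟩
    exact ⟨E, K, rfl, rfl⟩
  · rintro ⟨E, K, rfl, rfl⟩
    exact ⟨⟨E, K⟩, rfl, rfl⟩

theorem side_eq (g : G) {i j : I} (h : i.1 = j.1) :
    ((g.1 i).2.1 ^^ (g.1 j).2.1) = (i.2.1 ^^ j.2.1) := by
  obtain ⟨ε, hε⟩ := g.2
  rw [(hε i).2, (hε j).2, h]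
  cases ε j.1 <;> cases i.2.1 <;> cases j.2.1 <;> rfl

theorem comp_eq (g : G) (i : I) : (g.1 i).1 = i.1 := by
  obtain ⟨ε, hε⟩ := g.2
  exact (hε i).1

theorem zc_mv (g : G) (E : Finset I) (K : ℕ) (n : ℕ+) (p : C) :
    zc (E.map g.1.toEmbedding) K n (mvC g.1 p) ↔ zc E K n p := by
  have hv : ∀ i k, (mvC g.1 p).1 (g.1 i) k = p.1 i k := by
    intro i k
    change p.1 (g.1⁻¹ (g.1 i)) k = p.1 i k
    have : g.1⁻¹ (g.1 i) = i := g.1.symm_apply_apply i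
    rw [this]
  constructor
  · intro h k hk
    refine ⟨(h k hk).1, fun i hi j hj hij => ?_⟩
    have h1 := (h k hk).2 (g.1 i) (Finset.mem_map_of_mem _ hi) (g.1 j) (Finset.mem_map_of_mem _ hj)
      (by rw [comp_eq, comp_eq, hij])
    rwa [hv, hv, side_eq g hij] at h1
  · intro h k hk
    refine ⟨(h k hk).1, fun i hi j hj hij => ?_⟩
    obtain ⟨i, hi', rfl⟩ := Finset.mem_map.1 hi
    obtain ⟨j, hj', rfl⟩ := Finset.mem_map.1 hj
    change (g.1 i).1 = (g.1 j).1 at hij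
    rw [comp_eq, comp_eq] at hij
    have h1 := (h k hk).2 i hi' j hj' hij
    change ∃ b c, (mvC g.1 p).1 (g.1 i) k = some b ∧ (mvC g.1 p).1 (g.1 j) k = some c ∧
      (b ^^ c) = ((g.1 i).2.1 ^^ (g.1 j).2.1)
    rwa [hv, hv, side_eq g hij]

theorem act_zn (g : G) (E : Finset I) (K : ℕ) (p : P) :
    Feq (act (sys.ac g) (zn E K)) (zn (E.map g.1.toEmbedding) K) p := by
  refine feq_of_el fun z c => ?_
  rw [el_act, el_zn]
  constructor
  · rintro ⟨z', c', hz, rfl, rfl⟩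
    obtain ⟨n, rfl, h⟩ := el_zn.1 hz
    exact ⟨n, (act_check (sys.top g) _).symm, (zc_mv g E K n _).2 h⟩
  · rintro ⟨n, rfl, h⟩
    refine ⟨check (nat (n : ℕ)), mv g⁻¹ c, el_zn.2 ⟨n, rfl, ?_⟩, (act_check (sys.top g) _).symm, ?_⟩
    · rw [← zc_mv g]
      have h1 : mvC g.1 (mv g⁻¹ c).p = c.p := by
        change mvC g.1 (mvC g.1⁻¹ c.p) = c.p
        rw [← mvC_mul, mul_inv_cancel, mvC_one]
      rwa [h1]
    · change c = mv g (mv g⁻¹ c)
      rw [← mv_mul, mul_inv_cancel, mv_one]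

theorem fix_zn (E : Finset I) (K : ℕ) : sys.Fix (fix E) (zn E K) := by
  intro g hg p
  have h : E.map g.1.toEmbedding = E := by
    have h1 : ∀ i ∈ E, g.1 i = i := hg
    ext i
    rw [Finset.mem_map]
    constructor
    · rintro ⟨j, hj, rfl⟩
      change g.1 j ∈ E
      rwa [h1 j hj]
    · intro hi
      exact ⟨i, hi, h1 i hi⟩
  have h2 := act_zn g E K p
  rwa [h] at h2

theorem hs_zn (E : Finset I) (K : ℕ) : sys.HS (zn E K) := by
  refine sys.hs_iff.2 ⟨⟨fix E, ⟨E, rfl⟩, fix_zn E K⟩, fun z t hz => ?_⟩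
  obtain ⟨n, rfl, -⟩ := el_zn.1 hz
  exact sys.hs_check _

theorem fix_zs : sys.Fix (fix ∅) zs := by
  intro g _ p
  have htop : sys.ac g ⊤ = ⊤ := sys.top g
  rw [feq_iff']
  refine ⟨fun z c hz q _ _ => ?_, fun w d hw q _ _ => ?_⟩
  · obtain ⟨z', c', hz', rfl, rfl⟩ := el_act.1 hz
    obtain ⟨E, K, rfl, rfl⟩ := el_zs.1 hz'
    exact ⟨q, le_rfl, zn (E.map g.1.toEmbedding) K, ⊤, el_zs.2 ⟨_, _, rfl, rfl⟩, le_top,
      act_zn g E K q⟩
  · obtain ⟨E, K, rfl, rfl⟩ := el_zs.1 hw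
    refine ⟨q, le_rfl, act (sys.ac g) (zn (E.map (g.1⁻¹).toEmbedding) K), ⊤, ?_, le_top, ?_⟩
    · exact el_act.2 ⟨zn (E.map (g.1⁻¹).toEmbedding) K, ⊤, el_zs.2 ⟨_, _, rfl, rfl⟩, rfl,
        htop.symm⟩
    · have h := act_zn g (E.map (g.1⁻¹).toEmbedding) K q
      have h2 : (E.map (g.1⁻¹).toEmbedding).map g.1.toEmbedding = E := by
        have h3 := map_map_inv g.1⁻¹ E
        rwa [inv_inv] at h3
      rwa [h2] at h

theorem hs_zs : sys.HS zs := by
  refine sys.hs_iff.2 ⟨⟨fix ∅, ⟨∅, rfl⟩, fix_zs⟩, fun z t hz => ?_⟩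
  obtain ⟨E, K, rfl, -⟩ := el_zs.1 hz
  exact hs_zn E K

/-- Add the values `v` at `k`. -/
def exC (p : C) (E : Finset I) (k : ℕ) (v : I → Bool) : C :=
  ⟨fun i l => if l = k ∧ i ∈ E then some (v i) else p.1 i l, by
    refine (p.2.union ((E.finite_toSet).prod (Set.finite_singleton k))).subset ?_
    rintro ⟨i, l⟩ h
    simp only [Set.mem_setOf_eq] at h
    by_cases h1 : l = k ∧ i ∈ E
    · exact Or.inr ⟨h1.2, h1.1⟩
    · rw [if_neg h1] at h
      exact Or.inl h⟩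

theorem exC_le {p : C} {E : Finset I} {k : ℕ} {v : I → Bool} (h : ∀ i ∈ E, p.1 i k = none) :
    exC p E k v ≤ p := by
  intro i l b hb
  change (if l = k ∧ i ∈ E then some (v i) else p.1 i l) = some b
  rw [if_neg]
  · exact hb
  · rintro ⟨rfl, hi⟩
    rw [h i hi] at hb
    cases hb

theorem exC_val {p : C} {E : Finset I} {k : ℕ} {v : I → Bool} {i : I} (hi : i ∈ E) :
    (exC p E k v).1 i k = some (v i) := by
  change (if k = k ∧ i ∈ E then some (v i) else p.1 i k) = _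
  rw [if_pos ⟨rfl, hi⟩]

/-- Extending a condition. -/
theorem ext_cond (hM : S_CMP) (x : P) (E : Finset I) : ∃ y ≤ x, E ⊆ y.E ∧ y.p = x.p := by
  obtain ⟨y, hy, h1, h2⟩ := hM.1 x (x.E ∪ E) Finset.subset_union_left
  exact ⟨y, hy, by rw [h1]; exact Finset.subset_union_right, h2⟩

theorem ext_val (y : P) (E : Finset I) (hE : E ⊆ y.E) (k : ℕ) (v : I → Bool)
    (h : ∀ i ∈ E, y.p.1 i k = none) : ∃ z ≤ y, ∀ i ∈ E, z.p.1 i k = some (v i) := by
  refine ⟨⟨y.E, exC y.p E k v, y.u, ?_, y.ok⟩, ⟨subset_rfl, exC_le h, fun _ _ _ => rfl⟩,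
    fun i hi => exC_val hi⟩
  refine Subtype.ext (funext fun i => funext fun l => ?_)
  change (if i ∈ y.E then (if l = k ∧ i ∈ E then some (v i) else y.p.1 i l) else none) =
    if l = k ∧ i ∈ E then some (v i) else y.p.1 i l
  by_cases hi : i ∈ y.E
  · rw [if_pos hi]
  · rw [if_neg hi, if_neg fun h => hi (hE h.2)]
    have h1 := congrArg (fun q : C => q.1 i l) y.sup
    change (if i ∈ y.E then y.p.1 i l else none) = y.p.1 i l at h1
    rwa [if_neg hi] at h1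

/-- The value at `(i, k)` is decided. -/
def DX (a : I × ℕ) : Set P := {r | ∃ b, r.p.1 a.1 a.2 = some b}

/-- There is a number at which the values are the sides. -/
def DN (a : Finset I × ℕ) : Set P := {r | ∃ k, a.2 ≤ k ∧ ∀ i ∈ a.1, r.p.1 i k = some i.2.1}

theorem DX_dense (hM : S_CMP) (a : I × ℕ) (x : P) : ∃ y ≤ x, y ∈ DX a := by
  obtain ⟨y, hy, hE, hp⟩ := ext_cond hM x {a.1}
  cases hv : y.p.1 a.1 a.2 with
  | some b => exact ⟨y, hy, b, hv⟩
  | none =>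
    obtain ⟨z, hz, h⟩ := ext_val y {a.1} hE a.2 (fun _ => true) (by
      intro i hi
      rw [Finset.mem_singleton] at hi
      rw [hi, hv])
    exact ⟨z, hz.trans hy, true, h a.1 (Finset.mem_singleton_self _)⟩

theorem DN_dense (hM : S_CMP) (a : Finset I × ℕ) (x : P) : ∃ y ≤ x, y ∈ DN a := by
  obtain ⟨y, hy, hE, hp⟩ := ext_cond hM x a.1
  obtain ⟨B, hB⟩ := (y.p.2.image Prod.snd).bddAbove
  obtain ⟨z, hz, h⟩ := ext_val y a.1 hE (max a.2 (B + 1)) (fun i => i.2.1) (by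
    intro i hi
    by_contra hne
    have h1 : max a.2 (B + 1) ≤ B := hB ⟨(i, max a.2 (B + 1)), hne, rfl⟩
    have h2 := le_max_right a.2 (B + 1)
    omega)
  exact ⟨z, hz.trans hy, max a.2 (B + 1), le_max_left _ _, h⟩

theorem mem_enc {a : Set ℕ+} {z : ZFSet.{0}} : z ∈ enc a ↔ ∃ n ∈ a, z = nat (n : ℕ) := by
  unfold enc
  rw [ZFSet.mem_sep]
  constructor
  · exact fun h => h.2
  · rintro ⟨n, hn, rfl⟩
    exact ⟨mem_omega_iff.2 ⟨_, rfl⟩, n, hn, rfl⟩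

end Zed

open Zed

theorem zed_main (hM : S_CMP) : S_ZED := by
  classical
  let R : Set (Rule P) := {rl fun _ => zs} ∪
    Set.range (fun a : Finset I × ℕ => rl fun _ => zn a.1 a.2) ∪
    Set.range (fun a : I × ℕ => rl fun _ => Sys.nm P (DX a)) ∪
    Set.range (fun a : Finset I × ℕ => rl fun _ => Sys.nm P (DN a))
  have hR : R.Countable := by
    refine Set.Countable.union (Set.Countable.union (Set.Countable.union ?_ ?_) ?_) ?_
    · exact Set.countable_singleton _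
    · exact Set.countable_range _
    · exact Set.countable_range _
    · exact Set.countable_range _
  refine ⟨R, hR, fun π hcl hcd => ?_⟩
  have hzs : zs ∈ π.N := hcl.rl (f := fun _ => zs) (Or.inl (Or.inl (Or.inl rfl))) (emp_N π)
  have hzn : ∀ E K, zn E K ∈ π.N := fun E K =>
    hcl.rl (f := fun _ => zn E K) (Or.inl (Or.inl (Or.inr ⟨(E, K), rfl⟩))) (emp_N π)
  have hDX : ∀ a, Sys.nm P (DX a) ∈ π.N := fun a =>
    hcl.rl (f := fun _ => Sys.nm P (DX a)) (Or.inl (Or.inr ⟨a, rfl⟩)) (emp_N π)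
  have hDN : ∀ a, Sys.nm P (DN a) ∈ π.N := fun a =>
    hcl.rl (f := fun _ => Sys.nm P (DN a)) (Or.inr ⟨a, rfl⟩) (emp_N π)
  have hX : ∀ i k, ∃ b, ∃ m, (π.g m).p.1 i k = some b := by
    intro i k
    obtain ⟨m, hm | hm⟩ := gen_nm (hDX (i, k)) (by
      rintro r ⟨b, hb⟩ s hs
      exact ⟨b, hs.2.1 i k b hb⟩)
    · obtain ⟨b, hb⟩ := hm
      exact ⟨b, m, hb⟩
    · obtain ⟨y, hy, h⟩ := DX_dense hM (i, k) (π.g m)
      exact absurd h (hm y hy)
  choose X hX using hX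
  have huniq : ∀ i k m b, (π.g m).p.1 i k = some b → X i k = b := by
    intro i k m b hb
    obtain ⟨m', hm'⟩ := hX i k
    have h1 := (π.g_le_left m m').2.1 i k b hb
    have h2 := (π.g_le_right m m').2.1 i k _ hm'
    rw [h1] at h2
    exact (Option.some.inj h2).symm
  have hval : ∀ E K, π.val (zn E K) = enc (ZZ X E K) := by
    intro E K
    ext z
    rw [π.mem_val, mem_enc]
    constructor
    · rintro ⟨y, hy, t, hel, ⟨m, hm⟩, hz⟩
      obtain ⟨n, rfl, hn⟩ := el_zn.1 hel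
      refine ⟨n, fun k hk => ⟨(hn k hk).1, fun i hi j hj hij => ?_⟩, ?_⟩
      · obtain ⟨b, c, h1, h2, h3⟩ := (hn k hk).2 i hi j hj hij
        rw [huniq i k m b (hm.2.1 i k b h1), huniq j k m c (hm.2.1 j k c h2)]
        exact h3
      · rw [← hz]
        exact π.hat_nat n
    · rintro ⟨n, hn, rfl⟩
      choose M hMX using hX
      let m := (E ×ˢ Finset.range (n : ℕ)).sup fun a => M a.1 a.2
      have hm : ∀ i ∈ E, ∀ k, Nat.testBit (n : ℕ) k = true → (π.g m).p.1 i k = some (X i k) := by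
        intro i hi k hk
        have hk' : k < n := by
          have h1 := Nat.ge_two_pow_of_testBit hk
          exact lt_of_lt_of_le Nat.lt_two_pow_self h1
        have h1 : M i k ≤ m := Finset.le_sup (f := fun a : I × ℕ => M a.1 a.2)
          (Finset.mem_product.2 ⟨hi, Finset.mem_range.2 hk'⟩ : (i, k) ∈ _)
        exact (π.g_anti h1).2.1 i k _ (hMX i k)
      refine ⟨check (nat (n : ℕ)), π.nat_Z n, π.g m, el_zn.2 ⟨n, rfl, fun k hk =>
        ⟨(hn k hk).1, fun i hi j hj hij => ⟨X i k, X j k, hm i hi k hk, hm j hj k hk,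
          (hn k hk).2 i hi j hj hij⟩⟩⟩, ⟨m, le_rfl⟩, π.hat_nat n⟩
  refine ⟨⟨zs, ⟨hzs, hs_zs⟩, rfl⟩, X, hX, hval, fun z => ?_, fun E K => ?_⟩
  · rw [π.mem_val]
    constructor
    · rintro ⟨y, hy, t, hel, -, rfl⟩
      obtain ⟨E, K, rfl, -⟩ := el_zs.1 hel
      exact ⟨E, K, hval E K⟩
    · rintro ⟨E, K, rfl⟩
      exact ⟨zn E K, hzn E K, ⊤, el_zs.2 ⟨E, K, rfl, rfl⟩, ⟨0, le_top⟩, hval E K⟩
  · obtain ⟨m, hm | hm⟩ := gen_nm (hDN (E, K)) (by
      rintro r ⟨k, hk, h⟩ s hs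
      exact ⟨k, hk, fun i hi => hs.2.1 i k _ (h i hi)⟩)
    · obtain ⟨k, hk, h⟩ := hm
      refine ⟨⟨2 ^ k, by positivity⟩, fun l hl => ?_⟩
      change Nat.testBit (2 ^ k) l = true at hl
      rw [Nat.testBit_two_pow] at hl
      have hl' : k = l := by simpa using hl
      subst hl'
      refine ⟨hk, fun i hi j hj _ => ?_⟩
      rw [huniq i k m _ (h i hi), huniq j k m _ (h j hj)]
    · obtain ⟨y, hy, h⟩ := DN_dense hM (E, K) (π.g m)
      exact absurd h (hm y hy)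

end Pool.Agent.R602.IU
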